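import Mathlib

/-!
# ALZ: networks, Green functions (lower bound for `z`), definitions

Block of MP_42db45_gt (arborescent combinations of alternating tangles). A network is a finite graph
with two terminals `a`, `b`; `ph` is the potential of a flow of total current `I` from `a` (potential
`0`) to `b` (potential `R`), all edges are oriented upwards, so `N.d ph e ≥ 0` is the current in `e`.
-/

set_option autoImplicit false

namespace ALZ

/-- a network: the ends of the edges and two terminals -/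
structure Nt (V E : Type) where
  /-- lower end -/
  s : E → V
  /-- upper end -/
  t : E → V
  /-- lower terminal -/
  a : V
  /-- upper terminal -/
  b : V

section defs

variable {V V' E : Type} [Fintype E]

/-- difference of `h` along `e` -/
def Nt.d (N : Nt V E) (h : V → ℝ) (e : E) : ℝ := h (N.t e) - h (N.s e)

/-- energy form with the weights `c` -/
def Nt.fw (N : Nt V E) (c : E → ℝ) (f g : V → ℝ) : ℝ := ∑ e, c e * (N.d f e * N.d g e)

/-- `f` vanishes outside of `W` -/
def Van (W : Set V) (f : V → ℝ) : Prop := ∀ x, x ∉ W → f x = 0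

/-- the form is positive definite on the functions which vanish outside of `W` -/
def Nt.PD (N : Nt V E) (c : E → ℝ) (W : Set V) : Prop :=
  ∀ f : V → ℝ, Van W f → N.fw c f f = 0 → ∀ x, f x = 0

/-- `G` is the Green function of the form with weights `c` for the set `W` -/
structure Nt.Gr (N : Nt V E) (c : E → ℝ) (W : Set V) (G : V → V → ℝ) : Prop where
  out : ∀ x, x ∉ W → ∀ y, G x y = 0
  van : ∀ x, Van W (G x)
  rep : ∀ x ∈ W, ∀ h : V → ℝ, Van W h → N.fw c (G x) h = h x

/-- the vertices which are not terminals -/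
def Nt.In (N : Nt V E) : Set V := {x | x ≠ N.a ∧ x ≠ N.b}

/-- a network with its potential `ph` (height `R`, total current `I`) and its Green function -/
structure Nt.Ok (N : Nt V E) (ph : V → ℝ) (R I : ℝ) (G : V → V → ℝ) : Prop where
  R0 : 0 < R
  I0 : 0 < I
  a0 : ph N.a = 0
  bR : ph N.b = R
  up : ∀ e, 0 ≤ N.d ph e
  fl : ∀ h : V → ℝ, ∑ e, N.d ph e * N.d h e = I * (h N.b - h N.a)
  pd : N.PD (fun _ => 1) N.In
  gr : N.Gr (fun _ => 1) N.In G

/-- clamped distance from `lo` -/
noncomputable def cl (lo γ y : ℝ) : ℝ := max 0 (min γ (y - lo))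

/-- height of `x` above the lower end of `j`, clamped to the range of `j` -/
noncomputable def Nt.cj (N : Nt V E) (ph : V → ℝ) (j : E) (x : V) : ℝ :=
  cl (ph (N.s j)) (N.d ph j) (ph x)

/-- length of the part of the range of `e` in the range of `j` -/
noncomputable def Nt.lj (N : Nt V E) (ph : V → ℝ) (e j : E) : ℝ := N.d (N.cj ph j) e

/-- the range of `e` is contained in the range of `j` -/
def Nt.Ins (N : Nt V E) (ph : V → ℝ) (e j : E) : Prop :=
  ph (N.s j) ≤ ph (N.s e) ∧ ph (N.t e) ≤ ph (N.t j)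

/-- `τ(y,y) + τ(y',y') + 2 τ(y,y')`, `τ(y,y') = y (γ - y')` for `y ≤ y'` -/
def Ps (γ y y' : ℝ) : ℝ := y * (γ - y) + y' * (γ - y') + 2 * (y * (γ - y'))

/-- `G(δ_u + δ_v)` for the ends `u`, `v` of `e` -/
def Nt.gp (N : Nt V E) (G : V → V → ℝ) (e : E) : ℝ :=
  G (N.s e) (N.s e) + G (N.t e) (N.t e) + 2 * G (N.s e) (N.t e)

/-- `G(δ_u - δ_v)` for the ends `u`, `v` of `e` -/
def Nt.gm (N : Nt V E) (G : V → V → ℝ) (e : E) : ℝ :=
  G (N.s e) (N.s e) + G (N.t e) (N.t e) - 2 * G (N.s e) (N.t e)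

/-- two dual networks: the same currents, `t + t* + λ = 1`; height `R` and total current `1` for
`N`, height `1` and total current `R` for `N'` -/
structure Dual (N : Nt V E) (N' : Nt V' E) (ph : V → ℝ) (x : V' → ℝ) (R : ℝ) (G : V → V → ℝ)
    (G' : V' → V' → ℝ) : Prop where
  ok : N.Ok ph R 1 G
  ok' : N'.Ok x 1 R G'
  cur : ∀ e, N.d ph e = N'.d x e
  tri : ∀ e, N.gm G e + N'.gm G' e + N.d ph e ^ 2 / R = 1

/-- the number `z^ = z - 1/(2pq)` of the network -/
noncomputable def zh (N : Nt V E) (N' : Nt V' E) (ph : V → ℝ) (R : ℝ) (G : V → V → ℝ)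
    (G' : V' → V' → ℝ) : ℝ :=
  3 / 2 - (R + 1 / R) / 2 - ∑ e, (N.d ph e ^ 2 / R) ^ 2 +
    3 * ∑ e, N.d ph e ^ 2 / R * (G (N.s e) (N.t e) + G' (N'.s e) (N'.t e))

/-- loss of a big square; the strip is used if `g0 ≤ γ` -/
noncomputable def loss (g0 R γ : ℝ) : ℝ :=
  3 * γ * (γ - 1 / 2) ^ 2 / R ^ 2 - if g0 ≤ γ then 3 / R * ((γ - 1 / 2) * (γ - 2 / 3)) else 0

/-- gain of the dual strip -/
noncomputable def gainH (R γ : ℝ) : ℝ := γ / (2 * R) * (4 * γ - 3 * R)

/-- `3/2 - R/2 - 3/(4R)` -/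
noncomputable def L0 (R : ℝ) : ℝ := 3 / 2 - R / 2 - 3 / (4 * R)

end defs

/-- a pair of dual networks without full squares -/
structure Good (V V' E : Type) [Fintype E] (N : Nt V E) (N' : Nt V' E) (ph : V → ℝ)
    (x : V' → ℝ) (R : ℝ) (G : V → V → ℝ) (G' : V' → V' → ℝ) : Prop where
  dual : Dual N N' ph x R G G'
  r1 : 1 ≤ R
  lt1 : ∀ e, N.d ph e < 1
  ltR : ∀ e, N.d ph e < R

end ALZ
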