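import Pool.Agent.ALZ.Defs

/-!
# ALZ: lower bound for `z`, frozen statements

The docstrings contain complete proofs. `s_e = N.d ph e` is the current in `e`; `u = N.s e`,
`v = N.t e` are the ends of `e`. The FLOW IDENTITY is the field `fl` of `Nt.Ok`; it is applied to
functions `h = H ∘ ph` and `h = H ∘ N.cj ph j`.
-/

set_option autoImplicit false

namespace ALZ

/-! ## Forms and Green functions -/

/-- [GEX] (0.7 h) existence of Green functions. Hypotheses: none.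
Proof. `Z` = the subspace of the functions `V → ℝ` which vanish outside of `W`, finite dimensional. The
linear map `Z → Dual Z`, `f ↦ (h ↦ N.fw c f h)` is injective (`N.fw c f f = 0` implies `f = 0`), so it is
surjective (equal finite dimensions). For `x ∈ W` let `G x` be the preimage of `h ↦ h x`, for `x ∉ W`
`G x = 0`. -/
def St_GEX : Prop := ∀ (V E : Type) [Fintype V] [Fintype E] (N : Nt V E) (c : E → ℝ) (W : Set V),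
  N.PD c W → ∃ G, N.Gr c W G

/-- [GMP] (1 h) comparison of Green functions. Hypotheses: none.
Proof. If `x ∉ W'` then `G' x y = 0`, and `0 ≤ G x y` by (1) for `G`. (1) `0 ≤ G' x y` (and `0 ≤ G x y` in the
same way, `c' = c`, `W' = W`): `m y = max (-(G' x y)) 0` vanishes outside of `W'`, so
`N.fw c' (G' x) m = m x ≥ 0`. For every edge `d (G' x) e * d m e ≤ -(d m e)^2` (monotonicity of
`t ↦ max (-t) 0`, which is `1`-Lipschitz); if an end of `e` is in `W'` then `c' e ≥ c e ≥ 0`, otherwise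
`d m e = 0`. So `N.fw c' m m ≤ -m x ≤ 0`; it is also `≥ 0`, so it is `0` and `m = 0` by `N.PD c' W'`.
(2) `G' x y ≤ G x y` for `x ∈ W'`: `g = G' x`, `h = G x ≥ 0`, `m = max (g - h) 0` vanishes outside of `W'`
(`g = 0`, `h ≥ 0` there), so also outside of `W`; `N.fw c' g m = m x = N.fw c h m`. `N.fw c g m ≤
N.fw c' g m`: for an edge with both ends in `W'` the weights agree, with no end in `W'` `d m e = 0`, with
one end `u` in `W'` `d g e * d m e = g u * m u ≥ 0` and `c e ≤ c' e`. So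
`∑ c e * d (g - h) e * d m e ≤ 0`, and `d (g - h) e * d m e ≥ (d m e)^2`: `N.fw c m m ≤ 0`, so `m = 0`. -/
def St_GMP : Prop := ∀ (V E : Type) [Fintype E] (N : Nt V E) (c c' : E → ℝ) (W W' : Set V)
  (G G' : V → V → ℝ), (∀ e, 0 ≤ c e) → N.PD c W → N.Gr c W G → N.PD c' W' → N.Gr c' W' G' →
  W' ⊆ W → (∀ e, N.s e ∈ W' → N.t e ∈ W' → c' e = c e) →
  (∀ e, N.s e ∈ W' ∨ N.t e ∈ W' → c e ≤ c' e) → ∀ x y, 0 ≤ G' x y ∧ G' x y ≤ G x y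

/-- [DIR] (0.5 h) symmetry and Dirichlet's principle. Hypotheses: none.
Proof. (1) if `x`, `y ∈ W`: `G x y = N.fw c (G y) (G x) = N.fw c (G x) (G y) = G y x`; otherwise both are
`0` (`out`, `van`). (2) and (3): `g = G x + G y` (pointwise sum) vanishes outside of `W`,
`N.fw c g f = f x + f y` for every `f` vanishing outside of `W` (for `x ∉ W` both `G x = 0` and `f x = 0`), in
particular `N.fw c g g = g x + g y = G x x + G y y + 2 * G x y ≥ 0`. Cauchy-Schwarz for the form with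
weights `c e ≥ 0`: `(N.fw c g f)^2 ≤ N.fw c g g * N.fw c f f` (for instance
`Finset.sum_mul_sq_le_sq_mul_sq` for `√(c e) * d g e`, `√(c e) * d f e`). -/
def St_DIR : Prop := ∀ (V E : Type) [Fintype E] (N : Nt V E) (c : E → ℝ) (W : Set V)
  (G : V → V → ℝ), (∀ e, 0 ≤ c e) → N.Gr c W G →
  (∀ x y, G x y = G y x) ∧ (∀ x y, 0 ≤ G x x + G y y + 2 * G x y) ∧
  ∀ f : V → ℝ, Van W f → ∀ x y,
    (f x + f y) ^ 2 ≤ (G x x + G y y + 2 * G x y) * N.fw c f f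

/-- [LEV] (0.5 h) leverage of an edge of weight `1`. Hypotheses: none (symmetry of `G` as in [DIR]).
Proof. `f = G v - G u` (`u = N.s e`, `v = N.t e`) vanishes outside of `W`; `T = f v - f u = N.gm G e`,
`N.fw c f f = T` (`N.fw c (G v) f = f v`, also if `v ∉ W`: then both are `0`). Let `B = N.fw c ps ps > 0`,
`s = N.d ps e`, `g = f + (s / B) ps`. `N.d g e = T + s^2 / B =: Λ` and
`N.fw c g g = T + 2 (s / B) * 0 + (s / B)^2 * B = Λ`. As all terms of `N.fw c g g` are `≥ 0` and `c e = 1`,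
`Λ^2 = (N.d g e)^2 ≤ Λ`, so `Λ ≤ 1`. -/
def St_LEV : Prop := ∀ (V E : Type) [Fintype E] (N : Nt V E) (c : E → ℝ) (W : Set V)
  (G : V → V → ℝ) (ps : V → ℝ) (e : E), (∀ e, 0 ≤ c e) → N.Gr c W G → c e = 1 →
  0 < N.fw c ps ps → (∀ f : V → ℝ, Van W f → N.fw c f ps = 0) →
  N.gm G e + N.d ps e ^ 2 / N.fw c ps ps ≤ 1

/-! ## The flow identity -/

/-- [RNG] (0.5 h) range of the potential. Hypotheses: none.
Proof. (1) `m x = min (ph x) 0`: `m a = 0`, `m b = 0` (`R > 0`), so by `fl` `∑ e, d ph e * d m e = 0`, and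
`d ph e * d m e ≥ (d m e)^2` (`min` is monotone and `1`-Lipschitz), so `N.fw 1 m m = 0`, `m = 0` by `pd`.
The same for `max (ph x - R) 0` (it vanishes at `a` and `b`). (2) `fl` for `h = ph`. (3) `gm ≥ 0`:
it is `N.fw 1 f f` for `f = G v - G u`. -/
def St_RNG : Prop := ∀ (V E : Type) [Fintype E] (N : Nt V E) (ph : V → ℝ) (R I : ℝ)
  (G : V → V → ℝ), N.Ok ph R I G → (∀ x, 0 ≤ ph x ∧ ph x ≤ R) ∧
  (∑ e, N.d ph e ^ 2 = I * R) ∧ ∀ e, 0 ≤ N.gm G e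

/-- [FLJ] (0.7 h) the flow identity in the range of `j`. Hypotheses: `St_RNG`.
Proof. `γ = N.d ph j ≥ 0`. `cl lo γ` is monotone, `1`-Lipschitz, with values in `[0, γ]`; `N.cj ph j` is
`0` at `s j`, `γ` at `t j`, `0` at `a` (`ph a = 0 ≤ ph (s j)`), `γ` at `b` (`ph b = R ≥ ph (t j)`). `fl` for
`h = H ∘ N.cj ph j`: `∑ e, d ph e * (H (cj (t e)) - H (cj (s e))) = I * (H γ - H 0)`; the term of `j` is
`γ * (H γ - H 0)`. The other statements: monotonicity and `1`-Lipschitz. -/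
def St_FLJ : Prop := ∀ (V E : Type) [Fintype E] [DecidableEq E] (N : Nt V E) (ph : V → ℝ)
  (R I : ℝ) (G : V → V → ℝ) (j : E), N.Ok ph R I G →
  (∀ H : ℝ → ℝ, (∑ e, if e = j then 0 else
      N.d ph e * (H (N.cj ph j (N.t e)) - H (N.cj ph j (N.s e)))) =
    (I - N.d ph j) * (H (N.d ph j) - H 0)) ∧
  (∀ e, 0 ≤ N.lj ph e j ∧ N.lj ph e j ≤ N.d ph e) ∧ N.lj ph j j = N.d ph j ∧
  (∀ x, 0 ≤ N.cj ph j x ∧ N.cj ph j x ≤ N.d ph j) ∧ N.cj ph j N.a = 0 ∧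
  N.cj ph j N.b = N.d ph j ∧
  ∀ e, N.Ins ph e j → N.cj ph j (N.s e) = ph (N.s e) - ph (N.s j) ∧
    N.cj ph j (N.t e) = ph (N.s e) - ph (N.s j) + N.d ph e

/-- [OVL] (0.7 h) edges with overlapping ranges. Hypotheses: `St_RNG`, `St_FLJ`.
Proof. (1) `0 < lj e j`: there is `τ` with `max (ph (s e)) (ph (s j)) < τ < min (ph (t e)) (ph (t j))`
(by the definition of `cl`, distinguish cases). Let `h x = 1` if `τ < ph x`, else `0`. `h a = 0`, `h b = 1`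
(`0 ≤ ph (s j) < τ < ph (t j) ≤ R`). `fl`: `∑ e, d ph e * d h e = I`; all terms are `≥ 0` (`ph` is larger at
`t e`), those of `e` and `j` are `d ph e` and `d ph j`. (2) `e` inside `j`: `cj j' (t e) - cj j' (s e) ≤
cj j' (t j) - cj j' (s j) = lj j j'` (monotone in `ph`); it is `0`, because `0 < lj j j'` implies
`d ph j + d ph j' ≤ I` by (1). (3) `γ = d ph j`, `e ≠ j`, `0 < lj e j`, not inside: if
`ph (s e) < ph (s j)` and `ph (t j) < ph (t e)` then `d ph e > γ`, so `I ≥ d ph e + γ > 2γ`, impossible.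
So exactly one end of `e` is outside of the range: either `ph (s j) ≤ ph (s e) < ph (t j) < ph (t e)`,
`cj (t e) = γ`, `cj (s e) = γ - lj e j`, or `ph (s e) < ph (s j) < ph (t e) ≤ ph (t j)`, `cj (s e) = 0`,
`cj (t e) = lj e j`. -/
def St_OVL : Prop := ∀ (V E : Type) [Fintype E] (N : Nt V E) (ph : V → ℝ) (R I : ℝ)
  (G : V → V → ℝ), N.Ok ph R I G →
  (∀ e j, e ≠ j → 0 < N.lj ph e j → N.d ph e + N.d ph j ≤ I) ∧
  (∀ e j j', j ≠ j' → I < N.d ph j + N.d ph j' → N.Ins ph e j → N.lj ph e j' = 0) ∧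
  ∀ e j, e ≠ j → I < 2 * N.d ph j → 0 < N.lj ph e j → ¬ N.Ins ph e j →
    N.lj ph e j < N.d ph e ∧
    ((N.cj ph j (N.t e) = N.d ph j ∧ N.cj ph j (N.s e) = N.d ph j - N.lj ph e j) ∨
      (N.cj ph j (N.s e) = 0 ∧ N.cj ph j (N.t e) = N.lj ph e j))

/-- [DSJ] (1 h) big edges have disjoint ranges. Hypotheses: `St_RNG`, `St_FLJ`, `St_OVL`.
Proof. For `j ≠ j'` in `J` `lj j j' = 0` ([OVL] (1): `d ph j + d ph j' > I`), so the open intervals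
`(ph (s j), ph (t j))` are pairwise disjoint. `lj e j` is the length of
`(ph (s e), ph (t e)) ∩ (ph (s j), ph (t j))` (length of the intersection of two intervals; e.g. the
volume), so the sum over `j ∈ J` is at most `d ph e`. In the same way `∑ j ∈ J, d ph j ≤ R` (all
intervals are contained in `(0, R)`). (Elementary: induction on `J`; or volumes of pairwise disjoint
measurable sets.) (3) if `e ∈ J` then `lj e j = 0` for `j ∈ J`, `j ≠ e`. -/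
def St_DSJ : Prop := ∀ (V E : Type) [Fintype E] (N : Nt V E) (ph : V → ℝ) (R I : ℝ)
  (G : V → V → ℝ) (J : Finset E), N.Ok ph R I G → (∀ j ∈ J, I < 2 * N.d ph j) →
  (∀ e, ∑ j ∈ J, N.lj ph e j ≤ N.d ph e) ∧ (∑ j ∈ J, N.d ph j ≤ R) ∧
  ∀ e ∈ J, ∀ j ∈ J, e ≠ j → N.lj ph e j = 0

/-! ## Test functions -/

/-- [TNT] (0.6 h) sums of two tents. Hypotheses: none.
Proof. `ℓ1 y = min y y1`, `ℓ2 y = max 0 (min (y2 - y1) (y - y1))`, `ℓ3 y = max 0 (y - y2)`;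
`ℓ1 + ℓ2 + ℓ3 = y`, all `ℓi` are monotone. `m1 = 2 γ - y1 - y2`, `m2 = γ - y1 - y2`, `m3 = -(y1 + y2)`;
`k = ∑ mi ℓi`, `q = ∑ mi^2 ℓi`. `k 0 = 0`, `k γ = m1 y1 + m2 (y2 - y1) + m3 (γ - y2) = 0`,
`k y1 = m1 y1`, `k y2 = m1 y1 + m2 (y2 - y1)`, `k y1 + k y2 = Ps γ y1 y2`, `q γ - q 0 = γ * Ps γ y1 y2`
(ring). For `α ≤ β` let `δi = ℓi β - ℓi α ≥ 0`, `∑ δi = β - α`:
`(∑ mi δi)^2 ≤ (∑ δi) (∑ mi^2 δi)` (the difference is `∑_{i<j} δi δj (mi - mj)^2`). -/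
def St_TNT : Prop := ∀ γ y1 y2 : ℝ, 0 ≤ y1 → y1 ≤ y2 → y2 ≤ γ →
  ∃ k q : ℝ → ℝ, k 0 = 0 ∧ k γ = 0 ∧ k y1 + k y2 = Ps γ y1 y2 ∧
    q γ - q 0 = γ * Ps γ y1 y2 ∧
    ∀ α β, 0 ≤ α → α ≤ β → β ≤ γ → (k β - k α) ^ 2 ≤ (β - α) * (q β - q α)

/-- [ENC] (1 h) the test function for the kernel `Lev` plus strip. Hypotheses: none (`St_TNT` is not needed).
Proof, six pieces, no case distinction. `w = 1 - γ > 0`, `g1 y = cl lo γ y`, `g2 y = y - g1 y`, both are monotone.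
For `g ∈ {g1, g2}` the pieces are `g (min y y1)`, `g (min y y2) - g (min y y1)`, `g y - g (min y y2)`; all six are
monotone in `y` (for ANY monotone `g` and `y1 ≤ y2`: distinguish `y ≤ y1` etc.) and their sum is `y`. With
`c1 = g1 y1`, `c2 = g1 y2`, `a = (2, 1, 0)`: slopes on the pieces of `g2`: `A_i = a_i - (y1 + y2) / R`; on the pieces of
`g1`: `A_i + B_i`, `B_i = (γ a_i - (c1 + c2)) / w`. `K` = sum of slope times piece, `Q` = sum of slope squared times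
piece. The last statement is the weighted Cauchy-Schwarz inequality `(∑ m_i δ_i)^2 ≤ (∑ δ_i) (∑ m_i^2 δ_i)` for six
weights `δ_i ≥ 0` (`Finset.sum_mul_sq_le_sq_mul_sq` or the difference is `∑_{i<j} δ_i δ_j (m_i - m_j)^2`).
Values of the pieces: all are `0` at `0`; at `R`: `c1, c2 - c1, γ - c2`, `y1 - c1, (y2 - c2) - (y1 - c1),
(R - γ) - (y2 - c2)` (`g1 R = γ`); from `lo` to `hi = lo + γ` the pieces of `g1` grow by `c1, c2 - c1, γ - c2` and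
those of `g2` by `0` (`g1 (min lo y) = 0`, `g1 (min hi y) = g1 y`, `g2 (min hi y) = g2 (min lo y)`). At `y1`, `y2`:
`min y1 y2 = y1` etc. So all statements are identities of rational functions in the free variables
`R, γ, y1, y2, c1, c2` (`field_simp; ring`): `K R = 0`; `K y1 + K y2 = Ps R y1 y2 / R + Ps γ c1 c2 / w`;
`K hi - K lo = c1 + c2 - γ (y1 + y2) / R`; `(K hi - K lo)^2 + (Q R - Q 0) - γ (Q hi - Q lo) = K y1 + K y2`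
(equality; checked in rational arithmetic). -/
def St_ENC : Prop := ∀ R lo γ y1 y2 : ℝ, 0 < R → 0 ≤ lo → 0 < γ → lo + γ ≤ R → γ < 1 → 0 ≤ y1 →
  y1 ≤ y2 → y2 ≤ R → ∃ K Q : ℝ → ℝ, K 0 = 0 ∧ K R = 0 ∧
    K y1 + K y2 = Ps R y1 y2 / R + Ps γ (cl lo γ y1) (cl lo γ y2) / (1 - γ) ∧
    (K (lo + γ) - K lo) ^ 2 + (Q R - Q 0) - γ * (Q (lo + γ) - Q lo) ≤ K y1 + K y2 ∧
    ∀ α β, 0 ≤ α → α ≤ β → β ≤ R → (K β - K α) ^ 2 ≤ (β - α) * (Q β - Q α)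

/-! ## Bounds for `G u v` -/

/-- [LVI] (0.7 h) comparison with the kernel `Lev`. Hypotheses: `St_DIR`, `St_RNG`, `St_TNT`.
Proof. `y1 = ph u`, `y2 = ph v`, [TNT] for `γ = R`; `f = k ∘ ph` vanishes at `a`, `b`.
`N.fw 1 f f = ∑ e, (k (ph (t e)) - k (ph (s e)))^2 ≤ ∑ e, d ph e * (q (ph (t e)) - q (ph (s e))) =
I * (q R - q 0) = I R P`, `P = Ps R y1 y2 ≥ 0`. [DIR] (3): `P^2 ≤ gp * (I R P)`. If `P > 0` divide, if
`P = 0` use [DIR] (2). -/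
def St_LVI : Prop := ∀ (V E : Type) [Fintype E] (N : Nt V E) (ph : V → ℝ) (R I : ℝ)
  (G : V → V → ℝ) (e : E), N.Ok ph R I G →
  Ps R (ph (N.s e)) (ph (N.t e)) ≤ R * I * N.gp G e

/-- [STP] (1.5 h) an edge inside of the strip of `j`. Hypotheses: `St_GEX`, `St_GMP`, `St_DIR`,
`St_LEV`, `St_RNG`, `St_FLJ`, `St_OVL`, `St_TNT`.
`γ = d ph j`, `w = I - γ > 0`, `y = ph u - ph (s j) = cj u`, `s = d ph e`, `y + s = cj v ≤ γ`.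
Proof. `G u v ≥ 0` ([GMP] with `G' = G`). If `s = 0` or (`s > 0` and (`y = 0` or `y + s = γ`)): for `s > 0`
`lj e j = s > 0`, so `s ≤ w` ([OVL]) and the left side is `s (γ - s) - wγ + s^2 = γ (s - w) ≤ 0`.
Otherwise (also for `s = 0`, `0 < y < γ`; for `s = 0` and `y = 0` or `y = γ` the left side is `-wγ`) both ends
are in `W = {x | 0 < cj x < γ}` (it does not contain `a`, `b`: `W ⊆ N.In`). Weights: `c e' = 0` if `e' = j` or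
if neither end of `e'` is in `W`; `c e' = 1` if both ends are in `W` or if `d ph e' = 0`; otherwise (one end in `W`)
`c e' = d ph e' / lj e' j ≥ 1` (`lj e' j > 0` as the two ends have different `cj`). For `f` vanishing
outside of `W` `d f j = 0`, so `N.fw c f f ≥ N.fw 1 f f` and `N.PD c W`; `Gk` from [GEX];
`0 ≤ Gk u v ≤ G u v` by [GMP]. (i) `ps = N.cj ph j`: `c e' * d ps e' = d ph e'` for all `e' ≠ j` with an end in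
`W`, so for `f` vanishing outside of `W` `N.fw c f ps = ∑ e', d ph e' * d f e' = 0` (`fl`, `f a = f b = 0`).
(ii) `0 < N.fw c ps ps ≤ ∑_{e' ≠ j} d ph e' * lj e' j = wγ` ([FLJ] for `H = id`; edges inside `W` contribute
`s'^2 = s' * lj`, one end in `W`: `c lj^2 = d ph * lj`); it is `≥ s^2`. If `s > 0` [LEV] gives
`N.gm Gk e ≤ 1 - s^2 / (wγ)`; if `s = 0` `N.gm Gk e ≤ 1` (Dirichlet/Cauchy-Schwarz: `T^2 ≤ T`, as in
[LEV] with `ps = 0`). (iii) [TNT] for `γ`, `y1 = y`, `y2 = y + s`, `f = k ∘ N.cj ph j` (vanishes outside of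
`W`): `c e' * (d f e')^2 ≤ d ph e' * (q (cj (t e')) - q (cj (s e')))` for `e' ≠ j` (as
`(d f e')^2 ≤ lj e' j * (...)` and `c e' * lj e' j ≤ d ph e'`; if `d ph e' = 0` then `cj` is equal at both
ends, `d f e' = 0`), so `N.fw c f f ≤ w (q γ - q 0) = wγ P`, `P = Ps γ y (y + s)`. [DIR]: `P^2 ≤ gp * wγP`,
so `P ≤ wγ * gp` (`P = 0`: [DIR] (2)). (iv) `4 Gk u v = gp - gm ≥ P / (wγ) - 1 + s^2 / (wγ)`. -/
def St_STP : Prop := ∀ (V E : Type) [Fintype V] [Fintype E] (N : Nt V E) (ph : V → ℝ) (R I : ℝ)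
  (G : V → V → ℝ) (e j : E), N.Ok ph R I G → e ≠ j → 0 < N.d ph j → N.d ph j < I →
  N.Ins ph e j →
  Ps (N.d ph j) (N.cj ph j (N.s e)) (N.cj ph j (N.t e)) - (I - N.d ph j) * N.d ph j +
    N.d ph e ^ 2 ≤ 4 * ((I - N.d ph j) * N.d ph j) * G (N.s e) (N.t e)

/-- [PRT] (0.8 h) the strip inequality for every edge. Hypotheses: `St_GEX`, `St_GMP`, `St_RNG`, `St_FLJ`,
`St_OVL`, `St_STP`. `γ = d ph j`, `w = I - γ`, `4 w ≤ 3 γ`, `s = d ph e`, `l = lj e j`, `P y = (3/2) γ y^2 - y^3`.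
Proof. (1) inside: `y = cj u`, `cj v = y + s`, `l = s`. `s (P (y+s) - P y) - (3/4 wγ + 3/4 γ s - s^2) s^2 =
(3/4) s^2 (Ps γ y (y + s) - wγ + s^2)` (ring), then [STP] (times `(3/4) s^2`). (2) not inside: if `l = 0`
both `cj` values are equal: `0 ≤ 0`. If `l > 0`: by [OVL] (3) `P (cj v) - P (cj u) = (3/2) γ l^2 - l^3`
(both cases: `P γ - P (γ - l) = (3/2) γ l^2 - l^3` and `P l - P 0`), `l < s ≤ w`. To show:
`(3/2) γ l - l^2 ≤ (3/4) wγ + (3/4) γ s - s^2`. The left side is increasing in `l` for `l ≤ 3γ/4` and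
`l ≤ s ≤ w ≤ 3γ/4`, so it is at most `(3/2) γ s - s^2`, and `(3/4) γ s ≤ (3/4) γ w`. -/
def St_PRT : Prop := ∀ (V E : Type) [Fintype V] [Fintype E] (N : Nt V E) (ph : V → ℝ) (R I : ℝ)
  (G : V → V → ℝ) (e j : E), N.Ok ph R I G → e ≠ j → 0 < N.d ph j → N.d ph j < I →
  4 * (I - N.d ph j) ≤ 3 * N.d ph j → ∀ (P : ℝ → ℝ) (w γ : ℝ), γ = N.d ph j → w = I - γ →
  (∀ y, P y = 3 / 2 * γ * y ^ 2 - y ^ 3) →
  (N.Ins ph e j → N.d ph e * (P (N.cj ph j (N.t e)) - P (N.cj ph j (N.s e)) -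
    (3 / 4 * (w * γ) + 3 / 4 * (γ * N.d ph e) - N.d ph e ^ 2) * N.lj ph e j) ≤
      3 * (w * γ) * (N.d ph e ^ 2 * G (N.s e) (N.t e))) ∧
  (¬ N.Ins ph e j → N.d ph e * (P (N.cj ph j (N.t e)) - P (N.cj ph j (N.s e)) -
    (3 / 4 * (w * γ) + 3 / 4 * (γ * N.d ph e) - N.d ph e ^ 2) * N.lj ph e j) ≤ 0)

/-- [VSM] (0.8 h) sum over the strips. Hypotheses: `St_GEX`, `St_GMP`, `St_RNG`, `St_FLJ`, `St_OVL`, `St_DSJ`,
`St_PRT`. Proof. `0 ≤ G` ([GMP] with `G' = G`). For `e` and `j ∈ J`, `e ≠ j` let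
`X_j(e) = s_e ((P_j (cj v) - P_j (cj u)) / (w_j γ_j) - c_j(s_e) l_ej)`, `c_j(s) = 3/4 + (3/4) s/w - s^2/(wγ)`,
which is the left side of [PRT] divided by `wγ > 0`. Claim: `∑_{j ∈ J, j ≠ e} X_j(e) ≤ 3 s_e^2 G u v`. If
`e` is inside some `j ∈ J`, `j ≠ e`: `lj e j' = 0` and `cj j'` is equal at the two ends for the other
`j' ∈ J` ([OVL] (2), `4 w ≤ 3 γ` implies `γ > I/2`), so the other terms are `0`, and [PRT] (1) for `j`.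
Otherwise all terms are `≤ 0` ([PRT] (2)). Sum over `e`; `∑_{e ≠ j} s_e (P_j (cj v) - P_j (cj u)) = w (P_j γ - P_j 0)
= w γ^3 / 2` ([FLJ]). -/
def St_VSM : Prop := ∀ (V E : Type) [Fintype V] [Fintype E] [DecidableEq E] (N : Nt V E)
  (ph : V → ℝ) (R I : ℝ) (G : V → V → ℝ) (J : Finset E), N.Ok ph R I G →
  (∀ j ∈ J, 0 < N.d ph j ∧ N.d ph j < I ∧ 4 * (I - N.d ph j) ≤ 3 * N.d ph j) →
  ∑ j ∈ J, (N.d ph j ^ 2 / 2 - ∑ e, if e = j then 0 else N.d ph e * N.lj ph e j *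
    (3 / 4 + 3 / 4 * (N.d ph e / (I - N.d ph j)) -
      N.d ph e ^ 2 / ((I - N.d ph j) * N.d ph j))) ≤
  3 * ∑ e, N.d ph e ^ 2 * G (N.s e) (N.t e)

/-- [HSM] (0.4 h) one strip, simple form. Hypotheses: `St_FLJ`, `St_OVL`, `St_VSM`.
Proof. [VSM] for `J = {j}`; `c_j(s) ≤ 3/2` if `lj e j > 0` (then `s ≤ w` by [OVL]), and
`∑_{e ≠ j} s_e lj e j = w γ` ([FLJ], `H = id`). -/
def St_HSM : Prop := ∀ (V E : Type) [Fintype V] [Fintype E] (N : Nt V E)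
  (ph : V → ℝ) (R I : ℝ) (G : V → V → ℝ) (j : E), N.Ok ph R I G → 0 < N.d ph j →
  N.d ph j < I → 4 * (I - N.d ph j) ≤ 3 * N.d ph j →
  N.d ph j ^ 2 / 2 - 3 / 2 * ((I - N.d ph j) * N.d ph j) ≤
    3 * ∑ e, N.d ph e ^ 2 * G (N.s e) (N.t e)

/-! ## `R ≤ 3/2` -/

/-- [SQA] (1 h) the sum of the fourth powers and the strips. Hypotheses: `St_RNG`, `St_FLJ`, `St_OVL`,
`St_DSJ`, `St_VSM`. `J` = the edges with `s_j > 1/2`, `U` = those with `g0 ≤ γ_j`.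
Proof. `γ = d ph j`, `w = 1 - γ`. (1) for `e ∉ J` `s_e = l_e0 + ∑_{j ∈ J} lj e j`, `l_e0 ≥ 0` ([DSJ]);
`s_e^4 = s_e s_e^2 l_e0 + ∑_j s_e s_e^2 lj e j ≤ (1/4) s_e l_e0 + ∑_j s_e s_e^2 lj e j`;
`∑_{e ∉ J} s_e l_e0 = ∑_e s_e^2 - ∑_{e ∈ J} s_e^2 - ∑_j ∑_{e ∉ J} s_e lj e j = R - ∑ γ_j^2 - ∑ w_j γ_j = R - ∑ γ_j`
([RNG], [FLJ], [DSJ] (3)). So `∑ s_e^4 ≤ ∑ γ_j^4 + (R - ∑ γ_j)/4 + ∑_j ∑_{e ≠ j} s_e lj e j s_e^2`.
(2) divide by `R^2` and add [VSM] for `U` divided by `R`. For `j ∈ U` and `e ≠ j`, `lj e j > 0`: `s_e ≤ w` and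
`c_j(s) + s^2/R ≤ c_j(w) + w^2/R = 3/2 - w/γ + w^2/R` (the difference is
`(w - s)(3/(4w) - (w + s)(1/(wγ) - 1/R)) ≥ 0` because `3/(4w) - 2w (1/(wγ) - 1/R) ≥ 0` by the hypothesis and
`wγ ≤ 1 ≤ R`). For `j ∉ U`: `s^2/R ≤ w^2/R`. (3) `∑_{e ≠ j} s_e lj e j = wγ`. The term of `j`:
`γ^4/R^2 - γ/(4R^2) + w^3 γ/R^2 = 3γ(γ-1/2)^2/R^2`, and for `j ∈ U` minus
`(1/R)(γ^2/2 - wγ (3/2 - w/γ)) = (3/R)(γ-1/2)(γ-2/3)`. -/
def St_SQA : Prop := ∀ (V E : Type) [Fintype V] [Fintype E] (N : Nt V E)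
  (ph : V → ℝ) (R g0 : ℝ) (G : V → V → ℝ) (J : Finset E), N.Ok ph R 1 G → 1 ≤ R →
  (∀ e, N.d ph e < 1) → (∀ e, e ∈ J ↔ 1 / 2 < N.d ph e) → 4 / 7 ≤ g0 →
  (∀ γ, g0 ≤ γ → γ < 1 → 2 / γ ≤ 3 / (4 * (1 - γ)) + 2 * (1 - γ) / R) →
  -1 / (4 * R) - ∑ j ∈ J, loss g0 R (N.d ph j) ≤
    3 / R * ∑ e, N.d ph e ^ 2 * G (N.s e) (N.t e) - ∑ e, (N.d ph e ^ 2 / R) ^ 2

/-- [SMA] (0.7 h) the bound for `R ≤ 3/2` in terms of the big squares. Hypotheses: `St_GMP`, `St_SQA`,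
`St_HSM`, `St_DSJ`. `J` = the edges with `s_j > 1/2`.
Proof. (1) [SQA] and `G' ≥ 0` ([GMP]) give `zh ≥ L0 R - ∑ loss`
(`3/2 - (R + 1/R)/2 - 1/(4R) = L0 R`). (2) if moreover `j ∈ J`, `3 R ≤ 4 γ_j`: [HSM] for `N'` (height `1`,
current `R`): `γ^2/2 - (3/2)(R - γ)γ = (γ/2)(4γ - 3R) ≤ 3 ∑ s^2 G' u' v'`; divide by `R`
(`4 (R - γ) ≤ 3γ` follows from `3 R ≤ 4 γ`, `γ ≤ 1 ≤ R`: `4R ≤ 16γ/3 ≤ 7γ`). (3) the inequality for the sum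
of the `γ_j`: [DSJ]. -/
def St_SMA : Prop := ∀ (V V' E : Type) [Fintype V] [Fintype V'] [Fintype E] (N : Nt V E)
  (N' : Nt V' E) (ph : V → ℝ) (x : V' → ℝ) (R g0 : ℝ) (G : V → V → ℝ) (G' : V' → V' → ℝ)
  (J : Finset E), Good V V' E N N' ph x R G G' → (∀ e, e ∈ J ↔ 1 / 2 < N.d ph e) → 4 / 7 ≤ g0 →
  (∀ γ, g0 ≤ γ → γ < 1 → 2 / γ ≤ 3 / (4 * (1 - γ)) + 2 * (1 - γ) / R) →
  ∑ j ∈ J, N.d ph j ≤ R ∧ L0 R - ∑ j ∈ J, loss g0 R (N.d ph j) ≤ zh N N' ph R G G' ∧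
  ∀ j ∈ J, 3 * R ≤ 4 * N.d ph j → L0 R - ∑ j ∈ J, loss g0 R (N.d ph j) +
    gainH R (N.d ph j) ≤ zh N N' ph R G G'

/-- [NMA] (1 h) numerical inequalities for `1 ≤ R ≤ 5/4`. Hypotheses: none.
Proof. (1) `g0 = 69/100`: `3/(4(1-γ)) + 2(1-γ)/R - 2/γ` is increasing in `γ` (or: clear denominators) and
positive at `γ = .69`, `R = 5/4`. (2) `γ ≤ 69/100`, or `γ ≥ 69/100`, `4γ ≤ 3R`. `D = R^2 (L0 R - 11/64) -
R^2 loss`. For `γ < .69`: `R^2 loss = 3γ(γ-1/2)^2 ≤ .0748 ≤ (85/64) R^2 - R^3/2 - (3/4) R` (at `R = 1`: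
`5/64 = .078`; increasing). For `γ ≥ .69`: `D = (85/64) R^2 - R^3/2 - (3/4) R - 3γ(γ-1/2)^2 +
3R(γ-1/2)(γ-2/3)` is increasing in `R` (`∂D/∂R ≥ (85/32)R - (3/2)R^2 - 3/4 > 0`), so it is enough to take
`R = max 1 (4γ/3)`: for `γ ≤ 3/4`, `R = 1`: `5/64 - 3(γ-1/2)(γ^2 - (3/2)γ + 2/3)`, decreasing in `γ`, `0` at
`γ = 3/4` (it is `(3/4 - γ)` times a positive factor); for `γ ≥ 3/4`, `R = 4γ/3`:
`γ (-(5/27)γ^2 + (25/36)γ - 5/12) = γ (5/108)(4γ - 3)(3 - γ) ≥ 0`. (3) `4γ ≥ 3R`: `D + (Rγ/2)(4γ - 3R) ≥ 0`: concave in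
`R` (second derivative `85/32 - 3R - 3γ < 0`), so only `R = 1` and `R = 4γ/3` (there it is `D` of (2)):
`R = 1`: `5/64 - 3(γ-1/2)(γ^2-(3/2)γ+2/3) + 2γ^2 - (3/2)γ ≥ 0` for `3/4 ≤ γ ≤ 1` (`0` at `3/4`, increasing).
(4) two big squares `γ, γ' > 1/2`, `γ + γ' ≤ R ≤ 5/4`: both are `< 3/4`, `loss ≤ 3γ(γ-1/2)^2/R^2` because
for `γ ≥ .69` the second term is `≥ 0`; `γ ≤ R - 1/2`, `(γ-1/2)^2 + (γ'-1/2)^2 ≤ (R-1)^2`: the sum of the losses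
is at most `3(R-1/2)(R-1)^2/R^2 ≤ L0 R - 11/64`. -/
def St_NMA : Prop := ∀ R : ℝ, 1 ≤ R → R ≤ 5 / 4 →
  (∀ γ : ℝ, 69 / 100 ≤ γ → γ < 1 → 2 / γ ≤ 3 / (4 * (1 - γ)) + 2 * (1 - γ) / R) ∧
  11 / 64 ≤ L0 R ∧
  (∀ γ : ℝ, 1 / 2 < γ → γ < 1 → 4 * γ ≤ 3 * R → 11 / 64 ≤ L0 R - loss (69 / 100) R γ) ∧
  (∀ γ : ℝ, 1 / 2 < γ → γ < 1 → 3 * R ≤ 4 * γ →
    11 / 64 ≤ L0 R - loss (69 / 100) R γ + gainH R γ) ∧
  ∀ γ γ' : ℝ, 1 / 2 < γ → 1 / 2 < γ' → γ + γ' ≤ R →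
    11 / 64 ≤ L0 R - (loss (69 / 100) R γ + loss (69 / 100) R γ')

/-- [NMB] (1 h) numerical inequalities for `5/4 ≤ R ≤ 3/2`. Hypotheses: none.
Proof. (1) `g0 = 7/10`: as in [NMA] (1) (at `γ = .7`, `R = 3/2`: `2.9 ≥ 2.857`). Let `g γ = R^2 loss`: `g γ =
3γ(γ-1/2)^2 ≤ .084` for `1/2 < γ < .7` and `g γ = 3γ(γ-1/2)^2 - 3R(γ-1/2)(γ-2/3)` for `γ ≥ .7`;
`M = R^2 (L0 R - 11/64) = (85/64) R^2 - R^3/2 - (3/4) R`, concave in `R`, `M = .161`, `.171`, `.1757` at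
`R = 1.25`, `1.3`, `1.5`. (2) `M ≥ 0`. (3) one square: `γ < .7`: `.084 ≤ M`. `γ ≥ .7`: `g` is linear in `R`, so it is
enough to take `R = 5/4` and `R = 3/2`: `3γ(γ-1/2)^2 - (15/4)(γ-1/2)(γ-2/3) ≤ .125` and
`3γ(γ-1/2)^2 - (9/2)(γ-1/2)(γ-2/3) ≤ .054` on `[.7, 1]`. (4) two squares, wlog `γ' ≤ γ`, so `γ' ≤ R/2 ≤ 3/4`,
`γ ≤ R - 1/2 ≤ 1`. `g γ ≤ .084`, `g γ' ≤ .084`: for `γ ≥ .7` decreasing in `R` for fixed `γ`, so `R = γ + 1/2` (or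
`5/4` for `γ ≤ 3/4`): `3(γ-1/2)(γ(γ-1/2) - (γ+1/2)(γ-2/3)) = 3(γ-1/2)(1/3 - γ/3) ≤ .0625`, for `γ ≤ 3/4`:
`3γ(γ-1/2)^2 - (15/4)(γ-1/2)(γ-2/3) ≤ .084`. If `R ≥ 13/10`: `.168 ≤ M`. If `R ≤ 13/10`: `γ' ≤ .65`,
`g γ' ≤ .0439`, `.084 + .0439 ≤ .161 ≤ M`. -/
def St_NMB : Prop := ∀ R : ℝ, 5 / 4 ≤ R → R ≤ 3 / 2 →
  (∀ γ : ℝ, 7 / 10 ≤ γ → γ < 1 → 2 / γ ≤ 3 / (4 * (1 - γ)) + 2 * (1 - γ) / R) ∧
  11 / 64 ≤ L0 R ∧
  (∀ γ : ℝ, 1 / 2 < γ → γ < 1 → 11 / 64 ≤ L0 R - loss (7 / 10) R γ) ∧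
  ∀ γ γ' : ℝ, 1 / 2 < γ → 1 / 2 < γ' → γ + γ' ≤ R →
    11 / 64 ≤ L0 R - (loss (7 / 10) R γ + loss (7 / 10) R γ')

/-- [FNA] (0.6 h) the result for `R ≤ 3/2`. Hypotheses: `St_SMA`, `St_NMA`, `St_NMB`.
Proof. `J` = the edges with `s_j > 1/2`; `∑ γ_j ≤ R ≤ 3/2`, so `J` has at most two elements. `R ≤ 5/4`:
`J` empty: `L0 R ≥ 11/64`; one element: [NMA] (3), (4); two elements: [NMA] (5). `R ≥ 5/4`: [NMB]. -/
def St_FNA : Prop := ∀ (V V' E : Type) [Fintype V] [Fintype V'] [Fintype E] (N : Nt V E)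
  (N' : Nt V' E) (ph : V → ℝ) (x : V' → ℝ) (R : ℝ) (G : V → V → ℝ) (G' : V' → V' → ℝ),
  Good V V' E N N' ph x R G G' → R ≤ 3 / 2 → 11 / 64 ≤ zh N N' ph R G G'

/-! ## `R ≥ 3/2` -/

/-- [CLS] (1 h) comparison with `Lev` plus strip. Hypotheses: `St_DIR`, `St_RNG`, `St_FLJ`, `St_ENC`.
Proof. `lo = ph (s j)`, `γ = d ph j`, `y1 = ph u`, `y2 = ph v`, [ENC]; `f = K ∘ ph` vanishes at `a`, `b`.
`N.fw 1 f f = (K hi - K lo)^2 + ∑_{e' ≠ j} (K (ph (t e')) - K (ph (s e')))^2 ≤ (K hi - K lo)^2 +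
∑_{e' ≠ j} d ph e' * (Q (ph (t e')) - Q (ph (s e')))`, and the last sum is `(Q R - Q 0) -
γ (Q hi - Q lo)` by `fl` for `Q ∘ ph` (all `e'`, minus the term of `j`; `I = 1`). So `N.fw 1 f f ≤ X := K y1 +
K y2 = f u + f v`. [DIR]: `X^2 ≤ gp * N.fw 1 f f ≤ gp * X`. `X ≥ 0` (`Ps ≥ 0`); if `X = 0` [DIR] (2). -/
def St_CLS : Prop := ∀ (V E : Type) [Fintype E] (N : Nt V E) (ph : V → ℝ) (R : ℝ)
  (G : V → V → ℝ) (e j : E), N.Ok ph R 1 G → 0 < N.d ph j → N.d ph j < 1 →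
  Ps R (ph (N.s e)) (ph (N.t e)) / R +
    Ps (N.d ph j) (N.cj ph j (N.s e)) (N.cj ph j (N.t e)) / (1 - N.d ph j) ≤ N.gp G e

/-- [CPR] (0.8 h) parts of edges in the range of `j`. Hypotheses: `St_RNG`, `St_FLJ`, `St_OVL`.
`γ = d ph j > 1/2`, `s = d ph e`, `l = lj e j`, `P y = 2 γ y^2 - (4/3) y^3`,
`X = P (cj v) - P (cj u) + (s^2/3 - s γ) l`.
Proof. `l = 0`: `cj u = cj v`, `X = 0 ≤ s * Ps`. Inside: `X = s * Ps γ y (y+s)` (ring). Otherwise, by [OVL] (3),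
`P (cj v) - P (cj u) = 2 γ l^2 - (4/3) l^3` and `Ps γ (cj u) (cj v) = l (γ - l)` in both cases, `l < s ≤ 1 - γ < γ`:
`s l (γ - l) - X = l (s - l)(6γ - s - 4l)/3 ≥ 0` (`s + 4 l ≤ 5 s < 6γ`). (2) if `2 l ≤ s`:
`2 γ l - (4/3) l^2 + s^2/3 - s γ ≤ 0`: the left side is `(2 l - s)(...)`: it is increasing in `l ≤ 3γ/4` and `0` at
`l = s/2` (factor: `(l - s/2)(2γ - (4/3) l - (2/3) s)`), and inside `l = s`, so `2 l ≤ s` implies `s = l = 0`. -/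
def St_CPR : Prop := ∀ (V E : Type) [Fintype E] (N : Nt V E) (ph : V → ℝ) (R : ℝ)
  (G : V → V → ℝ) (e j : E), N.Ok ph R 1 G → e ≠ j → 1 / 2 < N.d ph j → N.d ph j < 1 →
  ∀ (P : ℝ → ℝ) (γ X : ℝ), γ = N.d ph j → (∀ y, P y = 2 * γ * y ^ 2 - 4 / 3 * y ^ 3) →
  X = P (N.cj ph j (N.t e)) - P (N.cj ph j (N.s e)) +
    (N.d ph e ^ 2 / 3 - N.d ph e * γ) * N.lj ph e j →
  X ≤ N.d ph e * Ps γ (N.cj ph j (N.s e)) (N.cj ph j (N.t e)) ∧ (2 * N.lj ph e j ≤ N.d ph e → X ≤ 0)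

/-- [CED] (0.8 h) one edge, all strips. Hypotheses: `St_RNG`, `St_FLJ`, `St_OVL`, `St_DSJ`, `St_LVI`, `St_CLS`,
`St_CPR`. `J` = a set of edges with `s_j > 1/2`.
Proof. `∑_{j ∈ J} lj e j ≤ s_e` ([DSJ]), so at most one `j ∈ J`, `j ≠ e`, has `2 lj e j > s_e`. For all other
`j ≠ e` the term is `≤ 0` ([CPR] (2), `1 - γ_j > 0`, `s_e ≥ 0`). If there is such a `j` use [CLS] for it and [CPR] (1),
otherwise [LVI]. -/
def St_CED : Prop := ∀ (V E : Type) [Fintype E] [DecidableEq E] (N : Nt V E) (ph : V → ℝ) (R : ℝ)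
  (G : V → V → ℝ) (e : E) (J : Finset E), N.Ok ph R 1 G →
  (∀ j ∈ J, 1 / 2 < N.d ph j ∧ N.d ph j < 1) → ∀ P : ℝ → ℝ → ℝ,
  (∀ γ y, P γ y = 2 * γ * y ^ 2 - 4 / 3 * y ^ 3) →
  N.d ph e ^ 2 * (Ps R (ph (N.s e)) (ph (N.t e)) / R) + ∑ j ∈ J, (if e = j then 0 else
    N.d ph e * (P (N.d ph j) (N.cj ph j (N.t e)) - P (N.d ph j) (N.cj ph j (N.s e)) +
      (N.d ph e ^ 2 / 3 - N.d ph e * N.d ph j) * N.lj ph e j) / (1 - N.d ph j)) ≤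
  N.d ph e ^ 2 * N.gp G e

/-- [CSM] (1 h) sum over all edges. Hypotheses: `St_RNG`, `St_FLJ`, `St_LVI`, `St_CED`, `St_DSJ`.
`J` = the edges with `s_j > 1/2`, `w_j = 1 - γ_j`.
Proof. `4 G u v = gp - gm`, `4 G' u' v' = gp' - gm'`, `gm + gm' = 1 - s^2/R` (`Dual.tri`), so
`4 s^2 (G + G') = s^2 gp + s^2 gp' - s^2 (1 - s^2/R)`. [CED] for `s^2 gp`, [LVI] for `N'` (height `1`, current
`R`): `Ps 1 (x u') (x v') ≤ R gp'`. With `P_R y = 2 R y^2 - (4/3) y^3`: `s Ps R y (y+s) = P_R (y+s) - P_R y +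
(s^2/3 - s R) s` (ring), `∑ s_e (P_R (ph v) - P_R (ph u)) = P_R R - P_R 0 = (2/3) R^3` (`fl`), in the same way
for `N'`: `∑ s_e (P_1 (x v') - P_1 (x u')) = R (2/3)`. `∑_{e ≠ j} s_e (P_γ (cj v) - P_γ (cj u)) = w (2/3) γ^3`
([FLJ]). `∑ s^2 = R`. So `∑ 4 s^2 (G + G') ≥ (1/R)((2/3)R^3 + ∑ s^2 (s^2/3 - sR)) + (1/R)((2/3) R +
∑ s^2 (s^2/3 - s)) + ∑_j (2/3)γ_j^3 + ∑_j ∑_{e ≠ j} s_e (s_e^2/3 - s_e γ_j) lj / w_j - R + ∑ s^4 / R`.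
Multiply by `3/(4R)` and insert into `zh`; `∑ s^2 (...)` is written as `∑ s_e^2 base(s_e)`,
`base(s) = (3/4)(1 - s)(1 - s/R) - s^2/(2R)` (`∑ s^2 = R`). -/
def St_CSM : Prop := ∀ (V V' E : Type) [Fintype V] [Fintype V'] [Fintype E] [DecidableEq E]
  (N : Nt V E) (N' : Nt V' E) (ph : V → ℝ) (x : V' → ℝ) (R : ℝ) (G : V → V → ℝ)
  (G' : V' → V' → ℝ) (J : Finset E), Good V V' E N N' ph x R G G' →
  (∀ e, e ∈ J ↔ 1 / 2 < N.d ph e) →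
  (∑ e, N.d ph e ^ 2 * (3 / 4 * ((1 - N.d ph e) * (1 - N.d ph e / R)) - N.d ph e ^ 2 / (2 * R)) +
    ∑ j ∈ J, (N.d ph j ^ 3 / 2 - ∑ e, if e = j then 0 else N.d ph e * N.lj ph e j *
      ((3 * N.d ph j * N.d ph e - N.d ph e ^ 2) / (4 * (1 - N.d ph j))))) / R ≤ zh N N' ph R G G'

/-- [FNC] (1 h) the result for `R ≥ 3/2`. Hypotheses: `St_RNG`, `St_FLJ`, `St_OVL`, `St_DSJ`, `St_CSM`.
Proof. `base(s) = (3/4)(1-s)(1-s/R) - s^2/(2R)` is decreasing on `[0, 1]`. `b = base(1/2) = 3/8 - 5/(16R) > 0`.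
For `e ∉ J`: `s_e^2 base(s_e) = s_e l_e0 base(s_e) + ∑_j s_e lj e j base(s_e)`, `l_e0 = s_e - ∑_j lj e j ≥ 0`
([DSJ]), `base(s_e) ≥ b` (`s_e ≤ 1/2`). `∑_{e ∉ J} s_e l_e0 = R - ∑ γ_j` (as in [SQA]). For `j ∈ J`, `e ≠ j`,
`lj e j > 0`: `s_e ≤ w`, `ψ(s) = base(s) - (3γs - s^2)/(4w)` is decreasing on `[0, w]` (`2 s ≤ 2w < 3γ`), so
`∑_{e ≠ j} s_e lj e j ψ(s_e) ≥ wγ ψ(w)`. So `R zh ≥ (R - ∑ γ_j) b + ∑_j γ_j F(γ_j)`,
`F(γ) = γ base(γ) + γ^2/2 + w ψ(w) = (1/4)(1 + γ - (3γ^2 - 3γ + 2)/R)` (ring), and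
`F(γ) - b = (1/4)(γ-1/2)(1 - 3(γ-1/2)/R) ≥ 0` because `3(γ-1/2) ≤ 3/2 ≤ R`. -/
def St_FNC : Prop := ∀ (V V' E : Type) [Fintype V] [Fintype V'] [Fintype E] (N : Nt V E)
  (N' : Nt V' E) (ph : V → ℝ) (x : V' → ℝ) (R : ℝ) (G : V → V → ℝ) (G' : V' → V' → ℝ),
  Good V V' E N N' ph x R G G' → 3 / 2 ≤ R → 3 / 8 - 5 / (16 * R) ≤ zh N N' ph R G G'

/-- [ZFN] (0.1 h) the result of this block. Hypotheses: `St_FNA`, `St_FNC`. -/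
def St_ZFN : Prop := ∀ (V V' E : Type) [Fintype V] [Fintype V'] [Fintype E] (N : Nt V E)
  (N' : Nt V' E) (ph : V → ℝ) (x : V' → ℝ) (R : ℝ) (G : V → V → ℝ) (G' : V' → V' → ℝ),
  Good V V' E N N' ph x R G G' →
  (R ≤ 3 / 2 → 11 / 64 ≤ zh N N' ph R G G') ∧
  (3 / 2 ≤ R → 3 / 8 - 5 / (16 * R) ≤ zh N N' ph R G G')

end ALZ
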