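import Pool.Agent.ALZ.St

/-!
# ALZ, module CED: one edge, all strips
-/

set_option autoImplicit false
set_option linter.unusedVariables false

namespace ALZ

/-- [CED] one edge, all strips -/
theorem thm_CED (hRNG : St_RNG) (hFLJ : St_FLJ) (hOVL : St_OVL) (hDSJ : St_DSJ)
    (hLVI : St_LVI) (hCLS : St_CLS) (hCPR : St_CPR) : St_CED := by
  intro V E _ _ N ph R G e J hok hJ P hP
  have hs0 : 0 ≤ N.d ph e := hok.up e
  set s : ℝ := N.d ph e with hs
  have hR : 0 < R := hok.R0
  -- the properties of the terms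
  have hl0 : ∀ j, 0 ≤ N.lj ph e j := fun j => ((hFLJ V E N ph R 1 G j hok).2.1 e).1
  have hsum : ∑ j ∈ J, N.lj ph e j ≤ s :=
    (hDSJ V E N ph R 1 G J hok (fun j hj => by have := (hJ j hj).1; linarith)).1 e
  have hX : ∀ j ∈ J, e ≠ j →
      (P (N.d ph j) (N.cj ph j (N.t e)) - P (N.d ph j) (N.cj ph j (N.s e)) +
        (s ^ 2 / 3 - s * N.d ph j) * N.lj ph e j) ≤
        s * Ps (N.d ph j) (N.cj ph j (N.s e)) (N.cj ph j (N.t e)) ∧
      (2 * N.lj ph e j ≤ s →
        (P (N.d ph j) (N.cj ph j (N.t e)) - P (N.d ph j) (N.cj ph j (N.s e)) +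
          (s ^ 2 / 3 - s * N.d ph j) * N.lj ph e j) ≤ 0) := fun j hj hej =>
    hCPR V E N ph R G e j hok hej (hJ j hj).1 (hJ j hj).2 (P (N.d ph j)) (N.d ph j) _ rfl
      (hP (N.d ph j)) rfl
  set X : E → ℝ := fun j => P (N.d ph j) (N.cj ph j (N.t e)) -
    P (N.d ph j) (N.cj ph j (N.s e)) + (s ^ 2 / 3 - s * N.d ph j) * N.lj ph e j with hXd
  have hneg : ∀ j ∈ J, 2 * N.lj ph e j ≤ s →
      (if e = j then 0 else s * X j / (1 - N.d ph j)) ≤ 0 := by
    intro j hj h2
    split_ifs with h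
    · exact le_rfl
    · exact div_nonpos_of_nonpos_of_nonneg
        (mul_nonpos_of_nonneg_of_nonpos hs0 ((hX j hj h).2 h2))
        (by have := (hJ j hj).2; linarith)
  change s ^ 2 * (Ps R (ph (N.s e)) (ph (N.t e)) / R) +
    ∑ j ∈ J, (if e = j then 0 else s * X j / (1 - N.d ph j)) ≤ s ^ 2 * N.gp G e
  by_cases hex : ∃ j ∈ J, e ≠ j ∧ s < 2 * N.lj ph e j
  · obtain ⟨j, hj, hej, hlt⟩ := hex
    have hγ := hJ j hj
    have hw : 0 < 1 - N.d ph j := by linarith [hγ.2]
    have h1 : ∑ i ∈ J, (if e = i then 0 else s * X i / (1 - N.d ph i)) ≤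
        s * X j / (1 - N.d ph j) := by
      rw [← Finset.add_sum_erase J _ hj, if_neg hej]
      have h2 : ∑ i ∈ J.erase j, (if e = i then 0 else s * X i / (1 - N.d ph i)) ≤ 0 := by
        refine Finset.sum_nonpos fun i hi => ?_
        have hiJ := Finset.mem_of_mem_erase hi
        refine hneg i hiJ ?_
        have h3 : N.lj ph e j + ∑ i ∈ J.erase j, N.lj ph e i ≤ s := by
          rw [Finset.add_sum_erase J (fun i => N.lj ph e i) hj]
          exact hsum
        have h4 : N.lj ph e i ≤ ∑ i ∈ J.erase j, N.lj ph e i :=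
          Finset.single_le_sum (f := fun i => N.lj ph e i) (fun i _ => hl0 i) hi
        linarith
      linarith
    have h5 : s * X j / (1 - N.d ph j) ≤ s ^ 2 *
        (Ps (N.d ph j) (N.cj ph j (N.s e)) (N.cj ph j (N.t e)) / (1 - N.d ph j)) := by
      rw [← mul_div_assoc]
      refine div_le_div_of_nonneg_right ?_ hw.le
      have h6 := mul_le_mul_of_nonneg_left (hX j hj hej).1 hs0
      rw [pow_two, mul_assoc]
      exact h6
    have h7 := hCLS V E N ph R G e j hok (by linarith [hγ.1]) hγ.2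
    have h8 := mul_le_mul_of_nonneg_left h7 (sq_nonneg s)
    rw [mul_add] at h8
    linarith
  · push Not at hex
    have h1 : ∑ i ∈ J, (if e = i then 0 else s * X i / (1 - N.d ph i)) ≤ 0 := by
      refine Finset.sum_nonpos fun i hi => ?_
      by_cases h : e = i
      · rw [if_pos h]
      · exact hneg i hi (hex i hi h)
    have h2 := hLVI V E N ph R 1 G e hok
    have h3 : Ps R (ph (N.s e)) (ph (N.t e)) / R ≤ N.gp G e := by
      rw [div_le_iff₀ hR]
      linarith
    have h4 := mul_le_mul_of_nonneg_left h3 (sq_nonneg s)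
    linarith

end ALZ
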