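import Pool.Agent.ALZ.St

/-!
# ALZ, module CLS (helper34): comparison with `Lev` plus strip
-/

set_option autoImplicit false

namespace ALZ

theorem thm_CLS (hDIR : St_DIR) (hRNG : St_RNG) (_hFLJ : St_FLJ) (hENC : St_ENC) : St_CLS := by
  intro V E _ N ph R G e j h hj0 hj1
  obtain ⟨hr, -, -⟩ := hRNG V E N ph R 1 G h
  have hdj : ph (N.s j) + N.d ph j = ph (N.t j) := by
    unfold Nt.d
    ring
  have h12 : ph (N.s e) ≤ ph (N.t e) := by
    have h1 := h.up e
    unfold Nt.d at h1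
    linarith
  obtain ⟨K, Q, hK0, hKR, hKv, hKQ, hCS⟩ := hENC R (ph (N.s j)) (N.d ph j) (ph (N.s e))
    (ph (N.t e)) h.R0 (hr _).1 hj0 (by rw [hdj]; exact (hr _).2) hj1 (hr _).1 h12 (hr _).2
  rw [hdj] at hKQ
  -- the left side is the value of the test function
  have hval : Ps R (ph (N.s e)) (ph (N.t e)) / R +
      Ps (N.d ph j) (N.cj ph j (N.s e)) (N.cj ph j (N.t e)) / (1 - N.d ph j) =
      K (ph (N.s e)) + K (ph (N.t e)) := hKv.symm
  rw [hval]
  obtain ⟨f, hf⟩ : ∃ f : V → ℝ, f = fun x => K (ph x) := ⟨_, rfl⟩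
  have hfx : ∀ x, f x = K (ph x) := fun x => by rw [hf]
  have hvan : Van N.In f := by
    intro x hx
    rw [hfx]
    by_cases hxa : x = N.a
    · rw [hxa, h.a0, hK0]
    · by_cases hxb : x = N.b
      · rw [hxb, h.bR, hKR]
      · exact absurd ⟨hxa, hxb⟩ hx
  -- the energy
  have hdf : ∀ e', N.d f e' = K (ph (N.t e')) - K (ph (N.s e')) := by
    intro e'
    unfold Nt.d
    rw [hfx, hfx]
  have hfl := h.fl (fun x => Q (ph x))
  have hterm : ∀ e' : E, 0 ≤ N.d ph e' * N.d (fun x => Q (ph x)) e' -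
      (fun _ : E => (1 : ℝ)) e' * (N.d f e' * N.d f e') := by
    intro e'
    have h1 := h.up e'
    have h2 := hCS (ph (N.s e')) (ph (N.t e')) (hr _).1 (by unfold Nt.d at h1; linarith) (hr _).2
    rw [hdf]
    unfold Nt.d
    nlinarith [h2]
  have hsingle := Finset.single_le_sum (f := fun e' : E => N.d ph e' *
    N.d (fun x => Q (ph x)) e' - (fun _ : E => (1 : ℝ)) e' * (N.d f e' * N.d f e'))
    (fun e' _ => hterm e') (Finset.mem_univ j)
  rw [Finset.sum_sub_distrib, hfl] at hsingle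
  simp only [h.a0, h.bR] at hsingle
  have hE : N.fw (fun _ => 1) f f ≤ K (ph (N.s e)) + K (ph (N.t e)) := by
    refine le_trans ?_ hKQ
    unfold Nt.fw
    have h3 : N.d (fun x => Q (ph x)) j = Q (ph (N.t j)) - Q (ph (N.s j)) := rfl
    rw [h3, hdf j] at hsingle
    nlinarith [hsingle]
  obtain ⟨-, hD2, hD3⟩ := hDIR V E N (fun _ => 1) N.In G (fun _ => zero_le_one) h.gr
  have h4 := hD2 (N.s e) (N.t e)
  have h5 := hD3 f hvan (N.s e) (N.t e)
  rw [hfx, hfx] at h5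
  change _ ≤ G (N.s e) (N.s e) + G (N.t e) (N.t e) + 2 * G (N.s e) (N.t e)
  obtain ⟨X, hX⟩ : ∃ X : ℝ, X = K (ph (N.s e)) + K (ph (N.t e)) := ⟨_, rfl⟩
  rw [← hX] at h5 hE ⊢
  by_cases hX0 : X ≤ 0
  · exact hX0.trans h4
  · rw [not_le] at hX0
    have h6 : X * X ≤ (G (N.s e) (N.s e) + G (N.t e) (N.t e) + 2 * G (N.s e) (N.t e)) * X := by
      calc X * X = X ^ 2 := by ring
        _ ≤ _ := h5
        _ ≤ _ := mul_le_mul_of_nonneg_left hE h4
    exact le_of_mul_le_mul_right h6 hX0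

end ALZ
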