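import Pool.Agent.ALZ.St

/-!
# ALZ, module CPR (helper34): parts of edges in the range of `j`
-/

set_option autoImplicit false

namespace ALZ

theorem thm_CPR (_hRNG : St_RNG) (hFLJ : St_FLJ) (hOVL : St_OVL) : St_CPR := by
  classical
  intro V E _ N ph R G e j h hej hj hj1 P γ X hγ hP hX
  obtain ⟨-, hl, -, hc, -, -, hins⟩ := hFLJ V E N ph R 1 G j h
  obtain ⟨ho1, -, ho3⟩ := hOVL V E N ph R 1 G h
  have hldef : N.lj ph e j = N.cj ph j (N.t e) - N.cj ph j (N.s e) := rfl
  have hs0 : 0 ≤ N.d ph e := h.up e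
  obtain ⟨hl0, hls⟩ := hl e
  rw [← hγ] at hc hj hj1
  rcases hl0.eq_or_lt with hz | hpos
  · -- no overlap
    have h1 : N.cj ph j (N.t e) = N.cj ph j (N.s e) := by linarith
    have h2 : X = 0 := by
      rw [hX, ← hz, h1]
      ring
    rw [h2]
    refine ⟨?_, fun _ => le_rfl⟩
    refine mul_nonneg hs0 ?_
    rw [h1]
    obtain ⟨h3, h4⟩ := hc (N.s e)
    have h5 : 0 ≤ N.cj ph j (N.s e) * (γ - N.cj ph j (N.s e)) :=
      mul_nonneg h3 (by linarith)
    unfold Ps
    linarith
  · by_cases hI : N.Ins ph e j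
    · obtain ⟨h1, h2⟩ := hins e hI
      have h3 : N.lj ph e j = N.d ph e := by
        rw [hldef, h1, h2]
        ring
      have h4 : N.cj ph j (N.t e) = N.cj ph j (N.s e) + N.d ph e := by
        rw [h1, h2]
      refine ⟨le_of_eq ?_, fun h5 => ?_⟩
      · rw [hX, hP, hP, h3, h4]
        unfold Ps
        ring
      · exfalso
        rw [h3] at h5 hpos
        linarith
    · obtain ⟨h1, h2⟩ := ho3 e j hej (by rw [← hγ]; linarith) hpos hI
      have h3 := ho1 e j hej hpos
      rw [← hγ] at h3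
      obtain ⟨l, hl'⟩ : ∃ l, l = N.lj ph e j := ⟨_, rfl⟩
      obtain ⟨s, hs⟩ : ∃ s, s = N.d ph e := ⟨_, rfl⟩
      rw [← hl'] at hX hpos h1 h2 ⊢
      rw [← hs] at hX h1 h3 ⊢
      have hXv : X = l * ((l - s / 2) * (2 * γ - 4 / 3 * l - 2 / 3 * s)) := by
        rcases h2 with ⟨h4, h5⟩ | ⟨h4, h5⟩
        · rw [hX, hP, hP, h4, h5, ← hγ]
          ring
        · rw [hX, hP, hP, h4, h5]
          ring
      have hPs : Ps γ (N.cj ph j (N.s e)) (N.cj ph j (N.t e)) = l * (γ - l) := by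
        unfold Ps
        rcases h2 with ⟨h4, h5⟩ | ⟨h4, h5⟩
        · rw [h4, h5, ← hγ]
          ring
        · rw [h4, h5]
          ring
      constructor
      · rw [hPs, hXv]
        have h6 : 0 ≤ l * ((s - l) * (6 * γ - s - 4 * l)) / 3 := by
          have h7 : 0 ≤ 6 * γ - s - 4 * l := by linarith
          have h8 : 0 ≤ s - l := by linarith
          positivity
        nlinarith [h6]
      · intro h6
        rw [hXv]
        have h7 : 0 ≤ 2 * γ - 4 / 3 * l - 2 / 3 * s := by linarith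
        have h8 : l - s / 2 ≤ 0 := by linarith
        exact mul_nonpos_of_nonneg_of_nonpos hpos.le (mul_nonpos_of_nonpos_of_nonneg h8 h7)

end ALZ
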