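import Pool.Agent.ALZ.St

/-!
# ALZ, module CSM: sum over all edges
-/

set_option autoImplicit false

open Finset

namespace ALZ

/-- the function `P` -/
noncomputable def CSM_P (γ y : ℝ) : ℝ := 2 * γ * y ^ 2 - 4 / 3 * y ^ 3

theorem CSM_id (R y y' : ℝ) : (y' - y) ^ 2 * Ps R y y' =
    (y' - y) * (CSM_P R y' - CSM_P R y) + ((y' - y) ^ 4 / 3 - R * (y' - y) ^ 3) := by
  unfold Ps CSM_P
  ring

/-- sum of the kernels of the whole interval -/
theorem CSM_lev {V E : Type} [Fintype E] {N : Nt V E} {ph : V → ℝ} {R I : ℝ} {G : V → V → ℝ}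
    (h : N.Ok ph R I G) : ∑ e, N.d ph e ^ 2 * Ps R (ph (N.s e)) (ph (N.t e)) =
      I * (2 / 3 * R ^ 3) + ((∑ e, N.d ph e ^ 4) / 3 - R * ∑ e, N.d ph e ^ 3) := by
  have h1 := h.fl fun v => CSM_P R (ph v)
  have h2 : ∀ e, N.d ph e ^ 2 * Ps R (ph (N.s e)) (ph (N.t e)) =
      N.d ph e * N.d (fun v => CSM_P R (ph v)) e +
        (N.d ph e ^ 4 / 3 - R * N.d ph e ^ 3) := fun e => CSM_id R (ph (N.s e)) (ph (N.t e))
  rw [Finset.sum_congr rfl fun e _ => h2 e, Finset.sum_add_distrib, h1, h.a0, h.bR,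
    Finset.sum_sub_distrib, ← Finset.sum_div, ← Finset.mul_sum]
  unfold CSM_P
  ring

theorem thm_CSM (hRNG : St_RNG) (hFLJ : St_FLJ) (hLVI : St_LVI) (hCED : St_CED)
    (_hDSJ : St_DSJ) : St_CSM := by
  intro V V' E _ _ _ _ N N' ph x R G G' J hG hJ
  have hok := hG.dual.ok
  have hok' := hG.dual.ok'
  have hcur := hG.dual.cur
  have htri := hG.dual.tri
  have hR0 : 0 < R := hok.R0
  obtain ⟨_, hsq, _⟩ := hRNG V E N ph R 1 G hok
  rw [one_mul] at hsq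
  -- the sums
  set S3 : ℝ := ∑ e, N.d ph e ^ 3 with hS3
  set S4 : ℝ := ∑ e, N.d ph e ^ 4 with hS4
  set JS : ℝ := ∑ j ∈ J, (N.d ph j ^ 3 / 2 - ∑ e, if e = j then 0 else N.d ph e * N.lj ph e j *
      ((3 * N.d ph j * N.d ph e - N.d ph e ^ 2) / (4 * (1 - N.d ph j)))) with hJS
  -- first network
  have hgp : R⁻¹ * (2 / 3 * R ^ 3 + (S4 / 3 - R * S3)) + 4 / 3 * JS ≤
      ∑ e, N.d ph e ^ 2 * N.gp G e := by
    have h1 := Finset.sum_le_sum fun e (_ : e ∈ (Finset.univ : Finset E)) =>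
      hCED V E N ph R G e J hok (fun j hj => ⟨(hJ j).1 hj, hG.lt1 j⟩) CSM_P fun γ y => rfl
    rw [Finset.sum_add_distrib] at h1
    have h2 : ∑ e, N.d ph e ^ 2 * (Ps R (ph (N.s e)) (ph (N.t e)) / R) =
        R⁻¹ * (2 / 3 * R ^ 3 + (S4 / 3 - R * S3)) := by
      have h3 : ∀ e, N.d ph e ^ 2 * (Ps R (ph (N.s e)) (ph (N.t e)) / R) =
          R⁻¹ * (N.d ph e ^ 2 * Ps R (ph (N.s e)) (ph (N.t e))) := fun e => by ring
      rw [Finset.sum_congr rfl fun e _ => h3 e, ← Finset.mul_sum, CSM_lev hok, one_mul]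
    have h4 : ∑ e, ∑ j ∈ J, (if e = j then 0 else
        N.d ph e * (CSM_P (N.d ph j) (N.cj ph j (N.t e)) - CSM_P (N.d ph j) (N.cj ph j (N.s e)) +
        (N.d ph e ^ 2 / 3 - N.d ph e * N.d ph j) * N.lj ph e j) / (1 - N.d ph j)) =
        4 / 3 * JS := by
      rw [Finset.sum_comm, hJS, Finset.mul_sum]
      refine Finset.sum_congr rfl fun j _ => ?_
      have hw : 0 < 1 - N.d ph j := by linarith [hG.lt1 j]
      have h5 := (hFLJ V E N ph R 1 G j hok).1 (CSM_P (N.d ph j))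
      have h6 : ∀ e, (if e = j then 0 else
        N.d ph e * (CSM_P (N.d ph j) (N.cj ph j (N.t e)) - CSM_P (N.d ph j) (N.cj ph j (N.s e)) +
        (N.d ph e ^ 2 / 3 - N.d ph e * N.d ph j) * N.lj ph e j) / (1 - N.d ph j)) =
        (1 - N.d ph j)⁻¹ * (if e = j then 0 else
          N.d ph e * (CSM_P (N.d ph j) (N.cj ph j (N.t e)) -
            CSM_P (N.d ph j) (N.cj ph j (N.s e)))) -
        4 / 3 * (if e = j then 0 else N.d ph e * N.lj ph e j *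
          ((3 * N.d ph j * N.d ph e - N.d ph e ^ 2) / (4 * (1 - N.d ph j)))) := by
        intro e
        by_cases hej : e = j
        · rw [if_pos hej, if_pos hej, if_pos hej]
          ring
        · rw [if_neg hej, if_neg hej, if_neg hej]
          field_simp
          ring
      rw [Finset.sum_congr rfl fun e _ => h6 e, Finset.sum_sub_distrib, ← Finset.mul_sum,
        ← Finset.mul_sum, h5]
      have h7 : (1 - N.d ph j)⁻¹ * ((1 - N.d ph j) *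
          (CSM_P (N.d ph j) (N.d ph j) - CSM_P (N.d ph j) 0)) = 2 / 3 * N.d ph j ^ 3 := by
        rw [← mul_assoc, inv_mul_cancel₀ hw.ne', one_mul]
        unfold CSM_P
        ring
      rw [h7]
      ring
    rw [h2, h4] at h1
    exact h1
  -- second network
  have hgp' : R⁻¹ * (R * (2 / 3) + (S4 / 3 - S3)) ≤ ∑ e, N.d ph e ^ 2 * N'.gp G' e := by
    have h1 : ∀ e, R⁻¹ * (N'.d x e ^ 2 * Ps 1 (x (N'.s e)) (x (N'.t e))) ≤
        N.d ph e ^ 2 * N'.gp G' e := by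
      intro e
      have h2 := hLVI V' E N' x 1 R G' e hok'
      rw [one_mul] at h2
      have h3 : R⁻¹ * Ps 1 (x (N'.s e)) (x (N'.t e)) ≤ N'.gp G' e := by
        rw [inv_mul_le_iff₀ hR0]
        exact h2
      rw [← hcur e]
      have h4 := mul_le_mul_of_nonneg_left h3 (sq_nonneg (N.d ph e))
      calc R⁻¹ * (N.d ph e ^ 2 * Ps 1 (x (N'.s e)) (x (N'.t e)))
          = N.d ph e ^ 2 * (R⁻¹ * Ps 1 (x (N'.s e)) (x (N'.t e))) := by ring
        _ ≤ N.d ph e ^ 2 * N'.gp G' e := h4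
    have h5 := Finset.sum_le_sum fun e (_ : e ∈ (Finset.univ : Finset E)) => h1 e
    rw [← Finset.mul_sum, CSM_lev hok'] at h5
    have h6 : ∑ e, N'.d x e ^ 4 = S4 := Finset.sum_congr rfl fun e _ => by rw [hcur e]
    have h7 : ∑ e, N'.d x e ^ 3 = S3 := Finset.sum_congr rfl fun e _ => by rw [hcur e]
    rw [h6, h7] at h5
    refine le_trans (le_of_eq ?_) h5
    ring
  -- Green functions
  have hA : 4 * ∑ e, N.d ph e ^ 2 * (G (N.s e) (N.t e) + G' (N'.s e) (N'.t e)) =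
      (∑ e, N.d ph e ^ 2 * N.gp G e) + (∑ e, N.d ph e ^ 2 * N'.gp G' e) - R + R⁻¹ * S4 := by
    have h1 : ∀ e, 4 * (N.d ph e ^ 2 * (G (N.s e) (N.t e) + G' (N'.s e) (N'.t e))) =
        N.d ph e ^ 2 * N.gp G e + N.d ph e ^ 2 * N'.gp G' e - N.d ph e ^ 2 +
          R⁻¹ * N.d ph e ^ 4 := by
      intro e
      have h2 := htri e
      have h3 : N.gm G e + N'.gm G' e = 1 - N.d ph e ^ 2 / R := by linarith
      have h4 : 4 * (G (N.s e) (N.t e) + G' (N'.s e) (N'.t e)) =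
          N.gp G e + N'.gp G' e - (N.gm G e + N'.gm G' e) := by
        unfold Nt.gp Nt.gm
        ring
      calc 4 * (N.d ph e ^ 2 * (G (N.s e) (N.t e) + G' (N'.s e) (N'.t e)))
          = N.d ph e ^ 2 * (4 * (G (N.s e) (N.t e) + G' (N'.s e) (N'.t e))) := by ring
        _ = N.d ph e ^ 2 * (N.gp G e + N'.gp G' e - (1 - N.d ph e ^ 2 / R)) := by rw [h4, h3]
        _ = _ := by ring
    rw [Finset.mul_sum, Finset.sum_congr rfl fun e _ => h1 e, Finset.sum_add_distrib,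
      Finset.sum_sub_distrib, Finset.sum_add_distrib, ← Finset.mul_sum, hsq]
  -- conclusion
  have hbase : ∑ e, N.d ph e ^ 2 * (3 / 4 * ((1 - N.d ph e) * (1 - N.d ph e / R)) -
      N.d ph e ^ 2 / (2 * R)) = 3 / 4 * R - 3 / 4 * (1 + R⁻¹) * S3 + R⁻¹ / 4 * S4 := by
    have h1 : ∀ e, N.d ph e ^ 2 * (3 / 4 * ((1 - N.d ph e) * (1 - N.d ph e / R)) -
        N.d ph e ^ 2 / (2 * R)) = 3 / 4 * N.d ph e ^ 2 - 3 / 4 * (1 + R⁻¹) * N.d ph e ^ 3 +
          R⁻¹ / 4 * N.d ph e ^ 4 := by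
      intro e
      field_simp
      ring
    rw [Finset.sum_congr rfl fun e _ => h1 e, Finset.sum_add_distrib, Finset.sum_sub_distrib,
      ← Finset.mul_sum, ← Finset.mul_sum, ← Finset.mul_sum, hsq]
  have hz : zh N N' ph R G G' = 3 / 2 - (R + 1 / R) / 2 - R⁻¹ ^ 2 * S4 +
      3 / 4 * R⁻¹ * (4 * ∑ e, N.d ph e ^ 2 * (G (N.s e) (N.t e) + G' (N'.s e) (N'.t e))) := by
    have h1 : ∑ e, (N.d ph e ^ 2 / R) ^ 2 = R⁻¹ ^ 2 * S4 := by
      rw [hS4, Finset.mul_sum]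
      exact Finset.sum_congr rfl fun e _ => by ring
    have h2 : ∑ e, N.d ph e ^ 2 / R * (G (N.s e) (N.t e) + G' (N'.s e) (N'.t e)) =
        R⁻¹ * ∑ e, N.d ph e ^ 2 * (G (N.s e) (N.t e) + G' (N'.s e) (N'.t e)) := by
      rw [Finset.mul_sum]
      exact Finset.sum_congr rfl fun e _ => by ring
    unfold zh
    rw [h1, h2]
    ring
  have hq : 0 ≤ 3 / 4 * R⁻¹ := by positivity
  have hfin := mul_le_mul_of_nonneg_left (add_le_add hgp hgp') hq
  rw [hbase, hz, hA]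
  have e1 : 3 / 4 * R⁻¹ * ((∑ e, N.d ph e ^ 2 * N.gp G e) + (∑ e, N.d ph e ^ 2 * N'.gp G' e) -
      R + R⁻¹ * S4) = 3 / 4 * R⁻¹ * ((∑ e, N.d ph e ^ 2 * N.gp G e) +
      (∑ e, N.d ph e ^ 2 * N'.gp G' e)) - 3 / 4 + 3 / 4 * R⁻¹ ^ 2 * S4 := by
    field_simp
  have e2 : (3 / 4 * R - 3 / 4 * (1 + R⁻¹) * S3 + R⁻¹ / 4 * S4 + JS) / R =
      3 / 2 - (R + 1 / R) / 2 - R⁻¹ ^ 2 * S4 + (3 / 4 * R⁻¹ *
      (R⁻¹ * (2 / 3 * R ^ 3 + (S4 / 3 - R * S3)) + 4 / 3 * JS +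
        R⁻¹ * (R * (2 / 3) + (S4 / 3 - S3))) - 3 / 4 + 3 / 4 * R⁻¹ ^ 2 * S4) := by
    field_simp
    ring
  rw [e1, e2]
  linarith

end ALZ
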