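import Pool.Agent.ALZ.St

/-!
# [DIR] symmetry of the Green function and Dirichlet's principle
-/

set_option autoImplicit false

namespace ALZ

section

variable {V E : Type} [Fintype E]

theorem DIR_symm (N : Nt V E) (c : E → ℝ) (f g : V → ℝ) : N.fw c f g = N.fw c g f := by
  unfold Nt.fw
  refine Finset.sum_congr rfl fun e _ => ?_
  ring

theorem DIR_fw_add (N : Nt V E) (c : E → ℝ) (f g h : V → ℝ) :
    N.fw c (fun z => f z + g z) h = N.fw c f h + N.fw c g h := by
  unfold Nt.fw Nt.d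
  rw [← Finset.sum_add_distrib]
  refine Finset.sum_congr rfl fun e _ => ?_
  ring

theorem DIR_nonneg (N : Nt V E) (c : E → ℝ) (hc : ∀ e, 0 ≤ c e) (f : V → ℝ) :
    0 ≤ N.fw c f f :=
  Finset.sum_nonneg fun e _ => mul_nonneg (hc e) (mul_self_nonneg _)

/-- the reproducing property, also outside of `W` -/
theorem DIR_rep {N : Nt V E} {c : E → ℝ} {W : Set V} {G : V → V → ℝ} (hG : N.Gr c W G) (x : V)
    (h : V → ℝ) (hh : Van W h) : N.fw c (G x) h = h x := by
  by_cases hx : x ∈ W
  · exact hG.rep x hx h hh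
  · rw [hh x hx]
    unfold Nt.fw Nt.d
    refine Finset.sum_eq_zero fun e _ => ?_
    rw [hG.out x hx, hG.out x hx]
    ring

theorem DIR_sym {N : Nt V E} {c : E → ℝ} {W : Set V} {G : V → V → ℝ} (hG : N.Gr c W G)
    (x y : V) : G x y = G y x := by
  have h1 := DIR_rep hG y (G x) (hG.van x)
  have h2 := DIR_rep hG x (G y) (hG.van y)
  rw [← h1, ← h2, DIR_symm]

theorem DIR_cs (N : Nt V E) (c : E → ℝ) (hc : ∀ e, 0 ≤ c e) (f g : V → ℝ) :
    (N.fw c f g) ^ 2 ≤ N.fw c f f * N.fw c g g := by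
  have h := Finset.sum_mul_sq_le_sq_mul_sq Finset.univ (fun e => √(c e) * N.d f e)
    (fun e => √(c e) * N.d g e)
  have h1 : ∀ a b : V → ℝ, N.fw c a b = ∑ e, (√(c e) * N.d a e) * (√(c e) * N.d b e) := by
    intro a b
    unfold Nt.fw
    refine Finset.sum_congr rfl fun e _ => ?_
    have h2 := Real.mul_self_sqrt (hc e)
    calc c e * (N.d a e * N.d b e) = (√(c e) * √(c e)) * (N.d a e * N.d b e) := by rw [h2]
      _ = _ := by ring
  have h3 : ∀ a : V → ℝ, N.fw c a a = ∑ e, (√(c e) * N.d a e) ^ 2 := by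
    intro a
    rw [h1 a a]
    refine Finset.sum_congr rfl fun e _ => ?_
    ring
  rw [h1 f g, h3 f, h3 g]
  exact h

end

theorem thm_DIR : St_DIR := by
  intro V E _ N c W G hc hG
  have key : ∀ x y : V, ∀ f : V → ℝ, Van W f → N.fw c (fun z => G x z + G y z) f = f x + f y := by
    intro x y f hf
    rw [DIR_fw_add, DIR_rep hG x f hf, DIR_rep hG y f hf]
  have hvan : ∀ x y : V, Van W (fun z => G x z + G y z) := by
    intro x y z hz
    change G x z + G y z = 0
    rw [hG.van x z hz, hG.van y z hz, add_zero]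
  have hself : ∀ x y : V, N.fw c (fun z => G x z + G y z) (fun z => G x z + G y z) =
      G x x + G y y + 2 * G x y := by
    intro x y
    rw [key x y _ (hvan x y), DIR_sym hG y x]
    ring
  refine ⟨DIR_sym hG, fun x y => ?_, fun f hf x y => ?_⟩
  · rw [← hself x y]
    exact DIR_nonneg N c hc _
  · rw [← hself x y, ← key x y f hf]
    exact DIR_cs N c hc _ _

end ALZ
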