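import Pool.Agent.ALZ.St

/-!
# ALZ: big edges have disjoint ranges
-/

set_option autoImplicit false

open MeasureTheory

namespace ALZ

theorem DSJ_cl (lo γ α β : ℝ) (hγ : 0 ≤ γ) (h : α ≤ β) :
    cl lo γ β - cl lo γ α = volume.real (Set.Ioc α β ∩ Set.Ioc lo (lo + γ)) := by
  rw [Set.Ioc_inter_Ioc, Real.volume_real_Ioc]
  unfold cl
  rcases max_cases α lo with ⟨h1, _⟩ | ⟨h1, _⟩ <;> rcases min_cases β (lo + γ) with ⟨h2, _⟩ | ⟨h2, _⟩ <;>
  rcases min_cases γ (β - lo) with ⟨h3, _⟩ | ⟨h3, _⟩ <;>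
  rcases min_cases γ (α - lo) with ⟨h4, _⟩ | ⟨h4, _⟩ <;>
  simp only [h1, h2, h3, h4] <;>
  simp only [max_def] <;> split_ifs <;> linarith

theorem DSJ_sum {E : Type} (J : Finset E) (lo γ : E → ℝ) (hγ : ∀ j ∈ J, 0 < γ j)
    (hd : ∀ i ∈ J, ∀ j ∈ J, i ≠ j → cl (lo j) (γ j) (lo i + γ i) - cl (lo j) (γ j) (lo i) = 0)
    (α β : ℝ) (h : α ≤ β) : ∑ j ∈ J, (cl (lo j) (γ j) β - cl (lo j) (γ j) α) ≤ β - α := by
  classical
  have e1 : ∑ j ∈ J, (cl (lo j) (γ j) β - cl (lo j) (γ j) α) =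
      ∑ j ∈ J, volume.real (Set.Ioc α β ∩ Set.Ioc (lo j) (lo j + γ j)) :=
    Finset.sum_congr rfl fun j hj => DSJ_cl _ _ _ _ (hγ j hj).le h
  have hdis : ∀ i ∈ J, ∀ j ∈ J, i ≠ j →
      Disjoint (Set.Ioc (lo i) (lo i + γ i)) (Set.Ioc (lo j) (lo j + γ j)) := by
    intro i hi j hj hij
    have h1 := hd i hi j hj hij
    have hi0 := hγ i hi
    have hj0 := hγ j hj
    rw [DSJ_cl _ _ _ _ hj0.le (by linarith), Set.Ioc_inter_Ioc, Real.volume_real_Ioc] at h1
    rw [Set.disjoint_iff_inter_eq_empty, Set.Ioc_inter_Ioc]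
    refine Set.Ioc_eq_empty ?_
    have h2 := le_max_left (min (lo i + γ i) (lo j + γ j) - max (lo i) (lo j)) 0
    rw [h1] at h2
    exact not_lt.2 (by linarith)
  have e2 : ∑ j ∈ J, volume.real (Set.Ioc α β ∩ Set.Ioc (lo j) (lo j + γ j)) =
      volume.real (⋃ j ∈ J, (Set.Ioc α β ∩ Set.Ioc (lo j) (lo j + γ j))) := by
    refine (measureReal_biUnion_finset ?_ ?_ ?_).symm
    · intro i hi j hj hij
      exact (hdis i hi j hj hij).mono Set.inter_subset_right Set.inter_subset_right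
    · intro j _
      exact measurableSet_Ioc.inter measurableSet_Ioc
    · intro j _
      exact ne_top_of_le_ne_top (by simp) (measure_mono (Set.inter_subset_left :
        Set.Ioc α β ∩ Set.Ioc (lo j) (lo j + γ j) ⊆ Set.Ioc α β))
  rw [e1, e2]
  have h3 : volume.real (⋃ j ∈ J, (Set.Ioc α β ∩ Set.Ioc (lo j) (lo j + γ j))) ≤
      volume.real (Set.Ioc α β) := by
    refine measureReal_mono (Set.iUnion₂_subset fun j _ => Set.inter_subset_left) ?_
    simp
  rw [Real.volume_real_Ioc, max_eq_left (by linarith)] at h3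
  exact h3

/-- [DSJ] -/
theorem thm_DSJ (_hRNG : St_RNG) (hFLJ : St_FLJ) (hOVL : St_OVL) : St_DSJ := by
  intro V E _ N ph R I G J hN hJ
  classical
  have hF := fun j => hFLJ V E N ph R I G j hN
  obtain ⟨hO, -, -⟩ := hOVL V E N ph R I G hN
  have h3 : ∀ e ∈ J, ∀ j ∈ J, e ≠ j → N.lj ph e j = 0 := by
    intro e he j hj hej
    refine le_antisymm (not_lt.1 fun h => ?_) ((hF j).2.1 e).1
    have h1 := hO e j hej h
    have h2 := hJ e he
    have h4 := hJ j hj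
    linarith
  have hγ : ∀ j ∈ J, 0 < N.d ph j := by
    intro j hj
    have := hJ j hj
    have := hN.I0
    linarith
  have hd : ∀ i ∈ J, ∀ j ∈ J, i ≠ j → cl (ph (N.s j)) (N.d ph j) (ph (N.s i) + N.d ph i) -
      cl (ph (N.s j)) (N.d ph j) (ph (N.s i)) = 0 := by
    intro i hi j hj hij
    have h := h3 i hi j hj hij
    have e : ph (N.s i) + N.d ph i = ph (N.t i) := by
      unfold Nt.d
      ring
    rw [e]
    exact h
  refine ⟨fun e => ?_, ?_, h3⟩
  · have h := DSJ_sum J (fun j => ph (N.s j)) (fun j => N.d ph j) hγ hd (ph (N.s e)) (ph (N.t e))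
      (sub_nonneg.1 (hN.up e))
    exact h
  · have h := DSJ_sum J (fun j => ph (N.s j)) (fun j => N.d ph j) hγ hd (ph N.a) (ph N.b)
      (by rw [hN.a0, hN.bR]; exact hN.R0.le)
    rw [hN.a0, hN.bR, sub_zero] at h
    refine le_trans (le_of_eq (Finset.sum_congr rfl fun j _ => ?_)) h
    have h1 : cl (ph (N.s j)) (N.d ph j) R = N.d ph j := by
      rw [← hN.bR]
      exact (hF j).2.2.2.2.2.1
    have h2 : cl (ph (N.s j)) (N.d ph j) 0 = 0 := by
      have h4 := (hF j).2.2.2.2.1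
      unfold Nt.cj at h4
      rwa [hN.a0] at h4
    rw [h1, h2, sub_zero]

end ALZ
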