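import Pool.Agent.ALZ.St

/-!
# ALZ, module ENC: the piecewise linear test function (helper55)
-/

set_option autoImplicit false

namespace ALZ

theorem ENC_mono {z z' α β : ℝ} (hz : z ≤ z') (h : α ≤ β) :
    0 ≤ (min β z' - min β z) - (min α z' - min α z) := by
  simp only [min_def]
  split_ifs <;> linarith

theorem ENC_mono1 {z α β : ℝ} (h : α ≤ β) : 0 ≤ min β z - min α z := by
  simp only [min_def]
  split_ifs <;> linarith

theorem ENC_mono5 {z α β : ℝ} (h : α ≤ β) : 0 ≤ (β - min β z) - (α - min α z) := by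
  simp only [min_def]
  split_ifs <;> linarith

/-- Cauchy-Schwarz for five pieces -/
theorem ENC_cs (m1 m2 m3 m4 m5 a b c d e : ℝ) (ha : 0 ≤ a) (hb : 0 ≤ b) (hc : 0 ≤ c)
    (hd : 0 ≤ d) (he : 0 ≤ e) :
    (m1 * a + m2 * b + m3 * c + m4 * d + m5 * e) ^ 2 ≤
      (a + b + c + d + e) * (m1 ^ 2 * a + m2 ^ 2 * b + m3 ^ 2 * c + m4 ^ 2 * d + m5 ^ 2 * e) := by
  have h12 := mul_nonneg (mul_nonneg ha hb) (sq_nonneg (m1 - m2))
  have h13 := mul_nonneg (mul_nonneg ha hc) (sq_nonneg (m1 - m3))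
  have h14 := mul_nonneg (mul_nonneg ha hd) (sq_nonneg (m1 - m4))
  have h15 := mul_nonneg (mul_nonneg ha he) (sq_nonneg (m1 - m5))
  have h23 := mul_nonneg (mul_nonneg hb hc) (sq_nonneg (m2 - m3))
  have h24 := mul_nonneg (mul_nonneg hb hd) (sq_nonneg (m2 - m4))
  have h25 := mul_nonneg (mul_nonneg hb he) (sq_nonneg (m2 - m5))
  have h34 := mul_nonneg (mul_nonneg hc hd) (sq_nonneg (m3 - m4))
  have h35 := mul_nonneg (mul_nonneg hc he) (sq_nonneg (m3 - m5))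
  have h45 := mul_nonneg (mul_nonneg hd he) (sq_nonneg (m4 - m5))
  have key : (a + b + c + d + e) *
      (m1 ^ 2 * a + m2 ^ 2 * b + m3 ^ 2 * c + m4 ^ 2 * d + m5 ^ 2 * e) -
      (m1 * a + m2 * b + m3 * c + m4 * d + m5 * e) ^ 2 =
      a * b * (m1 - m2) ^ 2 + a * c * (m1 - m3) ^ 2 + a * d * (m1 - m4) ^ 2 +
      a * e * (m1 - m5) ^ 2 + b * c * (m2 - m3) ^ 2 + b * d * (m2 - m4) ^ 2 +
      b * e * (m2 - m5) ^ 2 + c * d * (m3 - m4) ^ 2 + c * e * (m3 - m5) ^ 2 +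
      d * e * (m4 - m5) ^ 2 := by ring
  linarith

/-- piecewise linear functions with four break points -/
theorem ENC_pw (R z1 z2 z3 z4 m1 m2 m3 m4 m5 : ℝ) (h0 : 0 ≤ z1) (h1 : z1 ≤ z2) (h2 : z2 ≤ z3)
    (h3 : z3 ≤ z4) (h4 : z4 ≤ R) :
    ∃ K Q : ℝ → ℝ, K 0 = 0 ∧ K z1 = m1 * z1 ∧ K z2 = m1 * z1 + m2 * (z2 - z1) ∧
      K z3 = m1 * z1 + m2 * (z2 - z1) + m3 * (z3 - z2) ∧
      K z4 = m1 * z1 + m2 * (z2 - z1) + m3 * (z3 - z2) + m4 * (z4 - z3) ∧
      K R = m1 * z1 + m2 * (z2 - z1) + m3 * (z3 - z2) + m4 * (z4 - z3) + m5 * (R - z4) ∧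
      Q 0 = 0 ∧ Q z1 = m1 ^ 2 * z1 ∧ Q z2 = m1 ^ 2 * z1 + m2 ^ 2 * (z2 - z1) ∧
      Q z3 = m1 ^ 2 * z1 + m2 ^ 2 * (z2 - z1) + m3 ^ 2 * (z3 - z2) ∧
      Q z4 = m1 ^ 2 * z1 + m2 ^ 2 * (z2 - z1) + m3 ^ 2 * (z3 - z2) + m4 ^ 2 * (z4 - z3) ∧
      Q R = m1 ^ 2 * z1 + m2 ^ 2 * (z2 - z1) + m3 ^ 2 * (z3 - z2) + m4 ^ 2 * (z4 - z3) +
        m5 ^ 2 * (R - z4) ∧
      ∀ α β, α ≤ β → (K β - K α) ^ 2 ≤ (β - α) * (Q β - Q α) := by
  have gen : ∀ n1 n2 n3 n4 n5 : ℝ, ∀ F : ℝ → ℝ, (∀ y, F y = n1 * min y z1 +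
      n2 * (min y z2 - min y z1) + n3 * (min y z3 - min y z2) + n4 * (min y z4 - min y z3) +
      n5 * (y - min y z4)) →
      F 0 = 0 ∧ F z1 = n1 * z1 ∧ F z2 = n1 * z1 + n2 * (z2 - z1) ∧
      F z3 = n1 * z1 + n2 * (z2 - z1) + n3 * (z3 - z2) ∧
      F z4 = n1 * z1 + n2 * (z2 - z1) + n3 * (z3 - z2) + n4 * (z4 - z3) ∧
      F R = n1 * z1 + n2 * (z2 - z1) + n3 * (z3 - z2) + n4 * (z4 - z3) + n5 * (R - z4) := by
    intro n1 n2 n3 n4 n5 F hF
    refine ⟨?_, ?_, ?_, ?_, ?_, ?_⟩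
    · rw [hF, min_eq_left h0, min_eq_left (by linarith : (0 : ℝ) ≤ z2),
        min_eq_left (by linarith : (0 : ℝ) ≤ z3), min_eq_left (by linarith : (0 : ℝ) ≤ z4)]
      ring
    · rw [hF, min_self, min_eq_left h1, min_eq_left (by linarith : z1 ≤ z3),
        min_eq_left (by linarith : z1 ≤ z4)]
      ring
    · rw [hF, min_eq_right h1, min_self, min_eq_left h2, min_eq_left (by linarith : z2 ≤ z4)]
      ring
    · rw [hF, min_eq_right (by linarith : z1 ≤ z3), min_eq_right h2, min_self, min_eq_left h3]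
      ring
    · rw [hF, min_eq_right (by linarith : z1 ≤ z4), min_eq_right (by linarith : z2 ≤ z4),
        min_eq_right h3, min_self]
      ring
    · rw [hF, min_eq_right (by linarith : z1 ≤ R), min_eq_right (by linarith : z2 ≤ R),
        min_eq_right (by linarith : z3 ≤ R), min_eq_right h4]
  obtain ⟨K, hK⟩ : ∃ K : ℝ → ℝ, ∀ y, K y = m1 * min y z1 +
      m2 * (min y z2 - min y z1) + m3 * (min y z3 - min y z2) + m4 * (min y z4 - min y z3) +
      m5 * (y - min y z4) := ⟨_, fun _ => rfl⟩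
  obtain ⟨Q, hQ⟩ : ∃ Q : ℝ → ℝ, ∀ y, Q y = m1 ^ 2 * min y z1 +
      m2 ^ 2 * (min y z2 - min y z1) + m3 ^ 2 * (min y z3 - min y z2) +
      m4 ^ 2 * (min y z4 - min y z3) + m5 ^ 2 * (y - min y z4) := ⟨_, fun _ => rfl⟩
  obtain ⟨k0, k1, k2, k3, k4, k5⟩ := gen m1 m2 m3 m4 m5 K hK
  obtain ⟨q0, q1, q2, q3, q4, q5⟩ := gen (m1 ^ 2) (m2 ^ 2) (m3 ^ 2) (m4 ^ 2) (m5 ^ 2) Q hQ
  refine ⟨K, Q, k0, k1, k2, k3, k4, k5, q0, q1, q2, q3, q4, q5, fun α β hαβ => ?_⟩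
  have d1 := ENC_mono1 (z := z1) hαβ
  have d2 := ENC_mono h1 hαβ
  have d3 := ENC_mono h2 hαβ
  have d4 := ENC_mono h3 hαβ
  have d5 := ENC_mono5 (z := z4) hαβ
  have h := ENC_cs m1 m2 m3 m4 m5 _ _ _ _ _ d1 d2 d3 d4 d5
  have e1 : K β - K α = m1 * (min β z1 - min α z1) +
      m2 * ((min β z2 - min β z1) - (min α z2 - min α z1)) +
      m3 * ((min β z3 - min β z2) - (min α z3 - min α z2)) +
      m4 * ((min β z4 - min β z3) - (min α z4 - min α z3)) +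
      m5 * ((β - min β z4) - (α - min α z4)) := by
    rw [hK, hK]; ring
  have e2 : Q β - Q α = m1 ^ 2 * (min β z1 - min α z1) +
      m2 ^ 2 * ((min β z2 - min β z1) - (min α z2 - min α z1)) +
      m3 ^ 2 * ((min β z3 - min β z2) - (min α z3 - min α z2)) +
      m4 ^ 2 * ((min β z4 - min β z3) - (min α z4 - min α z3)) +
      m5 ^ 2 * ((β - min β z4) - (α - min α z4)) := by
    rw [hQ, hQ]; ring
  have e3 : β - α = (min β z1 - min α z1) +
      ((min β z2 - min β z1) - (min α z2 - min α z1)) +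
      ((min β z3 - min β z2) - (min α z3 - min α z2)) +
      ((min β z4 - min β z3) - (min α z4 - min α z3)) +
      ((β - min β z4) - (α - min α z4)) := by ring
  rw [e1, e2, e3]
  exact h

theorem ENC_cl0 {lo γ y : ℝ} (h : y ≤ lo) : cl lo γ y = 0 := by
  unfold cl
  exact max_eq_left (le_trans (min_le_right _ _) (by linarith))

theorem ENC_cl1 {lo γ y : ℝ} (h : lo + γ ≤ y) (hγ : 0 ≤ γ) : cl lo γ y = γ := by
  unfold cl
  rw [min_eq_left (by linarith)]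
  exact max_eq_right hγ

theorem ENC_clm {lo γ y : ℝ} (h : lo ≤ y) (h' : y ≤ lo + γ) : cl lo γ y = y - lo := by
  unfold cl
  rw [min_eq_right (by linarith)]
  exact max_eq_right (by linarith)

theorem thm_ENC (hT : St_TNT) : St_ENC := by
  intro R lo γ y1 y2 hR hlo hγ hhi hγ1 hy1 hy12 hy2
  have hw : 1 - γ ≠ 0 := by linarith
  have hR' : R ≠ 0 := hR.ne'
  -- the case without a strip
  have case0 : Ps γ (cl lo γ y1) (cl lo γ y2) = 0 → ∃ K Q : ℝ → ℝ, K 0 = 0 ∧ K R = 0 ∧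
      K y1 + K y2 = Ps R y1 y2 / R + Ps γ (cl lo γ y1) (cl lo γ y2) / (1 - γ) ∧
      (K (lo + γ) - K lo) ^ 2 + (Q R - Q 0) - γ * (Q (lo + γ) - Q lo) ≤ K y1 + K y2 ∧
      ∀ α β, 0 ≤ α → α ≤ β → β ≤ R → (K β - K α) ^ 2 ≤ (β - α) * (Q β - Q α) := by
    intro hP
    obtain ⟨k, q, k0, kR, kv, qv, hkq⟩ := hT R y1 y2 hy1 hy12 hy2
    have hcs : ∀ α β, 0 ≤ α → α ≤ β → β ≤ R →
        (k β / R - k α / R) ^ 2 ≤ (β - α) * (q β / R ^ 2 - q α / R ^ 2) := by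
      intro α β h1 h2 h3
      have h := hkq α β h1 h2 h3
      have e1 : (k β / R - k α / R) ^ 2 = (k β - k α) ^ 2 / R ^ 2 := by
        field_simp
      have e2 : (β - α) * (q β / R ^ 2 - q α / R ^ 2) = (β - α) * (q β - q α) / R ^ 2 := by
        field_simp
      rw [e1, e2]
      exact div_le_div_of_nonneg_right h (by positivity)
    refine ⟨fun y => k y / R, fun y => q y / R ^ 2, ?_, ?_, ?_, ?_, ?_⟩
    · show k 0 / R = 0
      rw [k0, zero_div]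
    · show k R / R = 0
      rw [kR, zero_div]
    · show k y1 / R + k y2 / R = _
      rw [hP, zero_div, add_zero, ← kv]
      ring
    · show (k (lo + γ) / R - k lo / R) ^ 2 + (q R / R ^ 2 - q 0 / R ^ 2) -
        γ * (q (lo + γ) / R ^ 2 - q lo / R ^ 2) ≤ k y1 / R + k y2 / R
      have h1 := hcs lo (lo + γ) hlo (by linarith) hhi
      have h2 : q R / R ^ 2 - q 0 / R ^ 2 = k y1 / R + k y2 / R := by
        have h3 : q R / R ^ 2 - q 0 / R ^ 2 = (q R - q 0) / R ^ 2 := by ring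
        rw [h3, qv, ← kv]
        field_simp
      have h4 : lo + γ - lo = γ := by ring
      rw [h4] at h1
      linarith
    · exact hcs
  rcases le_total y2 lo with hA | hA
  · apply case0
    rw [ENC_cl0 hA, ENC_cl0 (le_trans hy12 hA)]
    unfold Ps
    ring
  rcases le_total (lo + γ) y1 with hB | hB
  · apply case0
    rw [ENC_cl1 hB hγ.le, ENC_cl1 (le_trans hB hy12) hγ.le]
    unfold Ps
    ring
  rcases le_total y1 lo with hC | hC
  · rcases le_total (lo + γ) y2 with hD | hD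
    · apply case0
      rw [ENC_cl0 hC, ENC_cl1 hD hγ.le]
      unfold Ps
      ring
    · -- y1 ≤ lo ≤ y2 ≤ hi
      rw [ENC_cl0 hC, ENC_clm hA hD]
      obtain ⟨K, Q, k0, k1, k2, k3, k4, k5, q0, q1, q2, q3, q4, q5, hcs⟩ :=
        ENC_pw R y1 lo y2 (lo + γ) ((2 * R - y1 - y2) / R) ((R - y1 - y2) / R)
          ((R - y1 - y2) / R + (γ - (y2 - lo)) / (1 - γ))
          (-(y1 + y2) / R - (y2 - lo) / (1 - γ)) (-(y1 + y2) / R) hy1 hC hA hD hhi
      refine ⟨K, Q, k0, ?_, ?_, ?_, fun α β _ h2 _ => hcs α β h2⟩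
      · rw [k5]
        field_simp
        ring
      · rw [k1, k3]
        unfold Ps
        field_simp
        ring
      · rw [k1, k2, k3, k4, q0, q2, q4, q5]
        apply le_of_eq
        field_simp
        ring
  · rcases le_total (lo + γ) y2 with hD | hD
    · -- lo ≤ y1 ≤ hi ≤ y2
      rw [ENC_clm hC hB, ENC_cl1 hD hγ.le]
      obtain ⟨K, Q, k0, k1, k2, k3, k4, k5, q0, q1, q2, q3, q4, q5, hcs⟩ :=
        ENC_pw R lo y1 (lo + γ) y2 ((2 * R - y1 - y2) / R)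
          ((2 * R - y1 - y2) / R + (γ - (y1 - lo)) / (1 - γ))
          ((R - y1 - y2) / R - (y1 - lo) / (1 - γ))
          ((R - y1 - y2) / R) (-(y1 + y2) / R) hlo hC hB hD hy2
      refine ⟨K, Q, k0, ?_, ?_, ?_, fun α β _ h2 _ => hcs α β h2⟩
      · rw [k5]
        field_simp
        ring
      · rw [k2, k4]
        unfold Ps
        field_simp
        ring
      · rw [k1, k2, k3, k4, q0, q1, q3, q5]
        apply le_of_eq
        field_simp
        ring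
    · -- lo ≤ y1 ≤ y2 ≤ hi
      rw [ENC_clm hC hB, ENC_clm hA hD]
      obtain ⟨K, Q, k0, k1, k2, k3, k4, k5, q0, q1, q2, q3, q4, q5, hcs⟩ :=
        ENC_pw R lo y1 y2 (lo + γ) ((2 * R - y1 - y2) / R)
          ((2 * R - y1 - y2) / R + (2 * γ - (y1 - lo) - (y2 - lo)) / (1 - γ))
          ((R - y1 - y2) / R + (γ - (y1 - lo) - (y2 - lo)) / (1 - γ))
          (-(y1 + y2) / R - ((y1 - lo) + (y2 - lo)) / (1 - γ)) (-(y1 + y2) / R)
          hlo hC hy12 hD hhi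
      refine ⟨K, Q, k0, ?_, ?_, ?_, fun α β _ h2 _ => hcs α β h2⟩
      · rw [k5]
        field_simp
        ring
      · rw [k2, k3]
        unfold Ps
        field_simp
        ring
      · rw [k1, k2, k3, k4, q0, q1, q4, q5]
        apply le_of_eq
        field_simp
        ring

end ALZ
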