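import Pool.Agent.ALZ.St

/-!
# ALZ, [FLJ]: the flow identity in the range of an edge (helper16)
-/

set_option autoImplicit false

namespace ALZ

lemma FLJ_mono (lo γ y y' : ℝ) (h : y ≤ y') : cl lo γ y ≤ cl lo γ y' := by
  unfold cl
  exact max_le_max le_rfl (min_le_min le_rfl (by linarith))

lemma FLJ_lip (lo γ y y' : ℝ) (h : y ≤ y') : cl lo γ y' - cl lo γ y ≤ y' - y := by
  unfold cl
  rcases max_cases 0 (min γ (y' - lo)) with ⟨h1, h2⟩ | ⟨h1, h2⟩ <;>
  rcases max_cases 0 (min γ (y - lo)) with ⟨h3, h4⟩ | ⟨h3, h4⟩ <;>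
  rcases min_cases γ (y' - lo) with ⟨h5, h6⟩ | ⟨h5, h6⟩ <;>
  rcases min_cases γ (y - lo) with ⟨h7, h8⟩ | ⟨h7, h8⟩ <;>
  rw [h1, h3] <;> linarith

lemma FLJ_nonneg (lo γ y : ℝ) : 0 ≤ cl lo γ y := le_max_left _ _

lemma FLJ_le (lo γ y : ℝ) (hγ : 0 ≤ γ) : cl lo γ y ≤ γ := max_le hγ (min_le_left _ _)

lemma FLJ_low (lo γ y : ℝ) (hγ : 0 ≤ γ) (h : y ≤ lo) : cl lo γ y = 0 := by
  unfold cl
  rw [min_eq_right (by linarith)]
  exact max_eq_left (by linarith)

lemma FLJ_high (lo γ y : ℝ) (hγ : 0 ≤ γ) (h : lo + γ ≤ y) : cl lo γ y = γ := by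
  unfold cl
  rw [min_eq_left (by linarith)]
  exact max_eq_right hγ

lemma FLJ_mid (lo γ y : ℝ) (h : lo ≤ y) (h' : y ≤ lo + γ) : cl lo γ y = y - lo := by
  unfold cl
  rw [min_eq_right (by linarith)]
  exact max_eq_right (by linarith)

theorem thm_FLJ : St_RNG → St_FLJ := by
  intro hR V E _ _ N ph R I G j ok
  obtain ⟨hrng, -, -⟩ := hR V E N ph R I G ok
  have hγ : 0 ≤ N.d ph j := ok.up j
  have htj : ph (N.t j) = ph (N.s j) + N.d ph j := by unfold Nt.d; ring
  have hsj : N.cj ph j (N.s j) = 0 := FLJ_low _ _ _ hγ le_rfl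
  have htj' : N.cj ph j (N.t j) = N.d ph j := FLJ_high _ _ _ hγ (by rw [htj])
  have ha : N.cj ph j N.a = 0 := by
    apply FLJ_low _ _ _ hγ
    rw [ok.a0]
    exact (hrng _).1
  have hb : N.cj ph j N.b = N.d ph j := by
    apply FLJ_high _ _ _ hγ
    rw [ok.bR, ← htj]
    exact (hrng _).2
  refine ⟨?_, ?_, ?_, ?_, ha, hb, ?_⟩
  · intro H
    have h1 := ok.fl (fun x => H (N.cj ph j x))
    have h2 : (∑ e, if e = j then 0 else N.d ph e * (H (N.cj ph j (N.t e)) - H (N.cj ph j (N.s e)))) =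
        (∑ e, N.d ph e * N.d (fun x => H (N.cj ph j x)) e) -
          ∑ e, if e = j then N.d ph e * (H (N.cj ph j (N.t e)) - H (N.cj ph j (N.s e))) else 0 := by
      rw [← Finset.sum_sub_distrib]
      apply Finset.sum_congr rfl
      intro e _
      by_cases he : e = j
      · rw [if_pos he, if_pos he]
        unfold Nt.d
        ring
      · rw [if_neg he, if_neg he]
        unfold Nt.d
        ring
    rw [h2, h1, Finset.sum_ite_eq' Finset.univ j, if_pos (Finset.mem_univ j), hsj, htj', ha, hb]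
    ring
  · intro e
    have h0 : ph (N.s e) ≤ ph (N.t e) := by
      have := ok.up e
      unfold Nt.d at this
      linarith
    have e1 : N.lj ph e j = cl (ph (N.s j)) (N.d ph j) (ph (N.t e)) - cl (ph (N.s j)) (N.d ph j) (ph (N.s e)) := rfl
    have e2 : N.d ph e = ph (N.t e) - ph (N.s e) := rfl
    have h1 := FLJ_mono (ph (N.s j)) (N.d ph j) _ _ h0
    have h2 := FLJ_lip (ph (N.s j)) (N.d ph j) _ _ h0
    rw [e1, e2]
    constructor <;> linarith
  · have : N.lj ph j j = N.cj ph j (N.t j) - N.cj ph j (N.s j) := rfl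
    rw [this, hsj, htj', sub_zero]
  · intro x
    exact ⟨FLJ_nonneg _ _ _, FLJ_le _ _ _ hγ⟩
  · intro e hins
    obtain ⟨h1, h2⟩ := hins
    have h0 : ph (N.s e) ≤ ph (N.t e) := by
      have := ok.up e
      unfold Nt.d at this
      linarith
    constructor
    · exact FLJ_mid _ _ _ h1 (by linarith)
    · have h3 : N.cj ph j (N.t e) = ph (N.t e) - ph (N.s j) := FLJ_mid _ _ _ (by linarith) (by linarith)
      rw [h3]
      unfold Nt.d
      ring

end ALZ
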