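import Pool.Agent.ALZ.St

/-!
# ALZ, module FNC: the result for `R ≥ 3/2`
-/

set_option autoImplicit false

open Finset

namespace ALZ

/-- the function `base` -/
noncomputable def FNC_base (R s : ℝ) : ℝ :=
  3 / 4 * ((1 - s) * (1 - s / R)) - s ^ 2 / (2 * R)

theorem FNC_base_anti {R s w : ℝ} (hR : 3 / 2 ≤ R) (h1 : s ≤ w) (h2 : w ≤ 1) :
    FNC_base R w ≤ FNC_base R s := by
  have hR0 : 0 < R := by linarith
  have h : FNC_base R s - FNC_base R w =
      (w - s) * ((3 * R + 3 - (s + w)) / (4 * R)) := by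
    unfold FNC_base
    field_simp
    ring
  have h3 : 0 ≤ (w - s) * ((3 * R + 3 - (s + w)) / (4 * R)) :=
    mul_nonneg (by linarith) (div_nonneg (by linarith) (by linarith))
  linarith

theorem FNC_base_half {R : ℝ} (hR : 3 / 2 ≤ R) :
    FNC_base R (1 / 2) = 3 / 8 - 5 / (16 * R) := by
  have hR0 : 0 < R := by linarith
  unfold FNC_base
  field_simp
  ring

/-- the function `ψ` -/
noncomputable def FNC_ps (R γ s : ℝ) : ℝ :=
  FNC_base R s - (3 * γ * s - s ^ 2) / (4 * (1 - γ))

theorem FNC_ps_anti {R γ s : ℝ} (hR : 3 / 2 ≤ R) (hγ : 1 / 2 < γ) (hγ1 : γ < 1)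
    (h1 : s ≤ 1 - γ) : FNC_ps R γ (1 - γ) ≤ FNC_ps R γ s := by
  have h2 := FNC_base_anti (R := R) (s := s) (w := 1 - γ) hR h1 (by linarith)
  have hw : 0 < 1 - γ := by linarith
  have h : (3 * γ * (1 - γ) - (1 - γ) ^ 2) / (4 * (1 - γ)) -
      (3 * γ * s - s ^ 2) / (4 * (1 - γ)) =
      (1 - γ - s) * ((3 * γ - s - (1 - γ)) / (4 * (1 - γ))) := by
    field_simp
    ring
  have h3 : 0 ≤ (1 - γ - s) * ((3 * γ - s - (1 - γ)) / (4 * (1 - γ))) :=
    mul_nonneg (by linarith) (div_nonneg (by linarith) (by linarith))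
  unfold FNC_ps
  linarith

theorem FNC_F {R γ : ℝ} (hR : 3 / 2 ≤ R) (hγ : 1 / 2 < γ) (hγ1 : γ < 1) :
    γ * (3 / 8 - 5 / (16 * R)) ≤
      γ ^ 2 * FNC_base R γ + γ ^ 3 / 2 + (1 - γ) * γ * FNC_ps R γ (1 - γ) := by
  have hR0 : 0 < R := by linarith
  have hw : 0 < 1 - γ := by linarith
  have h : γ ^ 2 * FNC_base R γ + γ ^ 3 / 2 + (1 - γ) * γ * FNC_ps R γ (1 - γ) -
      γ * (3 / 8 - 5 / (16 * R)) =
      γ * ((γ - 1 / 2) * ((R - 3 * (γ - 1 / 2)) / (4 * R))) := by
    unfold FNC_ps FNC_base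
    field_simp
    ring
  have h3 : 0 ≤ γ * ((γ - 1 / 2) * ((R - 3 * (γ - 1 / 2)) / (4 * R))) :=
    mul_nonneg (by linarith) (mul_nonneg (by linarith) (div_nonneg (by linarith) (by linarith)))
  linarith

theorem FNC_core {E : Type} [Fintype E] [DecidableEq E] (s : E → ℝ) (l : E → E → ℝ) (R : ℝ)
    (J : Finset E) (hR : 3 / 2 ≤ R) (hJ : ∀ e, e ∈ J ↔ 1 / 2 < s e) (h0 : ∀ e, 0 ≤ s e)
    (h1 : ∀ e, s e < 1) (hsq : ∑ e, s e ^ 2 = R) (hl0 : ∀ e j, 0 ≤ l e j)
    (hll : ∀ j, l j j = s j)
    (hfl : ∀ j, (∑ e, if e = j then 0 else s e * l e j) = (1 - s j) * s j)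
    (hov : ∀ e j, e ≠ j → 0 < l e j → s e + s j ≤ 1) (hd1 : ∀ e, ∑ j ∈ J, l e j ≤ s e)
    (hd3 : ∀ e ∈ J, ∀ j ∈ J, e ≠ j → l e j = 0) :
    R * (3 / 8 - 5 / (16 * R)) ≤ ∑ e, s e ^ 2 * FNC_base R (s e) +
      ∑ j ∈ J, (s j ^ 3 / 2 - ∑ e, if e = j then 0 else
        s e * l e j * ((3 * s j * s e - s e ^ 2) / (4 * (1 - s j)))) := by
  set b : ℝ := 3 / 8 - 5 / (16 * R) with hb
  -- one edge
  have hedge : ∀ e, (if e ∈ J then s e ^ 2 * FNC_base R (s e) else 0) +
      s e * (s e - ∑ j ∈ J, l e j) * b +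
      ∑ j ∈ J, (if e = j then 0 else s e * l e j * FNC_base R (s e)) ≤
      s e ^ 2 * FNC_base R (s e) := by
    intro e
    by_cases he : e ∈ J
    · rw [if_pos he]
      have h2 : ∑ j ∈ J, l e j = s e := by
        rw [Finset.sum_eq_single e]
        · exact hll e
        · intro j hj hne
          exact hd3 e he j hj (Ne.symm hne)
        · intro hne
          exact absurd he hne
      have h3 : ∑ j ∈ J, (if e = j then 0 else s e * l e j * FNC_base R (s e)) = 0 := by
        refine Finset.sum_eq_zero fun j hj => ?_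
        by_cases hej : e = j
        · rw [if_pos hej]
        · rw [if_neg hej, hd3 e he j hj hej]
          ring
      rw [h2, h3]
      have : s e * (s e - s e) * b = 0 := by ring
      linarith
    · rw [if_neg he]
      have hs : s e ≤ 1 / 2 := by
        by_contra hcon
        exact he ((hJ e).2 (not_le.1 hcon))
      have h2 : b ≤ FNC_base R (s e) := by
        rw [hb, ← FNC_base_half hR]
        exact FNC_base_anti hR hs (by norm_num)
      have h3 : ∑ j ∈ J, (if e = j then 0 else s e * l e j * FNC_base R (s e)) =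
          s e * (∑ j ∈ J, l e j) * FNC_base R (s e) := by
        rw [Finset.mul_sum, Finset.sum_mul]
        refine Finset.sum_congr rfl fun j hj => ?_
        rw [if_neg]
        rintro rfl
        exact he hj
      rw [h3]
      have h4 : 0 ≤ s e * (s e - ∑ j ∈ J, l e j) :=
        mul_nonneg (h0 e) (by linarith [hd1 e])
      have h5 := mul_le_mul_of_nonneg_left h2 h4
      have h6 : s e ^ 2 * FNC_base R (s e) = s e * (s e - ∑ j ∈ J, l e j) * FNC_base R (s e) +
          s e * (∑ j ∈ J, l e j) * FNC_base R (s e) := by ring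
      linarith
  have hsum := Finset.sum_le_sum fun e (_ : e ∈ (Finset.univ : Finset E)) => hedge e
  rw [Finset.sum_add_distrib, Finset.sum_add_distrib] at hsum
  -- part of the big edges
  have hA : ∑ e, (if e ∈ J then s e ^ 2 * FNC_base R (s e) else 0) =
      ∑ j ∈ J, s j ^ 2 * FNC_base R (s j) := by
    rw [Finset.sum_ite_mem, Finset.univ_inter]
  -- free part
  have hfull : ∀ j, ∑ e, s e * l e j = s j := by
    intro j
    have h2 : ∑ e, s e * l e j = s j * l j j + ∑ e, (if e = j then 0 else s e * l e j) := by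
      have h3 : ∀ e, s e * l e j = (if e = j then s j * l j j else 0) +
          (if e = j then 0 else s e * l e j) := by
        intro e
        by_cases hej : e = j
        · rw [if_pos hej, if_pos hej, hej, add_zero]
        · rw [if_neg hej, if_neg hej, zero_add]
      rw [Finset.sum_congr rfl fun e _ => h3 e, Finset.sum_add_distrib, Finset.sum_ite_eq',
        if_pos (Finset.mem_univ j)]
    rw [h2, hfl, hll]
    ring
  have hB : ∑ e, s e * (s e - ∑ j ∈ J, l e j) * b = (R - ∑ j ∈ J, s j) * b := by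
    rw [← Finset.sum_mul]
    congr 1
    have h2 : ∀ e, s e * (s e - ∑ j ∈ J, l e j) = s e ^ 2 - ∑ j ∈ J, s e * l e j := by
      intro e
      rw [← Finset.mul_sum]
      ring
    rw [Finset.sum_congr rfl fun e _ => h2 e, Finset.sum_sub_distrib, hsq, Finset.sum_comm,
      Finset.sum_congr rfl fun j _ => hfull j]
  have hC : ∑ e, ∑ j ∈ J, (if e = j then 0 else s e * l e j * FNC_base R (s e)) =
      ∑ j ∈ J, ∑ e, (if e = j then 0 else s e * l e j * FNC_base R (s e)) := Finset.sum_comm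
  rw [hA, hB, hC] at hsum
  -- one big edge
  have hbig : ∀ j ∈ J, s j * b ≤ s j ^ 2 * FNC_base R (s j) +
      ∑ e, (if e = j then 0 else s e * l e j * FNC_base R (s e)) +
      (s j ^ 3 / 2 - ∑ e, if e = j then 0 else
        s e * l e j * ((3 * s j * s e - s e ^ 2) / (4 * (1 - s j)))) := by
    intro j hj
    have hγ := (hJ j).1 hj
    have h2 : (1 - s j) * s j * FNC_ps R (s j) (1 - s j) ≤
        ∑ e, (if e = j then 0 else s e * l e j * FNC_base R (s e)) -
        ∑ e, (if e = j then 0 else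
          s e * l e j * ((3 * s j * s e - s e ^ 2) / (4 * (1 - s j)))) := by
      rw [← hfl j, Finset.sum_mul, ← Finset.sum_sub_distrib]
      refine Finset.sum_le_sum fun e _ => ?_
      by_cases hej : e = j
      · rw [if_pos hej, if_pos hej, if_pos hej]
        linarith
      · rw [if_neg hej, if_neg hej, if_neg hej]
        rcases (hl0 e j).eq_or_lt with h3 | h3
        · rw [← h3]
          simp
        · have h4 := hov e j hej h3
          have h5 := FNC_ps_anti (R := R) (γ := s j) (s := s e) hR hγ (h1 j) (by linarith)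
          have h6 := mul_le_mul_of_nonneg_left h5 (mul_nonneg (h0 e) (hl0 e j))
          have h7 : s e * l e j * FNC_ps R (s j) (s e) = s e * l e j * FNC_base R (s e) -
              s e * l e j * ((3 * s j * s e - s e ^ 2) / (4 * (1 - s j))) := by
            unfold FNC_ps
            ring
          linarith
    have h3 := FNC_F (R := R) (γ := s j) hR hγ (h1 j)
    rw [← hb] at h3
    linarith
  have hbsum := Finset.sum_le_sum hbig
  rw [Finset.sum_add_distrib, Finset.sum_add_distrib, ← Finset.sum_mul] at hbsum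
  have hfin : R * b = (R - ∑ j ∈ J, s j) * b + (∑ j ∈ J, s j) * b := by ring
  rw [hfin]
  linarith

theorem thm_FNC (hRNG : St_RNG) (hFLJ : St_FLJ) (hOVL : St_OVL) (hDSJ : St_DSJ)
    (hCSM : St_CSM) : St_FNC := by
  intro V V' E _ _ _ N N' ph x R G G' hG hR
  classical
  have hok := hG.dual.ok
  have hR0 : 0 < R := hok.R0
  set J : Finset E := Finset.univ.filter fun e => 1 / 2 < N.d ph e with hJdef
  have hJ : ∀ e, e ∈ J ↔ 1 / 2 < N.d ph e := by
    intro e
    rw [hJdef, Finset.mem_filter]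
    exact ⟨fun h => h.2, fun h => ⟨Finset.mem_univ e, h⟩⟩
  obtain ⟨_, hsq, _⟩ := hRNG V E N ph R 1 G hok
  obtain ⟨hov, _, _⟩ := hOVL V E N ph R 1 G hok
  obtain ⟨hd1, _, hd3⟩ := hDSJ V E N ph R 1 G J hok fun j hj => by
    have := (hJ j).1 hj
    linarith
  have hflj := fun j => hFLJ V E N ph R 1 G j hok
  have hcore := FNC_core (fun e => N.d ph e) (fun e j => N.lj ph e j) R J hR hJ
    (fun e => hok.up e) (fun e => hG.lt1 e) (by rw [hsq, one_mul]) (fun e j => ((hflj j).2.1 e).1)
    (fun j => (hflj j).2.2.1)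
    (fun j => by
      have h := (hflj j).1 id
      calc (∑ e, if e = j then 0 else N.d ph e * N.lj ph e j)
          = ∑ e, (if e = j then 0 else
            N.d ph e * (id (N.cj ph j (N.t e)) - id (N.cj ph j (N.s e)))) := rfl
        _ = (1 - N.d ph j) * (id (N.d ph j) - id 0) := h
        _ = (1 - N.d ph j) * N.d ph j := by
          show (1 - N.d ph j) * (N.d ph j - 0) = _
          rw [sub_zero])
    hov hd1 hd3
  have hcsm := hCSM V V' E N N' ph x R G G' J hG hJ
  refine le_trans ?_ hcsm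
  rw [le_div_iff₀ hR0, mul_comm]
  exact hcore

end ALZ
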