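import Pool.Agent.ALZ.St

/-!
# ALZ: comparison of Green functions (maximum principle)
-/

set_option autoImplicit false

namespace ALZ

theorem GMP_max (p q : ℝ) :
    (max q 0 - max p 0) * (max q 0 - max p 0) ≤ (q - p) * (max q 0 - max p 0) := by
  rcases le_total p 0 with hp | hp <;> rcases le_total q 0 with hq | hq
  · rw [max_eq_right hp, max_eq_right hq]; simp
  · rw [max_eq_right hp, max_eq_left hq]
    nlinarith
  · rw [max_eq_left hp, max_eq_right hq]
    nlinarith
  · rw [max_eq_left hp, max_eq_left hq]

theorem GMP_nonneg {V E : Type} [Fintype E] (N : Nt V E) (c : E → ℝ) (W : Set V)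
    (G : V → V → ℝ) (hc : ∀ e, N.s e ∈ W ∨ N.t e ∈ W → 0 ≤ c e) (hPD : N.PD c W)
    (hG : N.Gr c W G) (x y : V) : 0 ≤ G x y := by
  by_cases hx : x ∈ W
  · have hm : Van W (fun z => max (-(G x z)) 0) := by
      intro z hz
      simp only [hG.van x z hz, neg_zero, max_self]
    have hrep := hG.rep x hx _ hm
    have h1 : N.fw c (fun z => max (-(G x z)) 0) (fun z => max (-(G x z)) 0) ≤
        -N.fw c (G x) (fun z => max (-(G x z)) 0) := by
      unfold Nt.fw
      rw [← Finset.sum_neg_distrib]
      refine Finset.sum_le_sum fun e _ => ?_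
      by_cases he : N.s e ∈ W ∨ N.t e ∈ W
      · have h2 := GMP_max (-(G x (N.s e))) (-(G x (N.t e)))
        have h3 := mul_le_mul_of_nonneg_left h2 (hc e he)
        unfold Nt.d
        refine h3.trans (le_of_eq ?_)
        ring
      · have hs : N.s e ∉ W := fun h => he (Or.inl h)
        have ht : N.t e ∉ W := fun h => he (Or.inr h)
        unfold Nt.d
        simp only [hG.van x _ hs, hG.van x _ ht, neg_zero, max_self, sub_self, mul_zero, le_refl]
    have h4 : 0 ≤ N.fw c (fun z => max (-(G x z)) 0) (fun z => max (-(G x z)) 0) := by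
      unfold Nt.fw
      refine Finset.sum_nonneg fun e _ => ?_
      by_cases he : N.s e ∈ W ∨ N.t e ∈ W
      · exact mul_nonneg (hc e he) (mul_self_nonneg _)
      · have hs : N.s e ∉ W := fun h => he (Or.inl h)
        have ht : N.t e ∉ W := fun h => he (Or.inr h)
        unfold Nt.d
        simp only [hG.van x _ hs, hG.van x _ ht, neg_zero, max_self, sub_self, mul_zero, le_refl]
    have h5 : (0 : ℝ) ≤ max (-(G x x)) 0 := le_max_right _ _
    have h6 : N.fw c (fun z => max (-(G x z)) 0) (fun z => max (-(G x z)) 0) = 0 := by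
      rw [hrep] at h1
      linarith
    have h7 := hPD _ hm h6 y
    have h8 : -(G x y) ≤ max (-(G x y)) 0 := le_max_left _ _
    linarith
  · rw [hG.out x hx y]

/-- [GMP] comparison of Green functions -/
theorem thm_GMP : St_GMP := by
  intro V E _ N c c' W W' G G' hc hPD hG hPD' hG' hW hcc hcc' x y
  have hn : ∀ x y, 0 ≤ G x y := GMP_nonneg N c W G (fun e _ => hc e) hPD hG
  have hn' : ∀ x y, 0 ≤ G' x y :=
    GMP_nonneg N c' W' G' (fun e he => (hc e).trans (hcc' e he)) hPD' hG'
  refine ⟨hn' x y, ?_⟩
  by_cases hx : x ∈ W'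
  · have hm' : Van W' (fun z => max (G' x z - G x z) 0) := by
      intro z hz
      simp only [hG'.van x z hz, zero_sub]
      exact max_eq_right (neg_nonpos.mpr (hn x z))
    have hm : Van W (fun z => max (G' x z - G x z) 0) := fun z hz => hm' z fun h => hz (hW h)
    have hr' := hG'.rep x hx _ hm'
    have hr := hG.rep x (hW hx) _ hm
    have h1 : N.fw c (G' x) (fun z => max (G' x z - G x z) 0) ≤
        N.fw c' (G' x) (fun z => max (G' x z - G x z) 0) := by
      unfold Nt.fw
      refine Finset.sum_le_sum fun e _ => ?_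
      by_cases hs : N.s e ∈ W'
      · by_cases ht : N.t e ∈ W'
        · rw [hcc e hs ht]
        · have h2 : max (G' x (N.t e) - G x (N.t e)) 0 = 0 := hm' _ ht
          refine mul_le_mul_of_nonneg_right (hcc' e (Or.inl hs)) ?_
          unfold Nt.d
          dsimp only
          rw [h2, hG'.van x _ ht, zero_sub, zero_sub, neg_mul_neg]
          exact mul_nonneg (hn' _ _) (le_max_right _ _)
      · have h2 : max (G' x (N.s e) - G x (N.s e)) 0 = 0 := hm' _ hs
        by_cases ht : N.t e ∈ W'
        · refine mul_le_mul_of_nonneg_right (hcc' e (Or.inr ht)) ?_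
          unfold Nt.d
          dsimp only
          rw [h2, hG'.van x _ hs, sub_zero, sub_zero]
          exact mul_nonneg (hn' _ _) (le_max_right _ _)
        · have h3 : max (G' x (N.t e) - G x (N.t e)) 0 = 0 := hm' _ ht
          unfold Nt.d
          simp only [h2, h3, sub_self, mul_zero, le_refl]
    have h4 : N.fw c (fun z => max (G' x z - G x z) 0) (fun z => max (G' x z - G x z) 0) ≤
        N.fw c (G' x) (fun z => max (G' x z - G x z) 0) -
          N.fw c (G x) (fun z => max (G' x z - G x z) 0) := by
      unfold Nt.fw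
      rw [← Finset.sum_sub_distrib]
      refine Finset.sum_le_sum fun e _ => ?_
      have h5 := GMP_max (G' x (N.s e) - G x (N.s e)) (G' x (N.t e) - G x (N.t e))
      have h6 := mul_le_mul_of_nonneg_left h5 (hc e)
      unfold Nt.d
      refine h6.trans (le_of_eq ?_)
      ring
    have h7 : 0 ≤ N.fw c (fun z => max (G' x z - G x z) 0)
        (fun z => max (G' x z - G x z) 0) := by
      unfold Nt.fw
      exact Finset.sum_nonneg fun e _ => mul_nonneg (hc e) (mul_self_nonneg _)
    have h8 : N.fw c (fun z => max (G' x z - G x z) 0)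
        (fun z => max (G' x z - G x z) 0) = 0 := by
      rw [hr] at h4
      rw [hr'] at h1
      linarith
    have h9 := hPD _ hm h8 y
    have h10 : G' x y - G x y ≤ max (G' x y - G x y) 0 := le_max_left _ _
    linarith
  · rw [hG'.out x hx y]
    exact hn x y

end ALZ
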