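import Pool.Agent.ALZ.St

/-!
# ALZ: one strip, simple form
-/

set_option autoImplicit false

namespace ALZ

theorem thm_HSM (hFLJ : St_FLJ) (hOVL : St_OVL) (hVSM : St_VSM) : St_HSM := by
  classical
  intro V E _ _ N ph R I G j hOk hj0 hjI hj
  obtain ⟨hfl, hlj, hjj, hcj, hca, hcb, hins⟩ := hFLJ V E N ph R I G j hOk
  obtain ⟨hov, _, _⟩ := hOVL V E N ph R I G hOk
  have hV := hVSM V E N ph R I G {j} hOk (by
    intro j' hj'
    rw [Finset.mem_singleton] at hj'
    subst hj'
    exact ⟨hj0, hjI, hj⟩)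
  rw [Finset.sum_singleton] at hV
  have hid := hfl (fun y => y)
  have hw : 0 < I - N.d ph j := by linarith
  have hwg : 0 < (I - N.d ph j) * N.d ph j := mul_pos hw hj0
  have hsum : (∑ e, if e = j then 0 else N.d ph e * N.lj ph e j *
      (3 / 4 + 3 / 4 * (N.d ph e / (I - N.d ph j)) -
        N.d ph e ^ 2 / ((I - N.d ph j) * N.d ph j))) ≤
      3 / 2 * ((I - N.d ph j) * N.d ph j) := by
    have h1 : (∑ e, if e = j then 0 else N.d ph e * N.lj ph e j *
      (3 / 4 + 3 / 4 * (N.d ph e / (I - N.d ph j)) -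
        N.d ph e ^ 2 / ((I - N.d ph j) * N.d ph j))) ≤
        ∑ e, 3 / 2 * (if e = j then 0 else
          N.d ph e * (N.cj ph j (N.t e) - N.cj ph j (N.s e))) := by
      refine Finset.sum_le_sum fun e _ => ?_
      by_cases he : e = j
      · rw [if_pos he, if_pos he, mul_zero]
      · rw [if_neg he, if_neg he]
        have hs := hOk.up e
        obtain ⟨hl0, hl1⟩ := hlj e
        have hdef : N.cj ph j (N.t e) - N.cj ph j (N.s e) = N.lj ph e j := rfl
        rw [hdef]
        rcases hl0.eq_or_lt with h0 | h0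
        · rw [← h0]
          simp
        · have hsw : N.d ph e ≤ I - N.d ph j := by
            have := hov e j he h0
            linarith
          have h2 : N.d ph e / (I - N.d ph j) ≤ 1 := (div_le_one hw).2 hsw
          have h3 : 0 ≤ N.d ph e ^ 2 / ((I - N.d ph j) * N.d ph j) :=
            div_nonneg (sq_nonneg _) hwg.le
          have h4 : 3 / 4 + 3 / 4 * (N.d ph e / (I - N.d ph j)) -
              N.d ph e ^ 2 / ((I - N.d ph j) * N.d ph j) ≤ 3 / 2 := by linarith
          have h5 : 0 ≤ N.d ph e * N.lj ph e j := mul_nonneg hs h0.le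
          calc _ ≤ N.d ph e * N.lj ph e j * (3 / 2) := mul_le_mul_of_nonneg_left h4 h5
            _ = _ := by ring
    refine h1.trans (le_of_eq ?_)
    rw [← Finset.mul_sum, hid, sub_zero]
  linarith

end ALZ
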