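import Pool.Agent.ALZ.St

/-!
# [LEV] leverage of an edge of weight `1`
-/

set_option autoImplicit false

namespace ALZ

section

variable {V E : Type} [Fintype E]

theorem LEV_symm (N : Nt V E) (c : E → ℝ) (f g : V → ℝ) : N.fw c f g = N.fw c g f := by
  unfold Nt.fw
  refine Finset.sum_congr rfl fun e _ => ?_
  ring

theorem LEV_add (N : Nt V E) (c : E → ℝ) (f g h : V → ℝ) (r : ℝ) :
    N.fw c (fun z => f z + r * g z) h = N.fw c f h + r * N.fw c g h := by
  unfold Nt.fw Nt.d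
  rw [Finset.mul_sum, ← Finset.sum_add_distrib]
  refine Finset.sum_congr rfl fun e _ => ?_
  ring

theorem LEV_rep {N : Nt V E} {c : E → ℝ} {W : Set V} {G : V → V → ℝ} (hG : N.Gr c W G) (x : V)
    (h : V → ℝ) (hh : Van W h) : N.fw c (G x) h = h x := by
  by_cases hx : x ∈ W
  · exact hG.rep x hx h hh
  · rw [hh x hx]
    unfold Nt.fw Nt.d
    refine Finset.sum_eq_zero fun e _ => ?_
    rw [hG.out x hx, hG.out x hx]
    ring

theorem LEV_sym {N : Nt V E} {c : E → ℝ} {W : Set V} {G : V → V → ℝ} (hG : N.Gr c W G)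
    (x y : V) : G x y = G y x := by
  have h1 := LEV_rep hG y (G x) (hG.van x)
  have h2 := LEV_rep hG x (G y) (hG.van y)
  rw [← h1, ← h2, LEV_symm]

theorem LEV_one (N : Nt V E) (c : E → ℝ) (hc : ∀ e, 0 ≤ c e) (e : E) (he : c e = 1)
    (g : V → ℝ) : N.d g e ^ 2 ≤ N.fw c g g := by
  have h := Finset.single_le_sum (f := fun e => c e * (N.d g e * N.d g e))
    (fun e _ => mul_nonneg (hc e) (mul_self_nonneg (N.d g e))) (Finset.mem_univ e)
  have h2 : c e * (N.d g e * N.d g e) ≤ N.fw c g g := h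
  rw [he] at h2
  calc N.d g e ^ 2 = 1 * (N.d g e * N.d g e) := by ring
    _ ≤ _ := h2

end

theorem thm_LEV : St_LEV := by
  intro V E _ N c W G ps e hc hG he hB hps
  obtain ⟨B, hBdef⟩ : ∃ B, B = N.fw c ps ps := ⟨_, rfl⟩
  obtain ⟨s, hs⟩ : ∃ s, s = N.d ps e := ⟨_, rfl⟩
  rw [← hBdef] at hB
  rw [← hBdef, ← hs]
  obtain ⟨f, hf⟩ : ∃ f : V → ℝ, f = fun z => G (N.t e) z + (-1) * G (N.s e) z := ⟨_, rfl⟩
  have hvan : Van W f := by
    intro z hz
    rw [hf]
    change G (N.t e) z + (-1) * G (N.s e) z = 0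
    rw [hG.van _ z hz, hG.van _ z hz]
    ring
  have hT : f (N.t e) + (-1) * f (N.s e) = N.gm G e := by
    rw [hf]
    change G (N.t e) (N.t e) + (-1) * G (N.s e) (N.t e) +
      (-1) * (G (N.t e) (N.s e) + (-1) * G (N.s e) (N.s e)) = N.gm G e
    unfold Nt.gm
    rw [LEV_sym hG (N.t e) (N.s e)]
    ring
  have hff : N.fw c f f = N.gm G e := by
    have h1 : N.fw c f f = N.fw c (fun z => G (N.t e) z + (-1) * G (N.s e) z) f := by
      rw [← hf]
    rw [h1, LEV_add, LEV_rep hG _ f hvan, LEV_rep hG _ f hvan, hT]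
  have hfp : N.fw c f ps = 0 := hps f hvan
  have hpf : N.fw c ps f = 0 := by rw [LEV_symm]; exact hfp
  have hgg : N.fw c (fun z => f z + (s / B) * ps z) (fun z => f z + (s / B) * ps z) =
      N.gm G e + s ^ 2 / B := by
    have h1 : N.fw c f (fun z => f z + (s / B) * ps z) = N.gm G e := by
      rw [LEV_symm, LEV_add, hff, hpf, mul_zero, add_zero]
    have h2 : N.fw c ps (fun z => f z + (s / B) * ps z) = s := by
      rw [LEV_symm, LEV_add, hfp, ← hBdef, zero_add]
      exact div_mul_cancel₀ s hB.ne'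
    rw [LEV_add, h1, h2]
    ring
  have hd : N.d (fun z => f z + (s / B) * ps z) e = N.gm G e + s ^ 2 / B := by
    have h1 : N.d (fun z => f z + (s / B) * ps z) e =
        (f (N.t e) + (-1) * f (N.s e)) + (s / B) * N.d ps e := by
      unfold Nt.d
      ring
    rw [h1, hT, ← hs]
    ring
  have h := LEV_one N c hc e he (fun z => f z + (s / B) * ps z)
  rw [hgg, hd] at h
  by_contra hcon
  rw [not_le] at hcon
  nlinarith

end ALZ
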