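import Pool.Agent.ALZ.St

/-!
# ALZ [LVI]: comparison with the kernel `Lev`
-/

set_option autoImplicit false

namespace ALZ

theorem thm_LVI (hDIR : St_DIR) (hRNG : St_RNG) (hTNT : St_TNT) : St_LVI := by
  intro V E _ N ph R I G e h
  obtain ⟨hr, -, -⟩ := hRNG V E N ph R I G h
  have h12 : ph (N.s e) ≤ ph (N.t e) := by
    have h1 := h.up e
    unfold Nt.d at h1
    linarith
  obtain ⟨k, q, k0, kR, kP, qP, hkq⟩ := hTNT R (ph (N.s e)) (ph (N.t e)) (hr _).1 h12 (hr _).2
  obtain ⟨-, hD2, hD3⟩ := hDIR V E N (fun _ => 1) N.In G (fun _ => zero_le_one) h.gr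
  set P := Ps R (ph (N.s e)) (ph (N.t e)) with hP
  have hP0 : 0 ≤ P := by
    have h1 := hr (N.s e)
    have h2 := hr (N.t e)
    have h3 := mul_nonneg h1.1 (sub_nonneg.2 h1.2)
    have h4 := mul_nonneg h2.1 (sub_nonneg.2 h2.2)
    have h5 := mul_nonneg h1.1 (sub_nonneg.2 h2.2)
    rw [hP]
    unfold Ps
    linarith
  have hgp : 0 ≤ N.gp G e := hD2 (N.s e) (N.t e)
  have hvan : Van N.In (fun x => k (ph x)) := by
    intro x hx
    by_cases hxa : x = N.a
    · show k (ph x) = 0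
      rw [hxa, h.a0, k0]
    · by_cases hxb : x = N.b
      · show k (ph x) = 0
        rw [hxb, h.bR, kR]
      · exact absurd ⟨hxa, hxb⟩ hx
  have hfw : N.fw (fun _ => 1) (fun x => k (ph x)) (fun x => k (ph x)) ≤ I * (R * P) := by
    have h1 := h.fl (fun x => q (ph x))
    rw [h.a0, h.bR, qP] at h1
    rw [← h1]
    unfold Nt.fw
    refine Finset.sum_le_sum fun e' _ => ?_
    have h2 := h.up e'
    unfold Nt.d at h2 ⊢
    have h3 := hkq (ph (N.s e')) (ph (N.t e')) (hr _).1 (by linarith) (hr _).2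
    nlinarith [h3]
  have h3 := hD3 _ hvan (N.s e) (N.t e)
  have h4 : P ^ 2 ≤ N.gp G e * (I * (R * P)) := by
    have h5 : (k (ph (N.s e)) + k (ph (N.t e))) ^ 2 ≤ N.gp G e *
      N.fw (fun _ => 1) (fun x => k (ph x)) (fun x => k (ph x)) := h3
    rw [kP] at h5
    exact h5.trans (mul_le_mul_of_nonneg_left hfw hgp)
  rcases hP0.eq_or_lt with h5 | h5
  · rw [← h5]
    exact mul_nonneg (mul_nonneg h.R0.le h.I0.le) hgp
  · have h6 : P * P ≤ R * I * N.gp G e * P := by
      calc P * P = P ^ 2 := by ring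
        _ ≤ N.gp G e * (I * (R * P)) := h4
        _ = R * I * N.gp G e * P := by ring
    exact le_of_mul_le_mul_right h6 h5

end ALZ
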