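import Pool.Agent.ALZ.St

/-!
# ALZ [NMA]: numerical inequalities for `1 ≤ R ≤ 5/4`
-/

set_option autoImplicit false

namespace ALZ

theorem NMA_one {R γ : ℝ} (h1 : 1 ≤ R) (h2 : R ≤ 5 / 4) (h3 : 69 / 100 ≤ γ) (h4 : γ < 1) :
    2 / γ ≤ 3 / (4 * (1 - γ)) + 2 * (1 - γ) / R := by
  have hg : 0 < γ := by linarith
  have hg1 : 0 < 1 - γ := by linarith
  have hR : 0 < R := by linarith
  have e1 : 2 * (1 - γ) / (5 / 4) ≤ 2 * (1 - γ) / R :=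
    div_le_div_of_nonneg_left (by linarith) hR h2
  have e2 : 2 / γ ≤ 3 / (4 * (1 - γ)) + 2 * (1 - γ) / (5 / 4) := by
    have e3 : 3 / (4 * (1 - γ)) + 2 * (1 - γ) / (5 / 4) - 2 / γ =
        (15 * γ + 32 * γ * (1 - γ) ^ 2 - 40 * (1 - γ)) / (20 * (1 - γ) * γ) := by
      field_simp
      ring
    have e4 : 0 ≤ (15 * γ + 32 * γ * (1 - γ) ^ 2 - 40 * (1 - γ)) / (20 * (1 - γ) * γ) := by
      apply div_nonneg
      · nlinarith [mul_nonneg (sub_nonneg.mpr h3) (sq_nonneg (γ - 2 / 3)),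
          mul_nonneg (sub_nonneg.mpr h3) hg1.le, mul_nonneg (sub_nonneg.mpr h3) hg.le]
      · positivity
    linarith
  linarith

theorem NMA_M {R : ℝ} (h1 : 1 ≤ R) (h2 : R ≤ 5 / 4) :
    5 / 64 ≤ 85 / 64 * R ^ 2 - R ^ 3 / 2 - 3 / 4 * R := by
  nlinarith [mul_nonneg (sub_nonneg.mpr h1) (sub_nonneg.mpr h2),
    mul_nonneg (mul_nonneg (sub_nonneg.mpr h1) (sub_nonneg.mpr h2)) (sub_nonneg.mpr h1)]

theorem NMA_L0 {R : ℝ} (h1 : 1 ≤ R) :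
    R ^ 2 * (L0 R - 11 / 64) = 85 / 64 * R ^ 2 - R ^ 3 / 2 - 3 / 4 * R := by
  have hR : R ≠ 0 := by linarith
  unfold L0
  field_simp
  ring

theorem NMA_lossA {g0 R γ : ℝ} (h1 : 1 ≤ R) (h : g0 ≤ γ) :
    R ^ 2 * loss g0 R γ = 3 * γ * (γ - 1 / 2) ^ 2 - 3 * R * ((γ - 1 / 2) * (γ - 2 / 3)) := by
  have hR : R ≠ 0 := by linarith
  unfold loss
  rw [if_pos h]
  field_simp

theorem NMA_lossB {g0 R γ : ℝ} (h1 : 1 ≤ R) (h : ¬ g0 ≤ γ) :
    R ^ 2 * loss g0 R γ = 3 * γ * (γ - 1 / 2) ^ 2 := by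
  have hR : R ≠ 0 := by linarith
  unfold loss
  rw [if_neg h]
  field_simp
  ring

theorem NMA_gain {R γ : ℝ} (h1 : 1 ≤ R) :
    R ^ 2 * gainH R γ = R * γ / 2 * (4 * γ - 3 * R) := by
  have hR : R ≠ 0 := by linarith
  unfold gainH
  field_simp

/-- value at `R = 1` -/
theorem NMA_D1 {γ : ℝ} (_h1 : 1 / 2 < γ) (h2 : γ ≤ 3 / 4) :
    0 ≤ 5 / 64 - 3 * (γ - 1 / 2) * (γ ^ 2 - 3 / 2 * γ + 2 / 3) := by
  nlinarith [mul_nonneg (sub_nonneg.mpr h2) (sq_nonneg (γ - 5 / 8)),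
    mul_nonneg (sub_nonneg.mpr h2) (sub_nonneg.mpr _h1.le)]

theorem NMA_D {R γ : ℝ} (h1 : 1 ≤ R) (h2 : R ≤ 5 / 4) (h3 : 69 / 100 ≤ γ)
    (h5 : 4 * γ ≤ 3 * R) :
    0 ≤ 85 / 64 * R ^ 2 - R ^ 3 / 2 - 3 / 4 * R - 3 * γ * (γ - 1 / 2) ^ 2 +
      3 * R * ((γ - 1 / 2) * (γ - 2 / 3)) := by
  have hp : 0 ≤ (γ - 1 / 2) * (γ - 2 / 3) := mul_nonneg (by linarith) (by linarith)
  rcases le_total γ (3 / 4) with h | h
  · have e1 := NMA_D1 (γ := γ) (by linarith) h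
    have e2 := NMA_M h1 h2
    nlinarith [mul_nonneg (sub_nonneg.mpr h1) hp]
  · -- reduce to `R = 4γ/3`
    have e1 : 0 ≤ γ * (5 / 108) * ((4 * γ - 3) * (3 - γ)) := by
      have : 0 ≤ (4 * γ - 3) * (3 - γ) := mul_nonneg (by linarith) (by linarith)
      have hγ : 0 ≤ γ * (5 / 108) := by linarith
      exact mul_nonneg hγ this
    have e2 : 85 / 64 * R ^ 2 - R ^ 3 / 2 - 3 / 4 * R - 3 * γ * (γ - 1 / 2) ^ 2 +
        3 * R * ((γ - 1 / 2) * (γ - 2 / 3)) = γ * (5 / 108) * ((4 * γ - 3) * (3 - γ)) +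
        (R - 4 * γ / 3) * (85 / 64 * (R + 4 * γ / 3) -
          (R ^ 2 + R * (4 * γ / 3) + (4 * γ / 3) ^ 2) / 2 - 3 / 4 +
          3 * ((γ - 1 / 2) * (γ - 2 / 3))) := by ring
    have e3 : 0 ≤ 85 / 64 * (R + 4 * γ / 3) -
        (R ^ 2 + R * (4 * γ / 3) + (4 * γ / 3) ^ 2) / 2 - 3 / 4 := by
      have a1 : 1 ≤ 4 * γ / 3 := by linarith
      have a2 : 4 * γ / 3 ≤ 5 / 4 := by linarith
      generalize 4 * γ / 3 = r at a1 a2
      nlinarith [mul_nonneg (sub_nonneg.mpr h1) (sub_nonneg.mpr h2),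
        mul_nonneg (sub_nonneg.mpr a1) (sub_nonneg.mpr a2),
        mul_nonneg (sub_nonneg.mpr h1) (sub_nonneg.mpr a2),
        mul_nonneg (sub_nonneg.mpr a1) (sub_nonneg.mpr h2)]
    rw [e2]
    have e4 : 0 ≤ (R - 4 * γ / 3) * (85 / 64 * (R + 4 * γ / 3) -
          (R ^ 2 + R * (4 * γ / 3) + (4 * γ / 3) ^ 2) / 2 - 3 / 4 +
          3 * ((γ - 1 / 2) * (γ - 2 / 3))) := by
      apply mul_nonneg
      · linarith
      · linarith
    linarith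

/-- value at `R = 1` with the gain -/
theorem NMA_F1 {γ : ℝ} (h1 : 3 / 4 ≤ γ) (h2 : γ < 1) :
    0 ≤ 5 / 64 - 3 * (γ - 1 / 2) * (γ ^ 2 - 3 / 2 * γ + 2 / 3) + 2 * γ ^ 2 - 3 / 2 * γ := by
  nlinarith [mul_nonneg (sub_nonneg.mpr h1) (sub_nonneg.mpr h2.le),
    mul_nonneg (mul_nonneg (sub_nonneg.mpr h1) (sub_nonneg.mpr h2.le)) (sub_nonneg.mpr h1)]

theorem NMA_F {R γ : ℝ} (h1 : 1 ≤ R) (h3 : γ < 1) (h5 : 3 * R ≤ 4 * γ) :
    0 ≤ 85 / 64 * R ^ 2 - R ^ 3 / 2 - 3 / 4 * R - 3 * γ * (γ - 1 / 2) ^ 2 +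
      3 * R * ((γ - 1 / 2) * (γ - 2 / 3)) + R * γ / 2 * (4 * γ - 3 * R) := by
  have hg : 3 / 4 ≤ γ := by linarith
  have f1 := NMA_F1 hg h3
  have f2 : 0 ≤ γ * (5 / 108) * ((4 * γ - 3) * (3 - γ)) := by
    have : 0 ≤ (4 * γ - 3) * (3 - γ) := mul_nonneg (by linarith) (by linarith)
    have hγ : 0 ≤ γ * (5 / 108) := by linarith
    exact mul_nonneg hγ this
  have key : (4 * γ / 3 - 1) * (85 / 64 * R ^ 2 - R ^ 3 / 2 - 3 / 4 * R -
      3 * γ * (γ - 1 / 2) ^ 2 + 3 * R * ((γ - 1 / 2) * (γ - 2 / 3)) +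
      R * γ / 2 * (4 * γ - 3 * R)) =
      (4 * γ / 3 - R) * (5 / 64 - 3 * (γ - 1 / 2) * (γ ^ 2 - 3 / 2 * γ + 2 / 3) + 2 * γ ^ 2 -
        3 / 2 * γ) + (R - 1) * (γ * (5 / 108) * ((4 * γ - 3) * (3 - γ))) +
      (4 * γ / 3 - 1) * ((R - 1) * (4 * γ / 3 - R) *
        ((R + 1 + 4 * γ / 3) / 2 + 3 / 2 * γ - 85 / 64)) := by ring
  rcases (show 0 ≤ 4 * γ / 3 - 1 by linarith).eq_or_lt with h0 | h0
  · -- `γ = 3/4`, `R = 1`
    have e1 : γ = 3 / 4 := by linarith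
    have e2 : R = 1 := by linarith
    subst e1
    subst e2
    norm_num
  · have k1 : 0 ≤ (4 * γ / 3 - R) * (5 / 64 - 3 * (γ - 1 / 2) * (γ ^ 2 - 3 / 2 * γ + 2 / 3) +
        2 * γ ^ 2 - 3 / 2 * γ) := mul_nonneg (by linarith) f1
    have k2 : 0 ≤ (R - 1) * (γ * (5 / 108) * ((4 * γ - 3) * (3 - γ))) :=
      mul_nonneg (by linarith) f2
    have k3 : 0 ≤ (4 * γ / 3 - 1) * ((R - 1) * (4 * γ / 3 - R) *
        ((R + 1 + 4 * γ / 3) / 2 + 3 / 2 * γ - 85 / 64)) := by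
      apply mul_nonneg h0.le
      apply mul_nonneg
      · apply mul_nonneg
        · linarith
        · linarith
      · linarith
    by_contra hneg
    push Not at hneg
    have := mul_neg_of_pos_of_neg h0 hneg
    linarith

theorem NMA_two {R γ γ' : ℝ} (h1 : 1 ≤ R) (h2 : R ≤ 5 / 4) (h3 : 1 / 2 < γ) (h4 : 1 / 2 < γ')
    (h5 : γ + γ' ≤ R) :
    3 * γ * (γ - 1 / 2) ^ 2 + 3 * γ' * (γ' - 1 / 2) ^ 2 ≤
      85 / 64 * R ^ 2 - R ^ 3 / 2 - 3 / 4 * R := by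
  have a1 : γ * (γ - 1 / 2) ^ 2 ≤ (R - 1 / 2) * (γ - 1 / 2) ^ 2 :=
    mul_le_mul_of_nonneg_right (by linarith) (sq_nonneg _)
  have a2 : γ' * (γ' - 1 / 2) ^ 2 ≤ (R - 1 / 2) * (γ' - 1 / 2) ^ 2 :=
    mul_le_mul_of_nonneg_right (by linarith) (sq_nonneg _)
  have a3 : (γ - 1 / 2) ^ 2 + (γ' - 1 / 2) ^ 2 ≤ (R - 1) ^ 2 := by
    nlinarith [mul_nonneg (sub_nonneg.mpr h3.le) (sub_nonneg.mpr h4.le)]
  have a4 : (R - 1 / 2) * ((γ - 1 / 2) ^ 2 + (γ' - 1 / 2) ^ 2) ≤ (R - 1 / 2) * (R - 1) ^ 2 :=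
    mul_le_mul_of_nonneg_left a3 (by linarith)
  have a5 : 3 * ((R - 1 / 2) * (R - 1) ^ 2) ≤ 85 / 64 * R ^ 2 - R ^ 3 / 2 - 3 / 4 * R := by
    nlinarith [mul_nonneg (sub_nonneg.mpr h1) (sub_nonneg.mpr h2),
      mul_nonneg (mul_nonneg (sub_nonneg.mpr h1) (sub_nonneg.mpr h2)) (sub_nonneg.mpr h1)]
  linarith

theorem thm_NMA : St_NMA := by
  intro R h1 h2
  have hR : 0 < R := by linarith
  have hR2 : 0 < R ^ 2 := by positivity
  have hL := NMA_L0 h1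
  refine ⟨fun γ h3 h4 => NMA_one h1 h2 h3 h4, ?_, ?_, ?_, ?_⟩
  · have e := NMA_M h1 h2
    by_contra hneg
    push Not at hneg
    have : R ^ 2 * (L0 R - 11 / 64) < 0 := mul_neg_of_pos_of_neg hR2 (by linarith)
    linarith
  · intro γ g1 g2 g3
    have key : 0 ≤ R ^ 2 * (L0 R - loss (69 / 100) R γ - 11 / 64) := by
      have e0 : R ^ 2 * (L0 R - loss (69 / 100) R γ - 11 / 64) =
          R ^ 2 * (L0 R - 11 / 64) - R ^ 2 * loss (69 / 100) R γ := by ring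
      rw [e0, hL]
      by_cases h : (69 / 100 : ℝ) ≤ γ
      · rw [NMA_lossA h1 h]
        have := NMA_D h1 h2 h g3
        linarith
      · rw [NMA_lossB h1 h]
        push Not at h
        have e := NMA_M h1 h2
        have e1 : 3 * γ * (γ - 1 / 2) ^ 2 ≤ 5 / 64 := by
          have b1 : (γ - 1 / 2) ^ 2 ≤ (19 / 100) ^ 2 := by nlinarith
          have b2 : γ * (γ - 1 / 2) ^ 2 ≤ 69 / 100 * (19 / 100) ^ 2 := by
            apply mul_le_mul h.le b1 (sq_nonneg _) (by norm_num)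
          linarith
        linarith
    by_contra hneg
    push Not at hneg
    have := mul_neg_of_pos_of_neg hR2 (show L0 R - loss (69 / 100) R γ - 11 / 64 < 0 by linarith)
    linarith
  · intro γ g1 g2 g3
    have key : 0 ≤ R ^ 2 * (L0 R - loss (69 / 100) R γ + gainH R γ - 11 / 64) := by
      have e0 : R ^ 2 * (L0 R - loss (69 / 100) R γ + gainH R γ - 11 / 64) =
          R ^ 2 * (L0 R - 11 / 64) - R ^ 2 * loss (69 / 100) R γ + R ^ 2 * gainH R γ := by ring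
      rw [e0, hL, NMA_lossA h1 (by linarith), NMA_gain h1]
      have := NMA_F h1 g2 g3
      linarith
    by_contra hneg
    push Not at hneg
    have := mul_neg_of_pos_of_neg hR2
      (show L0 R - loss (69 / 100) R γ + gainH R γ - 11 / 64 < 0 by linarith)
    linarith
  · intro γ γ' g1 g2 g3
    have hl : ∀ δ : ℝ, 1 / 2 < δ → R ^ 2 * loss (69 / 100) R δ ≤ 3 * δ * (δ - 1 / 2) ^ 2 := by
      intro δ hδ
      by_cases h : (69 / 100 : ℝ) ≤ δ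
      · rw [NMA_lossA h1 h]
        have : 0 ≤ R * ((δ - 1 / 2) * (δ - 2 / 3)) :=
          mul_nonneg hR.le (mul_nonneg (by linarith) (by linarith))
        linarith
      · rw [NMA_lossB h1 h]
    have key : 0 ≤ R ^ 2 *
        (L0 R - (loss (69 / 100) R γ + loss (69 / 100) R γ') - 11 / 64) := by
      have e0 : R ^ 2 * (L0 R - (loss (69 / 100) R γ + loss (69 / 100) R γ') - 11 / 64) =
          R ^ 2 * (L0 R - 11 / 64) - R ^ 2 * loss (69 / 100) R γ -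
            R ^ 2 * loss (69 / 100) R γ' := by ring
      rw [e0, hL]
      have b1 := hl γ g1
      have b2 := hl γ' g2
      have b3 := NMA_two h1 h2 g1 g2 g3
      linarith
    by_contra hneg
    push Not at hneg
    have := mul_neg_of_pos_of_neg hR2
      (show L0 R - (loss (69 / 100) R γ + loss (69 / 100) R γ') - 11 / 64 < 0 by linarith)
    linarith

end ALZ
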