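import Pool.Agent.ALZ.St

/-!
# ALZ, module NMB: numerical inequalities for `5/4 ≤ R ≤ 3/2` (helper42)
-/

set_option autoImplicit false

namespace ALZ

/-- `R² (L0 R - 11/64)` -/
noncomputable def NMB_M (R : ℝ) : ℝ := 85 / 64 * R ^ 2 - R ^ 3 / 2 - 3 / 4 * R

/-- `R² loss` -/
noncomputable def NMB_g (R γ : ℝ) : ℝ :=
  3 * γ * (γ - 1 / 2) ^ 2 - if 7 / 10 ≤ γ then 3 * R * ((γ - 1 / 2) * (γ - 2 / 3)) else 0

theorem NMB_L0 {R : ℝ} (hR : 0 < R) : L0 R - 11 / 64 = NMB_M R / R ^ 2 := by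
  unfold L0 NMB_M
  field_simp
  ring

theorem NMB_loss {R : ℝ} (hR : 0 < R) (γ : ℝ) : loss (7 / 10) R γ = NMB_g R γ / R ^ 2 := by
  unfold loss NMB_g
  split_ifs with h
  · field_simp
  · simp

theorem NMB_M1 {R : ℝ} (h1 : 5 / 4 ≤ R) (h2 : R ≤ 3 / 2) : 161 / 1000 ≤ NMB_M R := by
  unfold NMB_M
  nlinarith [mul_nonneg (sub_nonneg.2 h1) (sub_nonneg.2 h2),
    mul_nonneg (mul_nonneg (sub_nonneg.2 h1) (sub_nonneg.2 h2)) (sub_nonneg.2 h1),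
    mul_nonneg (mul_nonneg (sub_nonneg.2 h1) (sub_nonneg.2 h2)) (sub_nonneg.2 h2)]

theorem NMB_M2 {R : ℝ} (h1 : 13 / 10 ≤ R) (h2 : R ≤ 3 / 2) : 168 / 1000 ≤ NMB_M R := by
  unfold NMB_M
  nlinarith [mul_nonneg (sub_nonneg.2 h1) (sub_nonneg.2 h2),
    mul_nonneg (mul_nonneg (sub_nonneg.2 h1) (sub_nonneg.2 h2)) (sub_nonneg.2 h1),
    mul_nonneg (mul_nonneg (sub_nonneg.2 h1) (sub_nonneg.2 h2)) (sub_nonneg.2 h2)]

theorem NMB_F3 {γ : ℝ} (h1 : 1 / 2 < γ) (h2 : γ ≤ 7 / 10) :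
    3 * γ * (γ - 1 / 2) ^ 2 ≤ 84 / 1000 := by
  have h3 : (γ - 1 / 2) ^ 2 ≤ (1 / 5) ^ 2 := by
    apply pow_le_pow_left₀ (by linarith); linarith
  nlinarith [sq_nonneg (γ - 1 / 2)]

theorem NMB_F4 {γ : ℝ} (h1 : 1 / 2 < γ) (h2 : γ ≤ 65 / 100) :
    3 * γ * (γ - 1 / 2) ^ 2 ≤ 439 / 10000 := by
  have h3 : (γ - 1 / 2) ^ 2 ≤ (15 / 100) ^ 2 := by
    apply pow_le_pow_left₀ (by linarith); linarith
  nlinarith [sq_nonneg (γ - 1 / 2)]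

theorem NMB_F5 {γ : ℝ} (h1 : 7 / 10 ≤ γ) (h2 : γ ≤ 1) :
    3 * γ * (γ - 1 / 2) ^ 2 - 15 / 4 * ((γ - 1 / 2) * (γ - 2 / 3)) ≤ 125 / 1000 ∧
    3 * γ * (γ - 1 / 2) ^ 2 - 9 / 2 * ((γ - 1 / 2) * (γ - 2 / 3)) ≤ 125 / 1000 := by
  have e1 := mul_nonneg (sub_nonneg.2 h1) (sub_nonneg.2 h2)
  have e2 := mul_nonneg e1 (sub_nonneg.2 h1)
  have e3 := mul_nonneg e1 (sub_nonneg.2 h2)
  constructor <;> nlinarith [e1, e2, e3]

theorem NMB_F6 {γ : ℝ} (h1 : 7 / 10 ≤ γ) (h2 : γ ≤ 3 / 4) :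
    3 * γ * (γ - 1 / 2) ^ 2 - 15 / 4 * ((γ - 1 / 2) * (γ - 2 / 3)) ≤ 84 / 1000 := by
  have e1 := mul_nonneg (sub_nonneg.2 h1) (sub_nonneg.2 h2)
  have e2 := mul_nonneg e1 (sub_nonneg.2 h1)
  have e3 := mul_nonneg e1 (sub_nonneg.2 h2)
  nlinarith [e1, e2, e3]

/-- one big square -/
theorem NMB_one {R γ : ℝ} (h1 : 5 / 4 ≤ R) (_h2 : R ≤ 3 / 2) (g1 : 1 / 2 < γ) (g2 : γ < 1) :
    NMB_g R γ ≤ 161 / 1000 := by
  unfold NMB_g
  split_ifs with h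
  · obtain ⟨a, b⟩ := NMB_F5 h g2.le
    have c : 0 ≤ (γ - 1 / 2) * (γ - 2 / 3) := mul_nonneg (by linarith) (by linarith)
    nlinarith [mul_nonneg (sub_nonneg.2 h1) c]
  · have := NMB_F3 g1 (not_le.1 h).le
    linarith

/-- one of two big squares -/
theorem NMB_two {R γ : ℝ} (h1 : 5 / 4 ≤ R) (_h2 : R ≤ 3 / 2) (g1 : 1 / 2 < γ)
    (g2 : γ ≤ R - 1 / 2) : NMB_g R γ ≤ 84 / 1000 := by
  unfold NMB_g
  split_ifs with h
  · have c : 0 ≤ (γ - 1 / 2) * (γ - 2 / 3) := mul_nonneg (by linarith) (by linarith)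
    rcases le_or_gt γ (3 / 4) with h3 | h3
    · have := NMB_F6 h h3
      nlinarith [mul_nonneg (sub_nonneg.2 h1) c]
    · have e : 3 * γ * (γ - 1 / 2) ^ 2 - 3 * (γ + 1 / 2) * ((γ - 1 / 2) * (γ - 2 / 3)) =
          (γ - 1 / 2) * (1 - γ) := by ring
      have e2 : (γ - 1 / 2) * (1 - γ) ≤ 84 / 1000 := by
        nlinarith [sq_nonneg (γ - 3 / 4)]
      nlinarith [mul_nonneg (sub_nonneg.2 g2) c]
  · have := NMB_F3 g1 (not_le.1 h).le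
    linarith

theorem NMB_small {R γ : ℝ} (g1 : 1 / 2 < γ) (g2 : γ ≤ 65 / 100) :
    NMB_g R γ ≤ 439 / 10000 := by
  unfold NMB_g
  rw [if_neg (by linarith)]
  have := NMB_F4 g1 g2
  linarith

theorem NMB_pair {R γ γ' : ℝ} (h1 : 5 / 4 ≤ R) (h2 : R ≤ 3 / 2) (g1 : 1 / 2 < γ)
    (g2 : 1 / 2 < γ') (g3 : γ + γ' ≤ R) (g4 : γ' ≤ γ) : NMB_g R γ + NMB_g R γ' ≤ NMB_M R := by
  have a := NMB_two h1 h2 g1 (by linarith)
  rcases le_or_gt (13 / 10) R with h | h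
  · have b := NMB_two h1 h2 g2 (by linarith)
    have c := NMB_M2 h h2
    linarith
  · have b := NMB_small (R := R) g2 (by linarith)
    have c := NMB_M1 h1 h2
    linarith

theorem thm_NMB : St_NMB := by
  intro R h1 h2
  have hR : 0 < R := by linarith
  have hR2 : 0 < R ^ 2 := by positivity
  refine ⟨?_, ?_, ?_, ?_⟩
  · intro γ g1 g2
    have hγ : 0 < γ := by linarith
    have h1γ : 0 < 1 - γ := by linarith
    have key : 0 ≤ R * (11 * γ - 8) + 8 * γ * (1 - γ) ^ 2 := by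
      rcases le_or_gt 0 (11 * γ - 8) with h | h
      · positivity
      · have e : 3 / 2 * (11 * γ - 8) ≤ R * (11 * γ - 8) := by nlinarith
        nlinarith [mul_nonneg (sub_nonneg.2 g1) hγ.le, mul_nonneg (sub_nonneg.2 g1) (sq_nonneg (1 - γ)),
          sq_nonneg (1 - γ), mul_nonneg (mul_nonneg (sub_nonneg.2 g1) h1γ.le) hγ.le]
    have e : 3 / (4 * (1 - γ)) + 2 * (1 - γ) / R - 2 / γ =
        (R * (11 * γ - 8) + 8 * γ * (1 - γ) ^ 2) / (4 * γ * (1 - γ) * R) := by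
      field_simp
      ring
    have : 0 ≤ 3 / (4 * (1 - γ)) + 2 * (1 - γ) / R - 2 / γ := by
      rw [e]; positivity
    linarith
  · have e := NMB_L0 hR
    have : 0 ≤ NMB_M R / R ^ 2 := div_nonneg (by linarith [NMB_M1 h1 h2]) hR2.le
    linarith
  · intro γ g1 g2
    rw [NMB_loss hR]
    have e := NMB_L0 hR
    have : NMB_g R γ / R ^ 2 ≤ NMB_M R / R ^ 2 := by
      apply div_le_div_of_nonneg_right _ hR2.le
      exact (NMB_one h1 h2 g1 g2).trans (NMB_M1 h1 h2)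
    linarith
  · intro γ γ' g1 g2 g3
    rw [NMB_loss hR, NMB_loss hR]
    have e := NMB_L0 hR
    have : (NMB_g R γ + NMB_g R γ') / R ^ 2 ≤ NMB_M R / R ^ 2 := by
      apply div_le_div_of_nonneg_right _ hR2.le
      rcases le_total γ' γ with h | h
      · exact NMB_pair h1 h2 g1 g2 g3 h
      · have := NMB_pair h1 h2 g2 g1 (by linarith) h
        linarith
    rw [add_div] at this
    linarith

end ALZ
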