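import Pool.Agent.ALZ.St

/-!
# ALZ, module OVL: edges with overlapping ranges
-/

set_option autoImplicit false

namespace ALZ

theorem OVL_cl0 {lo γ y : ℝ} (h : y ≤ lo) : cl lo γ y = 0 := by
  unfold cl
  rw [max_eq_left]
  exact (min_le_right _ _).trans (by linarith)

theorem OVL_cl1 {lo γ y : ℝ} (h0 : 0 ≤ γ) (h : lo + γ ≤ y) : cl lo γ y = γ := by
  unfold cl
  rw [min_eq_left (by linarith), max_eq_right h0]

theorem OVL_cl2 {lo γ y : ℝ} (h1 : lo ≤ y) (h2 : y ≤ lo + γ) : cl lo γ y = y - lo := by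
  unfold cl
  rw [min_eq_right (by linarith), max_eq_right (by linarith)]

theorem OVL_mono {lo γ y y' : ℝ} (h : y ≤ y') : cl lo γ y ≤ cl lo γ y' :=
  max_le_max le_rfl (min_le_min le_rfl (by linarith))

/-- overlapping ranges -/
theorem OVL_lt {V E : Type} {N : Nt V E} {ph : V → ℝ} {e j : E}
    (he : 0 ≤ N.d ph e) (hj : 0 ≤ N.d ph j) (h : 0 < N.lj ph e j) :
    ph (N.s e) < ph (N.t j) ∧ ph (N.s j) < ph (N.t e) ∧ ph (N.s e) < ph (N.t e) ∧
      ph (N.s j) < ph (N.t j) := by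
  have hl : N.lj ph e j = cl (ph (N.s j)) (N.d ph j) (ph (N.t e)) -
      cl (ph (N.s j)) (N.d ph j) (ph (N.s e)) := rfl
  have hd : N.d ph j = ph (N.t j) - ph (N.s j) := rfl
  have hde : N.d ph e = ph (N.t e) - ph (N.s e) := rfl
  have hle : ∀ y, cl (ph (N.s j)) (N.d ph j) y ≤ N.d ph j := fun y =>
    max_le hj (min_le_left _ _)
  have hge : ∀ y, 0 ≤ cl (ph (N.s j)) (N.d ph j) y := fun y => le_max_left _ _
  rw [hl] at h
  refine ⟨?_, ?_, ?_, ?_⟩
  · by_contra hcon
    have h1 : cl (ph (N.s j)) (N.d ph j) (ph (N.s e)) = N.d ph j :=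
      OVL_cl1 hj (by linarith)
    have h2 := hle (ph (N.t e))
    linarith
  · by_contra hcon
    have h1 : cl (ph (N.s j)) (N.d ph j) (ph (N.t e)) = 0 := OVL_cl0 (by linarith)
    have h2 := hge (ph (N.s e))
    linarith
  · by_contra hcon
    have h1 : ph (N.s e) = ph (N.t e) := by linarith
    rw [h1] at h
    linarith
  · by_contra hcon
    have h1 : N.d ph j = 0 := by linarith
    have h2 := hle (ph (N.t e))
    have h3 := hge (ph (N.s e))
    linarith

theorem OVL_one {V E : Type} [Fintype E] (N : Nt V E) (ph : V → ℝ) (R I : ℝ)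
    (G : V → V → ℝ) (hok : N.Ok ph R I G) (hr : ∀ x, 0 ≤ ph x ∧ ph x ≤ R) (e j : E)
    (hne : e ≠ j) (h : 0 < N.lj ph e j) : N.d ph e + N.d ph j ≤ I := by
  classical
  obtain ⟨h1, h2, h3, h4⟩ := OVL_lt (hok.up e) (hok.up j) h
  obtain ⟨τ, hτ1, hτ2⟩ : ∃ τ, max (ph (N.s e)) (ph (N.s j)) < τ ∧
      τ < min (ph (N.t e)) (ph (N.t j)) :=
    exists_between (max_lt (lt_min h3 h1) (lt_min h2 h4))
  rw [max_lt_iff] at hτ1
  rw [lt_min_iff] at hτ2
  have key := hok.fl (fun x => if τ < ph x then 1 else 0)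
  have ha : (if τ < ph N.a then (1 : ℝ) else 0) = 0 := by
    rw [if_neg]
    rw [hok.a0]
    have := (hr (N.s j)).1
    linarith [hτ1.2]
  have hb : (if τ < ph N.b then (1 : ℝ) else 0) = 1 := by
    rw [if_pos]
    rw [hok.bR]
    have := (hr (N.t j)).2
    linarith [hτ2.2]
  rw [ha, hb] at key
  have hnn : ∀ e', 0 ≤ N.d ph e' * N.d (fun x => if τ < ph x then (1 : ℝ) else 0) e' := by
    intro e'
    refine mul_nonneg (hok.up e') ?_
    show 0 ≤ (if τ < ph (N.t e') then (1 : ℝ) else 0) - if τ < ph (N.s e') then (1 : ℝ) else 0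
    have hup : 0 ≤ ph (N.t e') - ph (N.s e') := hok.up e'
    split_ifs with h5 h6
    · norm_num
    · norm_num
    · exfalso
      linarith
    · norm_num
  have hE : N.d (fun x => if τ < ph x then (1 : ℝ) else 0) e = 1 := by
    show (if τ < ph (N.t e) then (1 : ℝ) else 0) - (if τ < ph (N.s e) then (1 : ℝ) else 0) = 1
    rw [if_pos hτ2.1, if_neg (not_lt.2 hτ1.1.le)]
    norm_num
  have hJ : N.d (fun x => if τ < ph x then (1 : ℝ) else 0) j = 1 := by
    show (if τ < ph (N.t j) then (1 : ℝ) else 0) - (if τ < ph (N.s j) then (1 : ℝ) else 0) = 1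
    rw [if_pos hτ2.2, if_neg (not_lt.2 hτ1.2.le)]
    norm_num
  have hsum : ∑ e' ∈ ({e, j} : Finset E),
      N.d ph e' * N.d (fun x => if τ < ph x then (1 : ℝ) else 0) e' ≤
      ∑ e', N.d ph e' * N.d (fun x => if τ < ph x then (1 : ℝ) else 0) e' :=
    Finset.sum_le_sum_of_subset_of_nonneg (Finset.subset_univ _) (fun e' _ _ => hnn e')
  rw [Finset.sum_pair hne, hE, hJ, key] at hsum
  linarith

theorem thm_OVL (hRNG : St_RNG) (hFLJ : St_FLJ) : St_OVL := by
  classical
  intro V E _ N ph R I G hok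
  have hr := (hRNG V E N ph R I G hok).1
  have h1 : ∀ e j, e ≠ j → 0 < N.lj ph e j → N.d ph e + N.d ph j ≤ I := fun e j =>
    OVL_one N ph R I G hok hr e j
  refine ⟨h1, ?_, ?_⟩
  · intro e j j' hne hI hin
    have h2 : ¬ 0 < N.lj ph j j' := fun h3 => by
      have := h1 j j' hne h3
      linarith
    have h3 := ((hFLJ V E N ph R I G j' hok).2.1 e).1
    have h4 : N.lj ph e j' ≤ N.lj ph j j' := by
      show cl (ph (N.s j')) (N.d ph j') (ph (N.t e)) -
          cl (ph (N.s j')) (N.d ph j') (ph (N.s e)) ≤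
        cl (ph (N.s j')) (N.d ph j') (ph (N.t j)) -
          cl (ph (N.s j')) (N.d ph j') (ph (N.s j))
      exact sub_le_sub (OVL_mono hin.2) (OVL_mono hin.1)
    linarith
  · intro e j hne hI hl hin
    have h5 := h1 e j hne hl
    obtain ⟨a1, a2, a3, a4⟩ := OVL_lt (hok.up e) (hok.up j) hl
    have hlj : N.lj ph e j = N.cj ph j (N.t e) - N.cj ph j (N.s e) := rfl
    have hd : N.d ph j = ph (N.t j) - ph (N.s j) := rfl
    have hde : N.d ph e = ph (N.t e) - ph (N.s e) := rfl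
    have hj := hok.up j
    rcases lt_or_ge (ph (N.s e)) (ph (N.s j)) with h6 | h6
    · have h7 : ph (N.t e) ≤ ph (N.t j) := by
        by_contra hcon
        linarith
      have h8 : N.cj ph j (N.s e) = 0 := OVL_cl0 h6.le
      have h9 : N.cj ph j (N.t e) = ph (N.t e) - ph (N.s j) :=
        OVL_cl2 a2.le (by linarith)
      refine ⟨by linarith, Or.inr ⟨h8, by linarith⟩⟩
    · have h7 : ph (N.t j) < ph (N.t e) := by
        by_contra hcon
        exact hin ⟨h6, not_lt.1 hcon⟩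
      have h8 : N.cj ph j (N.t e) = N.d ph j := OVL_cl1 hj (by linarith)
      have h9 : N.cj ph j (N.s e) = ph (N.s e) - ph (N.s j) :=
        OVL_cl2 h6 (by linarith)
      refine ⟨by linarith, Or.inl ⟨h8, by linarith⟩⟩

end ALZ
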