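import Pool.Agent.ALZ.St

/-!
# ALZ [PRT]: the strip inequality for every edge
-/

set_option autoImplicit false

namespace ALZ

/-- the real inequality for an edge which is not inside the strip -/
lemma PRT_real (γ w s l : ℝ) (hγ : 0 < γ) (hw : 4 * w ≤ 3 * γ) (hl : 0 < l) (hls : l < s)
    (hsw : s ≤ w) : s * (3 / 2 * γ * l ^ 2 - l ^ 3 -
      (3 / 4 * (w * γ) + 3 / 4 * (γ * s) - s ^ 2) * l) ≤ 0 := by
  have hs : 0 < s := hl.trans hls
  have h1 : 3 / 2 * γ * l - l ^ 2 ≤ 3 / 4 * (w * γ) + 3 / 4 * (γ * s) - s ^ 2 := by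
    have h2 : 0 ≤ (s - l) * (3 / 2 * γ - s - l) := by
      apply mul_nonneg <;> linarith
    have h3 : γ * s ≤ γ * w := mul_le_mul_of_nonneg_left hsw hγ.le
    nlinarith
  have h4 : 3 / 2 * γ * l ^ 2 - l ^ 3 - (3 / 4 * (w * γ) + 3 / 4 * (γ * s) - s ^ 2) * l =
      l * ((3 / 2 * γ * l - l ^ 2) - (3 / 4 * (w * γ) + 3 / 4 * (γ * s) - s ^ 2)) := by ring
  rw [h4]
  apply mul_nonpos_of_nonneg_of_nonpos hs.le
  apply mul_nonpos_of_nonneg_of_nonpos hl.le
  linarith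

/-- [PRT] the strip inequality for every edge -/
theorem thm_PRT (_hGEX : St_GEX) (_hGMP : St_GMP) (_hRNG : St_RNG) (hFLJ : St_FLJ) (hOVL : St_OVL)
    (hSTP : St_STP) : St_PRT := by
  classical
  intro V E _ _ N ph R I G e j hok hej hj0 hjI h43 P w γ hγ hw hP
  obtain ⟨-, hlj, -, -, -, -, hins⟩ := hFLJ V E N ph R I G j hok
  obtain ⟨ho1, -, ho3⟩ := hOVL V E N ph R I G hok
  have hld : N.lj ph e j = N.cj ph j (N.t e) - N.cj ph j (N.s e) := rfl
  refine ⟨fun hI => ?_, fun hI => ?_⟩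
  · obtain ⟨h1, h2⟩ := hins e hI
    have h3 := hSTP V E N ph R I G e j hok hej hj0 hjI hI
    have h4 : N.cj ph j (N.t e) = N.cj ph j (N.s e) + N.d ph e := by rw [h1, h2]
    rw [h4] at h3
    rw [hld, h4, hP, hP]
    rw [← hγ, ← hw] at h3
    set y := N.cj ph j (N.s e)
    set s := N.d ph e
    set g := G (N.s e) (N.t e)
    have h5 := mul_le_mul_of_nonneg_left h3 (mul_nonneg (by norm_num : (0 : ℝ) ≤ 3 / 4)
      (sq_nonneg s))
    have h6 : s * (3 / 2 * γ * (y + s) ^ 2 - (y + s) ^ 3 - (3 / 2 * γ * y ^ 2 - y ^ 3) -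
        (3 / 4 * (w * γ) + 3 / 4 * (γ * s) - s ^ 2) * (y + s - y)) =
        3 / 4 * s ^ 2 * (Ps γ y (y + s) - w * γ + s ^ 2) := by
      unfold Ps
      ring
    rw [h6]
    refine h5.trans (le_of_eq ?_)
    ring
  · rcases (hlj e).1.eq_or_lt with h0 | h0
    · have h1 : N.cj ph j (N.t e) = N.cj ph j (N.s e) := by linarith
      rw [← h0, h1]
      simp
    · obtain ⟨h1, h2⟩ := ho3 e j hej (by linarith) h0 hI
      have h3 := ho1 e j hej h0
      have h4 := PRT_real γ w (N.d ph e) (N.lj ph e j) (by rw [hγ]; exact hj0)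
        (by rw [hw, hγ]; exact h43) h0 h1 (by rw [hw, hγ]; linarith)
      rcases h2 with ⟨h5, h6⟩ | ⟨h5, h6⟩
      · rw [h5, h6, hP, hP, ← hγ]
        refine le_trans (le_of_eq ?_) h4
        ring
      · rw [h5, h6, hP, hP]
        refine le_trans (le_of_eq ?_) h4
        ring

end ALZ
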