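import Pool.Agent.ALZ.St

/-!
# ALZ [RNG]: range of the potential (helper67)
-/

set_option autoImplicit false

namespace ALZ

variable {V E : Type} [Fintype E]

omit [Fintype E] in
theorem RNG_van (N : Nt V E) {f : V → ℝ} (ha : f N.a = 0) (hb : f N.b = 0) : Van N.In f := by
  intro x hx
  have h : x = N.a ∨ x = N.b := by
    by_contra hcon
    rw [not_or] at hcon
    exact hx hcon
  rcases h with h | h
  · rw [h]; exact ha
  · rw [h]; exact hb

theorem RNG_fw_comm (N : Nt V E) (c : E → ℝ) (f g : V → ℝ) : N.fw c f g = N.fw c g f := by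
  unfold Nt.fw
  exact Finset.sum_congr rfl fun e _ => by rw [mul_comm (N.d f e)]

theorem RNG_fw_sub (N : Nt V E) (c : E → ℝ) (f g h : V → ℝ) :
    N.fw c (fun x => f x - g x) h = N.fw c f h - N.fw c g h := by
  unfold Nt.fw
  rw [← Finset.sum_sub_distrib]
  refine Finset.sum_congr rfl fun e _ => ?_
  unfold Nt.d
  ring

theorem RNG_rep {N : Nt V E} {c : E → ℝ} {W : Set V} {G : V → V → ℝ} (hG : N.Gr c W G)
    (x : V) {h : V → ℝ} (hh : Van W h) : N.fw c (G x) h = h x := by
  by_cases hx : x ∈ W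
  · exact hG.rep x hx h hh
  · rw [hh x hx]
    unfold Nt.fw
    refine Finset.sum_eq_zero fun e _ => ?_
    unfold Nt.d
    rw [hG.out x hx, hG.out x hx]
    ring

theorem RNG_symm {N : Nt V E} {c : E → ℝ} {W : Set V} {G : V → V → ℝ} (hG : N.Gr c W G)
    (x y : V) : G x y = G y x := by
  rw [← RNG_rep hG y (hG.van x), ← RNG_rep hG x (hG.van y), RNG_fw_comm]

theorem RNG_zero {N : Nt V E} {ph : V → ℝ} {R I : ℝ} {G : V → V → ℝ} (hN : N.Ok ph R I G)
    {m : V → ℝ} (ha : m N.a = 0) (hb : m N.b = 0)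
    (hm : ∀ e, (N.d m e) ^ 2 ≤ N.d ph e * N.d m e) (x : V) : m x = 0 := by
  refine hN.pd m (RNG_van N ha hb) ?_ x
  refine le_antisymm ?_ ?_
  · have h1 := hN.fl m
    rw [ha, hb, sub_zero, mul_zero] at h1
    rw [← h1]
    unfold Nt.fw
    refine Finset.sum_le_sum fun e _ => ?_
    rw [one_mul, ← sq]
    exact hm e
  · unfold Nt.fw
    refine Finset.sum_nonneg fun e _ => ?_
    rw [one_mul, ← sq]
    exact sq_nonneg _

theorem RNG_min (u v : ℝ) (h : 0 ≤ v - u) :
    (min v 0 - min u 0) ^ 2 ≤ (v - u) * (min v 0 - min u 0) := by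
  rcases le_total u 0 with h1 | h1 <;> rcases le_total v 0 with h2 | h2
  · rw [min_eq_left h1, min_eq_left h2]
    nlinarith
  · rw [min_eq_left h1, min_eq_right h2]
    nlinarith
  · rw [min_eq_right h1, min_eq_left h2]
    nlinarith
  · rw [min_eq_right h1, min_eq_right h2]
    simp

theorem RNG_max (R u v : ℝ) (h : 0 ≤ v - u) :
    (max (v - R) 0 - max (u - R) 0) ^ 2 ≤ (v - u) * (max (v - R) 0 - max (u - R) 0) := by
  rcases le_total (u - R) 0 with h1 | h1 <;> rcases le_total (v - R) 0 with h2 | h2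
  · rw [max_eq_right h1, max_eq_right h2]
    simp
  · rw [max_eq_right h1, max_eq_left h2]
    nlinarith
  · rw [max_eq_left h1, max_eq_right h2]
    nlinarith
  · rw [max_eq_left h1, max_eq_left h2]
    nlinarith

theorem thm_RNG : St_RNG := by
  intro V E _ N ph R I G hN
  refine ⟨fun x => ⟨?_, ?_⟩, ?_, fun e => ?_⟩
  · have h : min (ph x) 0 = 0 := RNG_zero hN (m := fun x => min (ph x) 0) (by simp [hN.a0])
      (by simp [hN.bR, hN.R0.le]) (fun e => RNG_min (ph (N.s e)) (ph (N.t e)) (hN.up e)) x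
    by_contra hlt
    rw [not_le] at hlt
    rw [min_eq_left hlt.le] at h
    linarith
  · have h : max (ph x - R) 0 = 0 := RNG_zero hN (m := fun x => max (ph x - R) 0)
      (by simp [hN.a0, hN.R0.le]) (by simp [hN.bR])
      (fun e => RNG_max R (ph (N.s e)) (ph (N.t e)) (hN.up e)) x
    by_contra hlt
    rw [not_le] at hlt
    rw [max_eq_left (by linarith)] at h
    linarith
  · have h := hN.fl ph
    rw [hN.a0, hN.bR, sub_zero] at h
    rw [← h]
    exact Finset.sum_congr rfl fun e _ => by ring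
  · have hv : Van N.In (fun x => G (N.t e) x - G (N.s e) x) := by
      intro x hx
      show G (N.t e) x - G (N.s e) x = 0
      rw [hN.gr.van (N.t e) x hx, hN.gr.van (N.s e) x hx, sub_zero]
    have h1 : N.fw (fun _ => 1) (fun x => G (N.t e) x - G (N.s e) x)
        (fun x => G (N.t e) x - G (N.s e) x) = N.gm G e := by
      rw [RNG_fw_sub, RNG_rep hN.gr _ hv, RNG_rep hN.gr _ hv]
      unfold Nt.gm
      rw [RNG_symm hN.gr (N.t e) (N.s e)]
      ring
    rw [← h1]
    unfold Nt.fw
    refine Finset.sum_nonneg fun e' _ => ?_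
    rw [one_mul]
    exact mul_self_nonneg _

end ALZ
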