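import Pool.Agent.ALZ.St

/-!
# ALZ: the bound for `R ≤ 3/2` in terms of the big squares
-/

set_option autoImplicit false

namespace ALZ

private lemma SMA_nonneg (hGMP : St_GMP) {V E : Type} [Fintype E] {N : Nt V E} {ph : V → ℝ}
    {R I : ℝ} {G : V → V → ℝ} (h : N.Ok ph R I G) (x y : V) : 0 ≤ G x y :=
  (hGMP V E N (fun _ => 1) (fun _ => 1) N.In N.In G G (fun _ => zero_le_one) h.pd h.gr h.pd h.gr
    (le_refl _) (fun _ _ _ => rfl) (fun _ _ => le_rfl) x y).1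

private lemma SMA_zh {V V' E : Type} [Fintype E] (N : Nt V E) (N' : Nt V' E) (ph : V → ℝ) (R : ℝ)
    (G : V → V → ℝ) (G' : V' → V' → ℝ) :
    zh N N' ph R G G' = 3 / 2 - (R + 1 / R) / 2 - ∑ e, (N.d ph e ^ 2 / R) ^ 2 +
      3 / R * ∑ e, N.d ph e ^ 2 * G (N.s e) (N.t e) +
      3 / R * ∑ e, N.d ph e ^ 2 * G' (N'.s e) (N'.t e) := by
  unfold zh
  rw [add_assoc]
  congr 1
  rw [Finset.mul_sum, Finset.mul_sum, Finset.mul_sum, ← Finset.sum_add_distrib]
  refine Finset.sum_congr rfl fun e _ => ?_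
  ring

theorem thm_SMA (hGMP : St_GMP) (hSQA : St_SQA) (hHSM : St_HSM) (hDSJ : St_DSJ) : St_SMA := by
  intro V V' E _ _ _ N N' ph x R g0 G G' J hG hJ hg0 hnum
  have hd := hG.dual
  have hR1 := hG.r1
  have hR : 0 < R := by linarith
  have hbig : ∀ j ∈ J, (1 : ℝ) < 2 * N.d ph j := by
    intro j hj
    have := (hJ j).1 hj
    linarith
  have hD := hDSJ V E N ph R 1 G J hd.ok hbig
  have hS := hSQA V E N ph R g0 G J hd.ok hR1 hG.lt1 hJ hg0 hnum
  have hz := SMA_zh N N' ph R G G'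
  have hL : L0 R = 3 / 2 - (R + 1 / R) / 2 + -1 / (4 * R) := by
    unfold L0
    field_simp
    ring
  refine ⟨hD.2.1, ?_, ?_⟩
  · have h0 : 0 ≤ ∑ e, N.d ph e ^ 2 * G' (N'.s e) (N'.t e) :=
      Finset.sum_nonneg fun e _ => mul_nonneg (sq_nonneg _) (SMA_nonneg hGMP hd.ok' _ _)
    have h1 : 0 ≤ 3 / R * ∑ e, N.d ph e ^ 2 * G' (N'.s e) (N'.t e) :=
      mul_nonneg (by positivity) h0
    rw [hz, hL]
    linarith
  · intro j hj h3
    have hc : N'.d x j = N.d ph j := (hd.cur j).symm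
    have hj0 : 0 < N.d ph j := by
      have := hbig j hj
      linarith
    have hjR : N.d ph j < R := hG.ltR j
    have hlt := hG.lt1 j
    have h4 := hHSM V' E N' x 1 R G' j hd.ok' (by rw [hc]; exact hj0) (by rw [hc]; exact hjR)
      (by rw [hc]; nlinarith)
    rw [hc] at h4
    have h5 : ∑ e, N'.d x e ^ 2 * G' (N'.s e) (N'.t e) =
        ∑ e, N.d ph e ^ 2 * G' (N'.s e) (N'.t e) :=
      Finset.sum_congr rfl fun e _ => by rw [hd.cur e]
    rw [h5] at h4
    have h6 : gainH R (N.d ph j) ≤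
        3 / R * ∑ e, N.d ph e ^ 2 * G' (N'.s e) (N'.t e) := by
      have h7 : gainH R (N.d ph j) =
          (N.d ph j ^ 2 / 2 - 3 / 2 * ((R - N.d ph j) * N.d ph j)) / R := by
        unfold gainH
        field_simp
        ring
      rw [h7, div_le_iff₀ hR]
      calc _ ≤ 3 * ∑ e, N.d ph e ^ 2 * G' (N'.s e) (N'.t e) := h4
        _ = _ := by field_simp
    rw [hz, hL]
    linarith

end ALZ
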