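import Pool.Agent.ALZ.St

/-!
# ALZ: the sum of the fourth powers and the strips
-/

set_option autoImplicit false

namespace ALZ

/-- the sum of the fourth powers, abstract form -/
theorem SQA_four {E : Type} [Fintype E] [DecidableEq E] (s : E → ℝ) (l : E → E → ℝ)
    (J : Finset E) (R : ℝ) (hs : ∀ e, 0 ≤ s e) (hB : ∑ e, s e ^ 2 = R)
    (hC : ∀ j ∈ J, (∑ e, if e = j then 0 else s e * l e j) = (1 - s j) * s j)
    (hD : ∀ e, ∑ j ∈ J, l e j ≤ s e)
    (hE : ∀ e ∈ J, ∀ j ∈ J, e ≠ j → l e j = 0) (hF : ∀ e, e ∉ J → s e ≤ 1 / 2) :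
    ∑ e, s e ^ 4 ≤ ∑ j ∈ J, s j ^ 4 + (R - ∑ j ∈ J, s j) / 4 +
      ∑ j ∈ J, ∑ e, if e = j then 0 else s e * l e j * s e ^ 2 := by
  have h1 : ∀ e, s e ^ 4 ≤ (if e ∈ J then s e ^ 4 - s e ^ 2 / 4 else 0) + s e ^ 2 / 4 +
      ∑ j ∈ J, (if e = j then 0 else s e * l e j * (s e ^ 2 - 1 / 4)) := by
    intro e
    by_cases he : e ∈ J
    · rw [if_pos he]
      have h0 : ∑ j ∈ J, (if e = j then (0 : ℝ) else s e * l e j * (s e ^ 2 - 1 / 4)) = 0 := by
        apply Finset.sum_eq_zero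
        intro j hj
        by_cases hej : e = j
        · rw [if_pos hej]
        · rw [if_neg hej, hE e he j hj hej]
          ring
      rw [h0]
      linarith
    · rw [if_neg he]
      have h0 : ∑ j ∈ J, (if e = j then (0 : ℝ) else s e * l e j * (s e ^ 2 - 1 / 4)) =
          (s e * (s e ^ 2 - 1 / 4)) * ∑ j ∈ J, l e j := by
        rw [Finset.mul_sum]
        apply Finset.sum_congr rfl
        intro j hj
        have hej : e ≠ j := by
          intro h
          apply he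
          rw [h]
          exact hj
        rw [if_neg hej]
        ring
      rw [h0]
      have h2 : s e ^ 2 ≤ 1 / 4 := by
        have := hF e he
        have := hs e
        nlinarith
      have h3 : 0 ≤ s e * (1 / 4 - s e ^ 2) := mul_nonneg (hs e) (by linarith)
      have h4 := mul_le_mul_of_nonneg_left (hD e) h3
      nlinarith
  have h2 : ∑ e, s e ^ 4 ≤ ∑ e, ((if e ∈ J then s e ^ 4 - s e ^ 2 / 4 else 0) + s e ^ 2 / 4 +
      ∑ j ∈ J, (if e = j then 0 else s e * l e j * (s e ^ 2 - 1 / 4))) :=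
    Finset.sum_le_sum fun e _ => h1 e
  refine h2.trans (le_of_eq ?_)
  rw [Finset.sum_add_distrib, Finset.sum_add_distrib, Finset.sum_comm, ← Finset.sum_div, hB]
  have h3 : (∑ e, if e ∈ J then s e ^ 4 - s e ^ 2 / 4 else 0) =
      ∑ j ∈ J, s j ^ 4 - (∑ j ∈ J, s j ^ 2) / 4 := by
    rw [Finset.sum_ite_mem, Finset.univ_inter, Finset.sum_sub_distrib, Finset.sum_div]
  rw [h3]
  have h4 : ∀ j ∈ J, (∑ e, if e = j then (0 : ℝ) else s e * l e j * (s e ^ 2 - 1 / 4)) =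
      (∑ e, if e = j then 0 else s e * l e j * s e ^ 2) - ((1 - s j) * s j) / 4 := by
    intro j hj
    rw [← hC j hj, Finset.sum_div, ← Finset.sum_sub_distrib]
    apply Finset.sum_congr rfl
    intro e _
    by_cases hej : e = j
    · rw [if_pos hej, if_pos hej, if_pos hej]
      ring
    · rw [if_neg hej, if_neg hej, if_neg hej]
      ring
  rw [Finset.sum_congr rfl h4, Finset.sum_sub_distrib, ← Finset.sum_div]
  have h5 : ∑ j ∈ J, (1 - s j) * s j = ∑ j ∈ J, s j - ∑ j ∈ J, s j ^ 2 := by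
    rw [← Finset.sum_sub_distrib]
    apply Finset.sum_congr rfl
    intro j _
    ring
  rw [h5]
  ring

/-- the elementary inequality for `c_j(s) + s^2/R` -/
theorem SQA_c (s w γ R : ℝ) (hs : 0 ≤ s) (hsw : s ≤ w) (hw : 0 < w) (hγ : 0 < γ)
    (hwγ : w + γ = 1) (hR : 1 ≤ R) (h : 2 / γ ≤ 3 / (4 * w) + 2 * w / R) :
    (3 / 4 + 3 / 4 * (s / w) - s ^ 2 / (w * γ)) + s ^ 2 / R ≤ 3 / 2 - w / γ + w ^ 2 / R := by
  have hR0 : 0 < R := by linarith
  have hp : 0 < w * γ := mul_pos hw hγ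
  have e1 : (3 / 2 - w / γ + w ^ 2 / R) -
      ((3 / 4 + 3 / 4 * (s / w) - s ^ 2 / (w * γ)) + s ^ 2 / R) =
      (w - s) * ((3 / (4 * w) + 2 * w / R - 2 / γ) + (w - s) * (1 / (w * γ) - 1 / R)) := by
    field_simp
    ring
  have h1 : 1 / R ≤ 1 := by
    rw [div_le_one hR0]
    exact hR
  have h2 : 1 ≤ 1 / (w * γ) := by
    rw [le_div_iff₀ hp]
    nlinarith
  have h3 : 0 ≤ (w - s) * ((3 / (4 * w) + 2 * w / R - 2 / γ) +
      (w - s) * (1 / (w * γ) - 1 / R)) := by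
    apply mul_nonneg (by linarith)
    apply add_nonneg (by linarith)
    exact mul_nonneg (by linarith) (by linarith)
  linarith

/-- the term of `j`, with the strip -/
theorem SQA_in (γ R A B : ℝ) (hR : 0 < R) (hγ : 0 < γ)
    (h : B + A / R ≤ (3 / 2 - (1 - γ) / γ + (1 - γ) ^ 2 / R) * ((1 - γ) * γ)) :
    -(3 * γ * (γ - 1 / 2) ^ 2 / R ^ 2 - 3 / R * ((γ - 1 / 2) * (γ - 2 / 3))) ≤
      (γ ^ 2 / 2 - B) / R - (γ ^ 4 - γ / 4 + A) / R ^ 2 := by
  have h1 := div_le_div_of_nonneg_right h hR.le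
  have e1 : (γ ^ 2 / 2 - B) / R - (γ ^ 4 - γ / 4 + A) / R ^ 2 =
      γ ^ 2 / 2 / R - (γ ^ 4 - γ / 4) / R ^ 2 - (B + A / R) / R := by
    field_simp
    ring
  have e2 : γ ^ 2 / 2 / R - (γ ^ 4 - γ / 4) / R ^ 2 -
      (3 / 2 - (1 - γ) / γ + (1 - γ) ^ 2 / R) * ((1 - γ) * γ) / R =
      -(3 * γ * (γ - 1 / 2) ^ 2 / R ^ 2 - 3 / R * ((γ - 1 / 2) * (γ - 2 / 3))) := by
    field_simp
    ring
  rw [e1, ← e2]
  linarith

/-- the term of `j`, without the strip -/
theorem SQA_out (γ R A : ℝ) (hR : 0 < R) (h : A ≤ (1 - γ) ^ 2 * ((1 - γ) * γ)) :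
    -(3 * γ * (γ - 1 / 2) ^ 2 / R ^ 2) ≤ -((γ ^ 4 - γ / 4 + A) / R ^ 2) := by
  apply neg_le_neg
  apply div_le_div_of_nonneg_right _ (by positivity)
  nlinarith

theorem thm_SQA (hRNG : St_RNG) (hFLJ : St_FLJ) (hOVL : St_OVL) (hDSJ : St_DSJ)
    (hVSM : St_VSM) : St_SQA := by
  classical
  intro V E _ _ N ph R g0 G J hok hR h1 hJ hg hin
  have hR0 : 0 < R := by linarith
  obtain ⟨-, hsq, -⟩ := hRNG V E N ph R 1 G hok
  obtain ⟨hov, -, -⟩ := hOVL V E N ph R 1 G hok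
  have hJ2 : ∀ j ∈ J, (1 : ℝ) < 2 * N.d ph j := by
    intro j hj
    have := (hJ j).1 hj
    linarith
  obtain ⟨hd1, -, hd3⟩ := hDSJ V E N ph R 1 G J hok hJ2
  have hs : ∀ e, 0 ≤ N.d ph e := hok.up
  have hl0 : ∀ e j, 0 ≤ N.lj ph e j := fun e j => ((hFLJ V E N ph R 1 G j hok).2.1 e).1
  have hC : ∀ j, (∑ e, if e = j then 0 else N.d ph e * N.lj ph e j) =
      (1 - N.d ph j) * N.d ph j := by
    intro j
    have := (hFLJ V E N ph R 1 G j hok).1 (fun y => y)
    simp only [sub_zero] at this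
    rw [← this]
    rfl
  have hfour := SQA_four (fun e => N.d ph e) (fun e j => N.lj ph e j) J R hs
    (by rw [hsq, one_mul]) (fun j _ => hC j) hd1 hd3
    (fun e he => not_lt.1 fun h => he ((hJ e).2 h))
  -- the bound for a sum over the edges with a part in the range of `j`
  have key : ∀ j, ∀ f : E → ℝ, ∀ C : ℝ, (∀ e, N.d ph e ≤ 1 - N.d ph j → f e ≤ C) →
      (∑ e, if e = j then 0 else N.d ph e * N.lj ph e j * f e) ≤
        C * ((1 - N.d ph j) * N.d ph j) := by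
    intro j f C hf
    rw [← hC j, Finset.mul_sum]
    apply Finset.sum_le_sum
    intro e _
    by_cases hej : e = j
    · rw [if_pos hej, if_pos hej, mul_zero]
    · rw [if_neg hej, if_neg hej]
      rcases (hl0 e j).eq_or_lt with h0 | h0
      · rw [← h0]
        simp
      · have h3 := hov e j hej h0
        have h4 := hf e (by linarith)
        have h5 := mul_nonneg (hs e) h0.le
        nlinarith [mul_le_mul_of_nonneg_left h4 h5]
  set A : E → ℝ := fun j => ∑ e, if e = j then 0 else N.d ph e * N.lj ph e j * N.d ph e ^ 2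
    with hA
  set B : E → ℝ := fun j => ∑ e, if e = j then 0 else N.d ph e * N.lj ph e j *
    (3 / 4 + 3 / 4 * (N.d ph e / (1 - N.d ph j)) -
      N.d ph e ^ 2 / ((1 - N.d ph j) * N.d ph j)) with hBdef
  have hU := hVSM V E N ph R 1 G (J.filter fun j => g0 ≤ N.d ph j) hok (by
    intro j hj
    rw [Finset.mem_filter] at hj
    have := hj.2
    refine ⟨by linarith, h1 j, by linarith⟩)
  have hU' : ∑ j ∈ J, (if g0 ≤ N.d ph j then N.d ph j ^ 2 / 2 - B j else 0) ≤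
      3 * ∑ e, N.d ph e ^ 2 * G (N.s e) (N.t e) := by
    rw [← Finset.sum_filter]
    exact hU
  have hterm : ∀ j ∈ J, -loss g0 R (N.d ph j) ≤
      (if g0 ≤ N.d ph j then N.d ph j ^ 2 / 2 - B j else 0) / R -
        (N.d ph j ^ 4 - N.d ph j / 4 + A j) / R ^ 2 := by
    intro j hj
    have hγ2 := (hJ j).1 hj
    have hγ0 : 0 < N.d ph j := by linarith
    have hγ1 := h1 j
    by_cases hgj : g0 ≤ N.d ph j
    · rw [if_pos hgj, loss, if_pos hgj]
      apply SQA_in _ _ _ _ hR0 hγ0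
      have e1 : B j + A j / R = ∑ e, if e = j then 0 else N.d ph e * N.lj ph e j *
          ((3 / 4 + 3 / 4 * (N.d ph e / (1 - N.d ph j)) -
            N.d ph e ^ 2 / ((1 - N.d ph j) * N.d ph j)) + N.d ph e ^ 2 / R) := by
        rw [hA, hBdef]
        simp only
        rw [Finset.sum_div, ← Finset.sum_add_distrib]
        apply Finset.sum_congr rfl
        intro e _
        by_cases hej : e = j
        · rw [if_pos hej, if_pos hej, if_pos hej]
          simp
        · rw [if_neg hej, if_neg hej, if_neg hej]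
          ring
      rw [e1]
      apply key j
      intro e he
      exact SQA_c _ _ _ _ (hs e) he (by linarith) hγ0 (by ring) hR (hin _ hgj hγ1)
    · rw [if_neg hgj, loss, if_neg hgj, sub_zero, zero_div, zero_sub]
      apply SQA_out _ _ _ hR0
      apply key j
      intro e he
      have := hs e
      nlinarith
  have hsum := Finset.sum_le_sum hterm
  rw [Finset.sum_neg_distrib, Finset.sum_sub_distrib, ← Finset.sum_div, ← Finset.sum_div] at hsum
  have e2 : ∑ j ∈ J, (N.d ph j ^ 4 - N.d ph j / 4 + A j) =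
      ∑ j ∈ J, N.d ph j ^ 4 - (∑ j ∈ J, N.d ph j) / 4 + ∑ j ∈ J, A j := by
    rw [Finset.sum_add_distrib, Finset.sum_sub_distrib, Finset.sum_div]
  rw [e2] at hsum
  have h6 : (∑ j ∈ J, if g0 ≤ N.d ph j then N.d ph j ^ 2 / 2 - B j else 0) / R ≤
      3 / R * ∑ e, N.d ph e ^ 2 * G (N.s e) (N.t e) := by
    have := div_le_div_of_nonneg_right hU' hR0.le
    refine this.trans (le_of_eq ?_)
    ring
  have e3 : ∑ e, (N.d ph e ^ 2 / R) ^ 2 = (∑ e, N.d ph e ^ 4) / R ^ 2 := by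
    rw [Finset.sum_div]
    apply Finset.sum_congr rfl
    intro e _
    ring
  have h7 : (∑ e, N.d ph e ^ 4) / R ^ 2 ≤ (∑ j ∈ J, N.d ph j ^ 4 +
      (R - ∑ j ∈ J, N.d ph j) / 4 + ∑ j ∈ J, A j) / R ^ 2 :=
    div_le_div_of_nonneg_right hfour (by positivity)
  have e4 : (∑ j ∈ J, N.d ph j ^ 4 + (R - ∑ j ∈ J, N.d ph j) / 4 + ∑ j ∈ J, A j) / R ^ 2 =
      (∑ j ∈ J, N.d ph j ^ 4 - (∑ j ∈ J, N.d ph j) / 4 + ∑ j ∈ J, A j) / R ^ 2 + 1 / (4 * R) := by
    field_simp
    ring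
  rw [e3]
  have e5 : (-1 : ℝ) / (4 * R) = -(1 / (4 * R)) := by ring
  rw [e5]
  linarith

end ALZ
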