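import Pool.Agent.ALZ.St

/-!
# ALZ, module STP

An edge inside of the strip of a big edge. Statement and proof: `St_STP` in `Pool/Agent/ALZ/St.lean`.
-/

set_option autoImplicit false
set_option linter.unusedSectionVars false

namespace ALZ

private theorem STP_cl {lo γ y : ℝ} (h1 : 0 < cl lo γ y) (h2 : cl lo γ y < γ) :
    cl lo γ y = y - lo := by
  unfold cl at *
  rcases le_total γ (y - lo) with h | h
  · rw [min_eq_left h] at h1 h2 ⊢
    rcases le_total 0 γ with h' | h'
    · rw [max_eq_right h'] at h2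
      exact absurd h2 (lt_irrefl _)
    · rw [max_eq_left h'] at h1
      exact absurd h1 (lt_irrefl _)
  · rw [min_eq_right h] at h1 h2 ⊢
    rcases le_total 0 (y - lo) with h' | h'
    · exact max_eq_right h'
    · rw [max_eq_left h'] at h1
      exact absurd h1 (lt_irrefl _)

private theorem STP_num {P gp gm F W s2 Gk G : ℝ} (hW : 0 < W) (h1 : P ^ 2 ≤ gp * F)
    (h2 : F ≤ W * P) (h3 : 0 ≤ gp) (h4 : W * gm ≤ W - s2) (h5 : 4 * Gk = gp - gm) (h6 : Gk ≤ G) :
    P - W + s2 ≤ 4 * W * G := by
  have h7 : P ≤ W * gp := by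
    by_cases hP : P ≤ 0
    · exact hP.trans (mul_nonneg hW.le h3)
    · have hP' : 0 < P := lt_of_not_ge hP
      have h8 : P * P ≤ (W * gp) * P := by
        have := h1.trans (mul_le_mul_of_nonneg_left h2 h3)
        nlinarith
      exact le_of_mul_le_mul_right h8 hP'
  have h9 : 4 * W * Gk = W * gp - W * gm := by
    have : 4 * W * Gk = W * (4 * Gk) := by ring
    rw [this, h5]
    ring
  have h10 : 4 * W * Gk ≤ 4 * W * G := mul_le_mul_of_nonneg_left h6 (by linarith)
  linarith

section

variable {V E : Type} [Fintype E] (N : Nt V E)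

/-- the open strip -/
private def STP_W (ph : V → ℝ) (j : E) : Set V :=
  {x | 0 < N.cj ph j x ∧ N.cj ph j x < N.d ph j}

open Classical in
/-- the weights -/
private noncomputable def STP_c (ph : V → ℝ) (j : E) (e : E) : ℝ :=
  if N.s e ∉ STP_W N ph j ∧ N.t e ∉ STP_W N ph j then 0
  else if N.s e ∈ STP_W N ph j ∧ N.t e ∈ STP_W N ph j then 1
  else N.d ph e / N.lj ph e j

private theorem STP_c_none {ph : V → ℝ} {j e : E} (h1 : N.s e ∉ STP_W N ph j)
    (h2 : N.t e ∉ STP_W N ph j) : STP_c N ph j e = 0 := by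
  unfold STP_c
  rw [if_pos ⟨h1, h2⟩]

private theorem STP_c_both {ph : V → ℝ} {j e : E} (h1 : N.s e ∈ STP_W N ph j)
    (h2 : N.t e ∈ STP_W N ph j) : STP_c N ph j e = 1 := by
  unfold STP_c
  rw [if_neg (fun h => h.1 h1), if_pos ⟨h1, h2⟩]

/-- `d` of a function vanishing outside `W` -/
private theorem STP_df {W : Set V} {f : V → ℝ} (hf : Van W f) {e : E} (h1 : N.s e ∉ W)
    (h2 : N.t e ∉ W) : N.d f e = 0 := by
  unfold Nt.d
  rw [hf _ h1, hf _ h2, sub_zero]

end

theorem thm_STP (hGEX : St_GEX) (hGMP : St_GMP) (hDIR : St_DIR) (hLEV : St_LEV) (hRNG : St_RNG)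
    (hFLJ : St_FLJ) (hOVL : St_OVL) (hTNT : St_TNT) : St_STP := by
  have _ := hRNG
  intro V E _ _ N ph R I G e j hok hej hγ0 hγI hins
  classical
  obtain ⟨h1, h2, h3, h4, h5, h6, h7⟩ := hFLJ V E N ph R I G j hok
  obtain ⟨hcu, hcv0⟩ := h7 e hins
  have hs0 : 0 ≤ N.d ph e := hok.up e
  have hcv : N.cj ph j (N.t e) = N.cj ph j (N.s e) + N.d ph e := by
    rw [hcu, hcv0]
  have hljd : ∀ e' : E, N.lj ph e' j = N.cj ph j (N.t e') - N.cj ph j (N.s e') := fun _ => rfl
  have hlj : N.lj ph e j = N.d ph e := by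
    rw [hljd, hcv]
    ring
  have hw : 0 < I - N.d ph j := by linarith
  have hwγ : 0 < (I - N.d ph j) * N.d ph j := mul_pos hw hγ0
  -- `G u v ≥ 0`
  have hG0 : 0 ≤ G (N.s e) (N.t e) :=
    (hGMP V E N (fun _ => 1) (fun _ => 1) N.In N.In G G (fun _ => zero_le_one) hok.pd hok.gr
      hok.pd hok.gr (subset_refl _) (fun _ _ _ => rfl) (fun _ _ => le_refl _) (N.s e) (N.t e)).1
  -- `s ≤ w`
  have hsw : N.d ph e ≤ I - N.d ph j := by
    rcases hs0.lt_or_eq with h | h
    · have := (hOVL V E N ph R I G hok).1 e j hej (by rw [hlj]; exact h)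
      linarith
    · rw [← h]
      exact hw.le
  by_cases hin : 0 < N.cj ph j (N.s e) ∧ N.cj ph j (N.t e) < N.d ph j
  · -- both ends inside
    obtain ⟨hin1, hin2⟩ := hin
    have hu : N.s e ∈ STP_W N ph j := ⟨hin1, by rw [hcv] at hin2; linarith⟩
    have hv : N.t e ∈ STP_W N ph j := ⟨by rw [hcv]; linarith, hin2⟩
    have hWin : STP_W N ph j ⊆ N.In := by
      intro x hx
      refine ⟨fun h => ?_, fun h => ?_⟩
      · have := hx.1
        rw [h, h5] at this
        exact lt_irrefl _ this
      · have := hx.2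
        rw [h, h6] at this
        exact lt_irrefl _ this
    -- out of `W`
    have hout : ∀ x, x ∉ STP_W N ph j → N.cj ph j x = 0 ∨ N.cj ph j x = N.d ph j := by
      intro x hx
      by_contra hcon
      push Not at hcon
      exact hx ⟨lt_of_le_of_ne (h4 x).1 hcon.1.symm, lt_of_le_of_ne (h4 x).2 hcon.2⟩
    have hin' : ∀ x, x ∈ STP_W N ph j → N.cj ph j x = ph x - ph (N.s j) := fun x hx =>
      STP_cl hx.1 hx.2
    -- the weights
    set c : E → ℝ := STP_c N ph j with hc
    have hc_one : ∀ e' : E, N.s e' ∈ STP_W N ph j ∨ N.t e' ∈ STP_W N ph j →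
        ¬ (N.s e' ∈ STP_W N ph j ∧ N.t e' ∈ STP_W N ph j) →
        0 < N.lj ph e' j ∧ c e' = N.d ph e' / N.lj ph e' j := by
      intro e' ha hb
      constructor
      · refine lt_of_le_of_ne (h2 e').1 (fun h0 => hb ?_)
        rw [hljd] at h0
        have h0' : N.cj ph j (N.t e') = N.cj ph j (N.s e') := by linarith
        rcases ha with ha | ha
        · refine ⟨ha, ?_⟩
          show 0 < N.cj ph j (N.t e') ∧ N.cj ph j (N.t e') < N.d ph j
          rw [h0']
          exact ha
        · refine ⟨?_, ha⟩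
          show 0 < N.cj ph j (N.s e') ∧ N.cj ph j (N.s e') < N.d ph j
          rw [← h0']
          exact ha
      · rw [hc]
        unfold STP_c
        rw [if_neg hb, if_neg]
        rintro ⟨h, h'⟩
        rcases ha with ha | ha
        · exact h ha
        · exact h' ha
    have hc_both : ∀ e' : E, N.s e' ∈ STP_W N ph j → N.t e' ∈ STP_W N ph j → c e' = 1 :=
      fun e' ha hb => STP_c_both N ha hb
    have hc_none : ∀ e' : E, N.s e' ∉ STP_W N ph j → N.t e' ∉ STP_W N ph j → c e' = 0 :=
      fun e' ha hb => STP_c_none N ha hb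
    have hc_ge : ∀ e' : E, N.s e' ∈ STP_W N ph j ∨ N.t e' ∈ STP_W N ph j → 1 ≤ c e' := by
      intro e' ha
      by_cases hb : N.s e' ∈ STP_W N ph j ∧ N.t e' ∈ STP_W N ph j
      · rw [hc_both e' hb.1 hb.2]
      · obtain ⟨hp, he⟩ := hc_one e' ha hb
        rw [he, le_div_iff₀ hp, one_mul]
        exact (h2 e').2
    have hc0 : ∀ e' : E, 0 ≤ c e' := by
      intro e'
      by_cases ha : N.s e' ∈ STP_W N ph j ∨ N.t e' ∈ STP_W N ph j
      · exact zero_le_one.trans (hc_ge e' ha)
      · push Not at ha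
        rw [hc_none e' ha.1 ha.2]
    have hd_both : ∀ e' : E, N.s e' ∈ STP_W N ph j → N.t e' ∈ STP_W N ph j →
        N.lj ph e' j = N.d ph e' := by
      intro e' ha hb
      rw [hljd, hin' _ ha, hin' _ hb]
      unfold Nt.d
      ring
    have hc_eq : ∀ e' : E, N.s e' ∈ STP_W N ph j ∨ N.t e' ∈ STP_W N ph j →
        c e' * N.lj ph e' j = N.d ph e' := by
      intro e' ha
      by_cases hb : N.s e' ∈ STP_W N ph j ∧ N.t e' ∈ STP_W N ph j
      · rw [hc_both e' hb.1 hb.2, one_mul, hd_both e' hb.1 hb.2]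
      · obtain ⟨hp, he⟩ := hc_one e' ha hb
        rw [he, div_mul_cancel₀ _ hp.ne']
    have hc_le : ∀ e' : E, c e' * N.lj ph e' j ≤ N.d ph e' := by
      intro e'
      by_cases ha : N.s e' ∈ STP_W N ph j ∨ N.t e' ∈ STP_W N ph j
      · exact (hc_eq e' ha).le
      · push Not at ha
        rw [hc_none e' ha.1 ha.2, zero_mul]
        exact hok.up e'
    have hcj : c j = 0 := by
      have e1 := hljd j
      rw [h3] at e1
      have e2 := h4 (N.s j)
      have e3 := h4 (N.t j)
      refine hc_none j (fun h => ?_) (fun h => ?_)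
      · have := h.1
        linarith
      · have := h.2
        linarith
    -- positive definite
    have hPD : N.PD c (STP_W N ph j) := by
      intro f hf h0
      refine hok.pd f (fun x hx => hf x (fun h => hx (hWin h))) ?_
      refine le_antisymm ?_ ?_
      · rw [← h0]
        unfold Nt.fw
        refine Finset.sum_le_sum fun e' _ => ?_
        by_cases ha : N.s e' ∈ STP_W N ph j ∨ N.t e' ∈ STP_W N ph j
        · exact mul_le_mul_of_nonneg_right (hc_ge e' ha) (mul_self_nonneg _)
        · push Not at ha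
          rw [STP_df N hf ha.1 ha.2]
          simp
      · unfold Nt.fw
        exact Finset.sum_nonneg fun e' _ => mul_nonneg zero_le_one (mul_self_nonneg _)
    obtain ⟨Gk, hGk⟩ := hGEX V E N c (STP_W N ph j) hPD
    have hGkG : Gk (N.s e) (N.t e) ≤ G (N.s e) (N.t e) :=
      (hGMP V E N (fun _ => 1) c N.In (STP_W N ph j) G Gk (fun _ => zero_le_one) hok.pd hok.gr
        hPD hGk hWin (fun e' ha hb => hc_both e' ha hb) (fun e' ha => hc_ge e' ha)
        (N.s e) (N.t e)).2
    obtain ⟨-, hD2, hD3⟩ := hDIR V E N c (STP_W N ph j) Gk hc0 hGk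
    have hce : c e = 1 := hc_both e hu hv
    -- (i)
    have hps : ∀ f : V → ℝ, Van (STP_W N ph j) f → N.fw c f (N.cj ph j) = 0 := by
      intro f hf
      have e1 : N.fw c f (N.cj ph j) = ∑ e', N.d ph e' * N.d f e' := by
        unfold Nt.fw
        refine Finset.sum_congr rfl fun e' _ => ?_
        by_cases ha : N.s e' ∈ STP_W N ph j ∨ N.t e' ∈ STP_W N ph j
        · have e2 : N.d (N.cj ph j) e' = N.lj ph e' j := rfl
          rw [e2, ← hc_eq e' ha]
          ring
        · push Not at ha
          rw [STP_df N hf ha.1 ha.2]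
          ring
      rw [e1, hok.fl f, hf N.a (fun h => (hWin h).1 rfl), hf N.b (fun h => (hWin h).2 rfl)]
      ring
    -- (ii)
    have hB : N.fw c (N.cj ph j) (N.cj ph j) ≤ (I - N.d ph j) * N.d ph j := by
      have e1 := h1 id
      simp only [id] at e1
      rw [sub_zero] at e1
      rw [← e1]
      unfold Nt.fw
      refine Finset.sum_le_sum fun e' _ => ?_
      by_cases hj : e' = j
      · rw [if_pos hj, hj, hcj, zero_mul]
      · rw [if_neg hj]
        show c e' * (N.lj ph e' j * N.lj ph e' j) ≤ N.d ph e' * N.lj ph e' j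
        have := mul_le_mul_of_nonneg_right (hc_le e') (h2 e').1
        linarith [this, mul_assoc (c e') (N.lj ph e' j) (N.lj ph e' j)]
    have hBs : N.d ph e ^ 2 ≤ N.fw c (N.cj ph j) (N.cj ph j) := by
      have e1 : c e * (N.d (N.cj ph j) e * N.d (N.cj ph j) e) ≤
          ∑ e', c e' * (N.d (N.cj ph j) e' * N.d (N.cj ph j) e') :=
        Finset.single_le_sum (f := fun e' => c e' * (N.d (N.cj ph j) e' * N.d (N.cj ph j) e'))
          (fun e' _ => mul_nonneg (hc0 e') (mul_self_nonneg _)) (Finset.mem_univ e)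
      have e2 : N.d (N.cj ph j) e = N.lj ph e j := rfl
      rw [hce, e2, hlj, one_mul] at e1
      rw [pow_two]
      exact e1
    have hgm : ((I - N.d ph j) * N.d ph j) * N.gm Gk e ≤
        (I - N.d ph j) * N.d ph j - N.d ph e ^ 2 := by
      rcases hs0.lt_or_eq with h | h
      · have hs2 : 0 < N.d ph e ^ 2 := by positivity
        have hBpos : 0 < N.fw c (N.cj ph j) (N.cj ph j) := lt_of_lt_of_le hs2 hBs
        have e1 := hLEV V E N c (STP_W N ph j) Gk (N.cj ph j) e hc0 hGk hce hBpos hps
        have e2 : N.d (N.cj ph j) e = N.d ph e := hlj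
        rw [e2] at e1
        have e3 : N.d ph e ^ 2 / ((I - N.d ph j) * N.d ph j) ≤
            N.d ph e ^ 2 / N.fw c (N.cj ph j) (N.cj ph j) :=
          div_le_div_of_nonneg_left hs2.le hBpos hB
        have e4 : N.gm Gk e ≤ 1 - N.d ph e ^ 2 / ((I - N.d ph j) * N.d ph j) := by linarith
        have e5 := mul_le_mul_of_nonneg_left e4 hwγ.le
        rw [mul_sub, mul_one, mul_div_cancel₀ _ hwγ.ne'] at e5
        exact e5
      · -- `gm ≤ 1`
        rw [← h]
        have hgm1 : N.gm Gk e ≤ 1 := by
          have hsym := (hDIR V E N c (STP_W N ph j) Gk hc0 hGk).1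
          set f : V → ℝ := fun x => Gk (N.t e) x - Gk (N.s e) x with hf
          have hfW : Van (STP_W N ph j) f := by
            intro x hx
            rw [hf]
            show Gk (N.t e) x - Gk (N.s e) x = 0
            rw [hGk.van (N.t e) x hx, hGk.van (N.s e) x hx, sub_zero]
          have e1 : N.fw c f f = N.fw c (Gk (N.t e)) f - N.fw c (Gk (N.s e)) f := by
            unfold Nt.fw
            rw [← Finset.sum_sub_distrib]
            refine Finset.sum_congr rfl fun e' _ => ?_
            have : N.d f e' = N.d (Gk (N.t e)) e' - N.d (Gk (N.s e)) e' := by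
              unfold Nt.d
              rw [hf]
              ring
            nth_rewrite 1 [this]
            ring
          rw [hGk.rep _ hv f hfW, hGk.rep _ hu f hfW] at e1
          have e2 : f (N.t e) - f (N.s e) = N.gm Gk e := by
            rw [hf]
            unfold Nt.gm
            beta_reduce
            rw [hsym (N.t e) (N.s e)]
            ring
          have e3 : c e * (N.d f e * N.d f e) ≤ N.fw c f f :=
            Finset.single_le_sum (f := fun e' => c e' * (N.d f e' * N.d f e'))
              (fun e' _ => mul_nonneg (hc0 e') (mul_self_nonneg _)) (Finset.mem_univ e)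
          have e4 : N.d f e = N.gm Gk e := e2
          rw [hce, one_mul, e1, e2, e4] at e3
          by_contra hcon
          have hcon' : 1 < N.gm Gk e := lt_of_not_ge hcon
          nlinarith
        have e5 := mul_le_mul_of_nonneg_left hgm1 hwγ.le
        linarith
    -- (iii)
    obtain ⟨k, q, hk0, hkγ, hkP, hq, hkq⟩ := hTNT (N.d ph j) (N.cj ph j (N.s e))
      (N.cj ph j (N.t e)) hin1.le (by rw [hcv]; linarith) hin2.le
    have hqm : ∀ α β, 0 ≤ α → α ≤ β → β ≤ N.d ph j → 0 ≤ q β - q α := by
      intro α β ha hb hg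
      rcases hb.lt_or_eq with h | h
      · have := hkq α β ha hb hg
        by_contra hcon
        have hcon' : q β - q α < 0 := lt_of_not_ge hcon
        nlinarith [sq_nonneg (k β - k α), mul_pos_of_neg_of_neg hcon' (sub_neg.2 h)]
      · rw [h, sub_self]
    have hfv : Van (STP_W N ph j) (fun x => k (N.cj ph j x)) := by
      intro x hx
      beta_reduce
      rcases hout x hx with h | h
      · rw [h, hk0]
      · rw [h, hkγ]
    have hF : N.fw c (fun x => k (N.cj ph j x)) (fun x => k (N.cj ph j x)) ≤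
        ((I - N.d ph j) * N.d ph j) * Ps (N.d ph j) (N.cj ph j (N.s e)) (N.cj ph j (N.t e)) := by
      have e1 := h1 q
      rw [hq, ← mul_assoc] at e1
      rw [← e1]
      unfold Nt.fw
      refine Finset.sum_le_sum fun e' _ => ?_
      by_cases hj : e' = j
      · rw [if_pos hj, hj, hcj, zero_mul]
      · rw [if_neg hj]
        have e2 : 0 ≤ N.lj ph e' j := (h2 e').1
        have e3 : N.cj ph j (N.s e') ≤ N.cj ph j (N.t e') := by
          rw [hljd] at e2
          linarith
        have e4 := hkq _ _ (h4 (N.s e')).1 e3 (h4 (N.t e')).2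
        have e5 := hqm _ _ (h4 (N.s e')).1 e3 (h4 (N.t e')).2
        rw [← hljd] at e4
        show c e' * ((k (N.cj ph j (N.t e')) - k (N.cj ph j (N.s e'))) *
          (k (N.cj ph j (N.t e')) - k (N.cj ph j (N.s e')))) ≤ _
        calc c e' * ((k (N.cj ph j (N.t e')) - k (N.cj ph j (N.s e'))) *
              (k (N.cj ph j (N.t e')) - k (N.cj ph j (N.s e'))))
            = c e' * (k (N.cj ph j (N.t e')) - k (N.cj ph j (N.s e'))) ^ 2 := by ring
          _ ≤ c e' * (N.lj ph e' j * (q (N.cj ph j (N.t e')) - q (N.cj ph j (N.s e')))) :=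
              mul_le_mul_of_nonneg_left e4 (hc0 e')
          _ = (c e' * N.lj ph e' j) * (q (N.cj ph j (N.t e')) - q (N.cj ph j (N.s e'))) := by ring
          _ ≤ N.d ph e' * (q (N.cj ph j (N.t e')) - q (N.cj ph j (N.s e'))) :=
              mul_le_mul_of_nonneg_right (hc_le e') e5
    have hP := hD3 _ hfv (N.s e) (N.t e)
    beta_reduce at hP
    rw [hkP] at hP
    exact STP_num hwγ hP hF (hD2 (N.s e) (N.t e)) hgm (by unfold Nt.gm; ring) hGkG
  · -- an end on the boundary
    have hy0 := (h4 (N.s e)).1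
    have hy1 := (h4 (N.t e)).2
    have e1 : Ps (N.d ph j) (N.cj ph j (N.s e)) (N.cj ph j (N.t e)) =
        N.d ph e * (N.d ph j - N.d ph e) := by
      by_cases h : 0 < N.cj ph j (N.s e)
      · have h' : N.cj ph j (N.t e) = N.d ph j := le_antisymm hy1 (not_lt.1 fun h'' => hin ⟨h, h''⟩)
        have h'' : N.cj ph j (N.s e) = N.d ph j - N.d ph e := by rw [← h', hcv]; ring
        rw [h', h'']
        unfold Ps
        ring
      · have h' : N.cj ph j (N.s e) = 0 := le_antisymm (not_lt.1 h) hy0
        have h'' : N.cj ph j (N.t e) = N.d ph e := by rw [hcv, h', zero_add]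
        rw [h', h'']
        unfold Ps
        ring
    rw [e1]
    have e2 : 0 ≤ 4 * ((I - N.d ph j) * N.d ph j) * G (N.s e) (N.t e) :=
      mul_nonneg (by linarith) hG0
    have e3 : N.d ph e * (N.d ph j - N.d ph e) - (I - N.d ph j) * N.d ph j + N.d ph e ^ 2 =
        - (N.d ph j * ((I - N.d ph j) - N.d ph e)) := by ring
    rw [e3]
    have e4 : 0 ≤ N.d ph j * ((I - N.d ph j) - N.d ph e) := mul_nonneg hγ0.le (by linarith)
    linarith

end ALZ
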