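import Pool.Agent.ALZ.St

/-!
# ALZ [TNT]: sums of two tents (helper35)
-/

set_option autoImplicit false

namespace ALZ

private noncomputable def TNT_l1 (y1 y : ℝ) : ℝ := min y y1

private noncomputable def TNT_l2 (y1 y2 y : ℝ) : ℝ := max 0 (min (y2 - y1) (y - y1))

private noncomputable def TNT_l3 (y2 y : ℝ) : ℝ := max 0 (y - y2)

private theorem TNT_sum (y1 y2 y : ℝ) (h12 : y1 ≤ y2) :
    TNT_l1 y1 y + TNT_l2 y1 y2 y + TNT_l3 y2 y = y := by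
  unfold TNT_l1 TNT_l2 TNT_l3
  rcases le_total y y1 with h | h
  · rw [min_eq_left h, min_eq_right (by linarith), max_eq_left (by linarith),
      max_eq_left (by linarith)]
    ring
  · rw [min_eq_right h]
    rcases le_total y y2 with h2 | h2
    · rw [min_eq_right (by linarith), max_eq_right (by linarith), max_eq_left (by linarith)]
      ring
    · rw [min_eq_left (by linarith), max_eq_right (by linarith), max_eq_right (by linarith)]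
      ring

private theorem TNT_mono1 (y1 α β : ℝ) (h : α ≤ β) : TNT_l1 y1 α ≤ TNT_l1 y1 β :=
  min_le_min_right y1 h

private theorem TNT_mono2 (y1 y2 α β : ℝ) (h : α ≤ β) : TNT_l2 y1 y2 α ≤ TNT_l2 y1 y2 β :=
  max_le_max_left 0 (min_le_min_left _ (by linarith))

private theorem TNT_mono3 (y2 α β : ℝ) (h : α ≤ β) : TNT_l3 y2 α ≤ TNT_l3 y2 β :=
  max_le_max_left 0 (by linarith)

private theorem TNT_cs (m1 m2 m3 d1 d2 d3 : ℝ) (h1 : 0 ≤ d1) (h2 : 0 ≤ d2) (h3 : 0 ≤ d3) :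
    (m1 * d1 + m2 * d2 + m3 * d3) ^ 2 ≤
      (d1 + d2 + d3) * (m1 ^ 2 * d1 + m2 ^ 2 * d2 + m3 ^ 2 * d3) := by
  have a1 := mul_nonneg (mul_nonneg h1 h2) (sq_nonneg (m1 - m2))
  have a2 := mul_nonneg (mul_nonneg h1 h3) (sq_nonneg (m1 - m3))
  have a3 := mul_nonneg (mul_nonneg h2 h3) (sq_nonneg (m2 - m3))
  nlinarith [a1, a2, a3]

/-- [TNT] -/
theorem thm_TNT : St_TNT := by
  intro γ y1 y2 h1 h12 h2
  have hz1 : TNT_l1 y1 0 = 0 := by unfold TNT_l1; exact min_eq_left h1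
  have hz2 : TNT_l2 y1 y2 0 = 0 := by
    unfold TNT_l2
    rw [min_eq_right (by linarith), max_eq_left (by linarith)]
  have hz3 : TNT_l3 y2 0 = 0 := by
    unfold TNT_l3
    rw [max_eq_left (by linarith)]
  have hg1 : TNT_l1 y1 γ = y1 := by unfold TNT_l1; exact min_eq_right (by linarith)
  have hg2 : TNT_l2 y1 y2 γ = y2 - y1 := by
    unfold TNT_l2
    rw [min_eq_left (by linarith), max_eq_right (by linarith)]
  have hg3 : TNT_l3 y2 γ = γ - y2 := by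
    unfold TNT_l3
    rw [max_eq_right (by linarith)]
  have ha1 : TNT_l1 y1 y1 = y1 := by unfold TNT_l1; exact min_self _
  have ha2 : TNT_l2 y1 y2 y1 = 0 := by
    unfold TNT_l2
    rw [sub_self, min_eq_right (by linarith), max_self]
  have ha3 : TNT_l3 y2 y1 = 0 := by
    unfold TNT_l3
    rw [max_eq_left (by linarith)]
  have hb1 : TNT_l1 y1 y2 = y1 := by unfold TNT_l1; exact min_eq_right h12
  have hb2 : TNT_l2 y1 y2 y2 = y2 - y1 := by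
    unfold TNT_l2
    rw [min_self, max_eq_right (by linarith)]
  have hb3 : TNT_l3 y2 y2 = 0 := by
    unfold TNT_l3
    rw [sub_self, max_self]
  refine ⟨fun y => (2 * γ - y1 - y2) * TNT_l1 y1 y + (γ - y1 - y2) * TNT_l2 y1 y2 y +
      (-(y1 + y2)) * TNT_l3 y2 y,
    fun y => (2 * γ - y1 - y2) ^ 2 * TNT_l1 y1 y + (γ - y1 - y2) ^ 2 * TNT_l2 y1 y2 y +
      (-(y1 + y2)) ^ 2 * TNT_l3 y2 y, ?_, ?_, ?_, ?_, ?_⟩
  · show (2 * γ - y1 - y2) * TNT_l1 y1 0 + (γ - y1 - y2) * TNT_l2 y1 y2 0 +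
      (-(y1 + y2)) * TNT_l3 y2 0 = 0
    rw [hz1, hz2, hz3]
    ring
  · show (2 * γ - y1 - y2) * TNT_l1 y1 γ + (γ - y1 - y2) * TNT_l2 y1 y2 γ +
      (-(y1 + y2)) * TNT_l3 y2 γ = 0
    rw [hg1, hg2, hg3]
    ring
  · show ((2 * γ - y1 - y2) * TNT_l1 y1 y1 + (γ - y1 - y2) * TNT_l2 y1 y2 y1 +
      (-(y1 + y2)) * TNT_l3 y2 y1) + ((2 * γ - y1 - y2) * TNT_l1 y1 y2 +
      (γ - y1 - y2) * TNT_l2 y1 y2 y2 + (-(y1 + y2)) * TNT_l3 y2 y2) = Ps γ y1 y2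
    rw [ha1, ha2, ha3, hb1, hb2, hb3, Ps]
    ring
  · show ((2 * γ - y1 - y2) ^ 2 * TNT_l1 y1 γ + (γ - y1 - y2) ^ 2 * TNT_l2 y1 y2 γ +
      (-(y1 + y2)) ^ 2 * TNT_l3 y2 γ) - ((2 * γ - y1 - y2) ^ 2 * TNT_l1 y1 0 +
      (γ - y1 - y2) ^ 2 * TNT_l2 y1 y2 0 + (-(y1 + y2)) ^ 2 * TNT_l3 y2 0) = γ * Ps γ y1 y2
    rw [hz1, hz2, hz3, hg1, hg2, hg3, Ps]
    ring
  · intro α β _ hαβ _
    have hs1 := TNT_sum y1 y2 α h12
    have hs2 := TNT_sum y1 y2 β h12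
    have hc := TNT_cs (2 * γ - y1 - y2) (γ - y1 - y2) (-(y1 + y2))
      (TNT_l1 y1 β - TNT_l1 y1 α) (TNT_l2 y1 y2 β - TNT_l2 y1 y2 α)
      (TNT_l3 y2 β - TNT_l3 y2 α) (sub_nonneg.mpr (TNT_mono1 y1 α β hαβ))
      (sub_nonneg.mpr (TNT_mono2 y1 y2 α β hαβ)) (sub_nonneg.mpr (TNT_mono3 y2 α β hαβ))
    have hd : TNT_l1 y1 β - TNT_l1 y1 α + (TNT_l2 y1 y2 β - TNT_l2 y1 y2 α) +
        (TNT_l3 y2 β - TNT_l3 y2 α) = β - α := by linarith
    rw [hd] at hc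
    refine le_trans (le_of_eq ?_) (le_trans hc (le_of_eq ?_))
    · ring
    · ring

end ALZ
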