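import Pool.Agent.ALZ.StT

/-!
# ALZ [TWB]: the Lev part of the sum
-/

set_option autoImplicit false

namespace ALZ

/-- the polynomial `P_γ` -/
noncomputable def TWB_P (γ y : ℝ) : ℝ := 2 * γ * y ^ 2 - 4 / 3 * y ^ 3

/-- one edge -/
theorem TWB_edge {R s y x g g' gp gp' ξ : ℝ} (hR : 0 < R)
    (h1 : Ps R y (y + s) / R + ξ ≤ gp) (h2 : Ps 1 x (x + s) ≤ 1 * R * gp')
    (h3 : 4 * (g + g') = gp + gp' - (1 - s ^ 2 / R)) :
    s ^ 2 * (3 / 4 * ((1 - s) * (1 - s / R)) - s ^ 2 / (2 * R) + 3 / 4 * ξ) / R +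
      3 / (4 * R ^ 2) * (s * (TWB_P R (y + s) - TWB_P R y)) +
      3 / (4 * R ^ 2) * (s * (TWB_P 1 (x + s) - TWB_P 1 x)) - 3 / (2 * R) * s ^ 2 ≤
      -(s ^ 2 / R) ^ 2 + 3 * (s ^ 2 / R * (g + g')) := by
  have h4 : Ps 1 x (x + s) / R ≤ gp' := by
    rw [div_le_iff₀ hR]
    linarith
  have h5 : Ps R y (y + s) / R + ξ + Ps 1 x (x + s) / R - (1 - s ^ 2 / R) ≤ 4 * (g + g') := by
    linarith
  have h6 : 0 ≤ 3 / 4 * (s ^ 2 / R) := by positivity
  have h7 := mul_le_mul_of_nonneg_left h5 h6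
  have h8 : s ^ 2 * (3 / 4 * ((1 - s) * (1 - s / R)) - s ^ 2 / (2 * R) + 3 / 4 * ξ) / R +
      3 / (4 * R ^ 2) * (s * (TWB_P R (y + s) - TWB_P R y)) +
      3 / (4 * R ^ 2) * (s * (TWB_P 1 (x + s) - TWB_P 1 x)) - 3 / (2 * R) * s ^ 2 =
      -(s ^ 2 / R) ^ 2 + 3 / 4 * (s ^ 2 / R) *
        (Ps R y (y + s) / R + ξ + Ps 1 x (x + s) / R - (1 - s ^ 2 / R)) := by
    unfold TWB_P Ps
    field_simp
    ring
  rw [h8]
  linarith

theorem thm_TWB (hRNG : St_RNG) (hLVI : St_LVI) : St_TWB := by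
  intro V V' E _ _ _ N N' ph x R G G' ξ hG hξ
  have hD := hG.dual
  have hR : 0 < R := hD.ok.R0
  have hsum : ∑ e, N.d ph e ^ 2 = R := by
    have := (hRNG V E N ph R 1 G hD.ok).2.1
    rw [this, one_mul]
  have hf1 : ∑ e, N.d ph e * (TWB_P R (ph (N.s e) + N.d ph e) - TWB_P R (ph (N.s e))) =
      2 / 3 * R ^ 3 := by
    have h1 := hD.ok.fl (fun v => TWB_P R (ph v))
    have h2 : ∀ e, N.d (fun v => TWB_P R (ph v)) e =
        TWB_P R (ph (N.s e) + N.d ph e) - TWB_P R (ph (N.s e)) := by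
      intro e
      have : ph (N.s e) + N.d ph e = ph (N.t e) := by unfold Nt.d; ring
      rw [this]
      rfl
    simp only [h2] at h1
    rw [h1, hD.ok.bR, hD.ok.a0]
    unfold TWB_P
    ring
  have hf2 : ∑ e, N.d ph e * (TWB_P 1 (x (N'.s e) + N.d ph e) - TWB_P 1 (x (N'.s e))) =
      2 / 3 * R := by
    have h1 := hD.ok'.fl (fun v => TWB_P 1 (x v))
    have h2 : ∀ e, N'.d (fun v => TWB_P 1 (x v)) e =
        TWB_P 1 (x (N'.s e) + N.d ph e) - TWB_P 1 (x (N'.s e)) := by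
      intro e
      have : x (N'.s e) + N.d ph e = x (N'.t e) := by
        rw [hD.cur e]; unfold Nt.d; ring
      rw [this]
      rfl
    simp only [h2, ← hD.cur] at h1
    rw [h1, hD.ok'.bR, hD.ok'.a0]
    unfold TWB_P
    ring
  have hedge : ∀ e, N.d ph e ^ 2 * (3 / 4 * ((1 - N.d ph e) * (1 - N.d ph e / R)) -
      N.d ph e ^ 2 / (2 * R) + 3 / 4 * ξ e) / R +
      3 / (4 * R ^ 2) * (N.d ph e * (TWB_P R (ph (N.s e) + N.d ph e) - TWB_P R (ph (N.s e)))) +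
      3 / (4 * R ^ 2) * (N.d ph e * (TWB_P 1 (x (N'.s e) + N.d ph e) - TWB_P 1 (x (N'.s e)))) -
      3 / (2 * R) * N.d ph e ^ 2 ≤
      -(N.d ph e ^ 2 / R) ^ 2 + 3 * (N.d ph e ^ 2 / R * (G (N.s e) (N.t e) +
        G' (N'.s e) (N'.t e))) := by
    intro e
    have a1 : ph (N.s e) + N.d ph e = ph (N.t e) := by unfold Nt.d; ring
    have a2 : x (N'.s e) + N.d ph e = x (N'.t e) := by
      rw [hD.cur e]; unfold Nt.d; ring
    apply TWB_edge hR (gp := N.gp G e) (gp' := N'.gp G' e)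
    · rw [a1]; exact hξ e
    · rw [a2]; exact hLVI V' E N' x 1 R G' e hD.ok'
    · have t := hD.tri e
      unfold Nt.gm at t
      unfold Nt.gp
      linarith
  have hS := Finset.sum_le_sum (s := Finset.univ) (fun e _ => hedge e)
  rw [Finset.sum_sub_distrib, Finset.sum_add_distrib, Finset.sum_add_distrib,
    Finset.sum_add_distrib, ← Finset.mul_sum, ← Finset.mul_sum, ← Finset.mul_sum,
    ← Finset.mul_sum, hf1, hf2, hsum, Finset.sum_neg_distrib, ← Finset.sum_div] at hS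
  have e1 : 3 / (4 * R ^ 2) * (2 / 3 * R ^ 3) = R / 2 := by field_simp; ring
  have e2 : 3 / (4 * R ^ 2) * (2 / 3 * R) = 1 / R / 2 := by field_simp; ring
  have e3 : 3 / (2 * R) * R = 3 / 2 := by field_simp
  rw [e1, e2, e3] at hS
  unfold zh
  linarith

end ALZ
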