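import Pool.Agent.ALZ.StT

/-!
# ALZ: two parallel parts, comparison of the Green function (TWC)
-/

set_option autoImplicit false

namespace ALZ

theorem TWC_cl_lo {lo h y : ℝ} (hh : 0 ≤ h) (hy : y ≤ lo) : cl lo h y = 0 := by
  unfold cl
  rw [min_eq_right (by linarith), max_eq_left (by linarith)]

theorem TWC_cl_hi {lo h y : ℝ} (hh : 0 ≤ h) (hy : lo + h ≤ y) : cl lo h y = h := by
  unfold cl
  rw [min_eq_left (by linarith), max_eq_right hh]

section

open Classical in
/-- the test function; `μ` is the coefficient of the part of the edge `e` -/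
theorem TWC_gen (hDIR : St_DIR) (hRNG : St_RNG) (hTWL : St_TWL) (V E : Type) [Fintype E]
    [DecidableEq E] (N : Nt V E) (ph : V → ℝ) (R lo h i : ℝ) (G : V → V → ℝ) (C : Set V)
    (A : Finset E) (hok : N.Ok ph R 1 G) (hS : Spl N ph R lo h C A)
    (hC : Cur N ph lo h A i) (κ κ' μ : ℝ) (e : E) (h1 : κ * i + κ' * (1 - i) = 0)
    (h2 : κ ^ 2 * i + κ' ^ 2 * (1 - i) = μ) (h3 : e ∈ A → μ = κ) (h4 : e ∉ A → μ = κ') :
    Ps R (ph (N.s e)) (ph (N.t e)) / R + μ *
      (Ps h (cl lo h (ph (N.s e))) (cl lo h (ph (N.t e))) / h) ≤ N.gp G e := by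
  obtain ⟨hr, -, -⟩ := hRNG V E N ph R 1 G hok
  have hh0 : 0 < h := by linarith [hS.h1]
  have h12 : ph (N.s e) ≤ ph (N.t e) := by
    have h1 := hok.up e
    unfold Nt.d at h1
    linarith
  obtain ⟨k1, q1, k2, q2, r, hk10, hk1R, hk1v, hq1, hk20, hk2h, hk2v, hq2, hCS⟩ :=
    hTWL R lo h (ph (N.s e)) (ph (N.t e)) hok.R0 hS.lo0 hh0 hS.hi (hr _).1 h12 (hr _).2
  obtain ⟨f, hf⟩ : ∃ f : V → ℝ, f = fun x => k1 (ph x) +
    (if x ∈ C then κ else κ') * k2 (cl lo h (ph x)) := ⟨_, rfl⟩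
  have hfx : ∀ x, f x = k1 (ph x) + (if x ∈ C then κ else κ') * k2 (cl lo h (ph x)) :=
    fun x => by rw [hf]
  have hklo : ∀ x, ph x ≤ lo → k2 (cl lo h (ph x)) = 0 := fun x hx => by
    rw [TWC_cl_lo hh0.le hx, hk20]
  have hkhi : ∀ x, lo + h ≤ ph x → k2 (cl lo h (ph x)) = 0 := fun x hx => by
    rw [TWC_cl_hi hh0.le hx, hk2h]
  have hvan : Van N.In f := by
    intro x hx
    rw [hfx]
    by_cases hxa : x = N.a
    · rw [hxa, hklo _ (by rw [hok.a0]; exact hS.lo0), hok.a0, hk10]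
      ring
    · by_cases hxb : x = N.b
      · rw [hxb, hkhi _ (by rw [hok.bR]; exact hS.hi), hok.bR, hk1R]
        ring
      · exact absurd ⟨hxa, hxb⟩ hx
  -- the values at the ends of an edge
  have hends : ∀ e', (f (N.t e') = k1 (ph (N.t e')) +
      (if e' ∈ A then κ else κ') * k2 (cl lo h (ph (N.t e')))) ∧
      (f (N.s e') = k1 (ph (N.s e')) +
      (if e' ∈ A then κ else κ') * k2 (cl lo h (ph (N.s e')))) := by
    intro e'
    rw [hfx, hfx]
    by_cases he : e' ∈ A
    · rw [if_pos he]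
      rcases (hS.mem e').1 he with hs | ht
      · rw [if_pos hs]
        refine ⟨?_, rfl⟩
        by_cases ht : N.t e' ∈ C
        · rw [if_pos ht]
        · have : lo + h ≤ ph (N.t e') := by
            by_contra hc
            exact ht (hS.up e' hs (not_le.1 hc))
          rw [hkhi _ this]
          ring
      · rw [if_pos ht]
        refine ⟨rfl, ?_⟩
        by_cases hs : N.s e' ∈ C
        · rw [if_pos hs]
        · have : ph (N.s e') ≤ lo := by
            by_contra hc
            exact hs (hS.dn e' ht (not_le.1 hc))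
          rw [hklo _ this]
          ring
    · rw [if_neg he]
      have hn := mt (hS.mem e').2 he
      rw [not_or] at hn
      rw [if_neg hn.1, if_neg hn.2]
      exact ⟨rfl, rfl⟩
  have hterm : ∀ e' : E, (fun _ : E => (1 : ℝ)) e' * (N.d f e' * N.d f e') ≤
      N.d ph e' * N.d (fun x => q1 (ph x)) e' +
      (if e' ∈ A then N.d ph e' *
        ((2 * κ * r (cl lo h (ph (N.t e'))) + κ ^ 2 * q2 (cl lo h (ph (N.t e')))) -
        (2 * κ * r (cl lo h (ph (N.s e'))) + κ ^ 2 * q2 (cl lo h (ph (N.s e'))))) else 0) +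
      (if e' ∈ Aᶜ then N.d ph e' *
        ((2 * κ' * r (cl lo h (ph (N.t e'))) + κ' ^ 2 * q2 (cl lo h (ph (N.t e')))) -
        (2 * κ' * r (cl lo h (ph (N.s e'))) + κ' ^ 2 * q2 (cl lo h (ph (N.s e'))))) else 0) := by
    intro e'
    have hup : 0 ≤ ph (N.t e') - ph (N.s e') := hok.up e'
    obtain ⟨ht, hs⟩ := hends e'
    by_cases he : e' ∈ A
    · have h5 := hCS κ (ph (N.s e')) (ph (N.t e')) (hr _).1 (by linarith) (hr _).2
      rw [if_pos he, if_neg (by rw [Finset.mem_compl, not_not]; exact he)]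
      rw [if_pos he] at ht hs
      unfold Nt.d
      rw [ht, hs]
      linear_combination h5
    · have h5 := hCS κ' (ph (N.s e')) (ph (N.t e')) (hr _).1 (by linarith) (hr _).2
      rw [if_neg he, if_pos (Finset.mem_compl.2 he)]
      rw [if_neg he] at ht hs
      unfold Nt.d
      rw [ht, hs]
      linear_combination h5
  have hsum := Finset.sum_le_sum fun (e' : E) (_ : e' ∈ Finset.univ) => hterm e'
  have hfl := hok.fl (fun x => q1 (ph x))
  have hflA := hC.fl (fun y => 2 * κ * r y + κ ^ 2 * q2 y)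
  have hflA' := hC.fl' (fun y => 2 * κ' * r y + κ' ^ 2 * q2 y)
  rw [Finset.sum_add_distrib, Finset.sum_add_distrib, Finset.sum_ite_mem, Finset.sum_ite_mem,
    Finset.univ_inter, Finset.univ_inter, hfl, hflA, hflA'] at hsum
  simp only [hok.a0, hok.bR] at hsum
  -- the value of the test function
  have hval : f (N.s e) + f (N.t e) = Ps R (ph (N.s e)) (ph (N.t e)) / R + μ *
      (Ps h (cl lo h (ph (N.s e))) (cl lo h (ph (N.t e))) / h) := by
    obtain ⟨ht, hs⟩ := hends e
    by_cases he : e ∈ A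
    · rw [if_pos he] at ht hs
      rw [ht, hs, h3 he]
      linear_combination hk1v + κ * hk2v
    · rw [if_neg he] at ht hs
      rw [ht, hs, h4 he]
      linear_combination hk1v + κ' * hk2v
  have hE : N.fw (fun _ => 1) f f ≤ f (N.s e) + f (N.t e) := by
    rw [hval, ← hq1, ← hq2]
    unfold Nt.fw
    refine hsum.trans (le_of_eq ?_)
    linear_combination (2 * (r h - r 0)) * h1 + (q2 h - q2 0) * h2
  rw [← hval]
  obtain ⟨-, hD2, hD3⟩ := hDIR V E N (fun _ => 1) N.In G (fun _ => zero_le_one) hok.gr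
  have h6 := hD2 (N.s e) (N.t e)
  have h7 := hD3 f hvan (N.s e) (N.t e)
  change _ ≤ G (N.s e) (N.s e) + G (N.t e) (N.t e) + 2 * G (N.s e) (N.t e)
  obtain ⟨X, hX⟩ : ∃ X : ℝ, X = f (N.s e) + f (N.t e) := ⟨_, rfl⟩
  rw [← hX] at h7 hE ⊢
  by_cases hX0 : X ≤ 0
  · exact hX0.trans h6
  · rw [not_le] at hX0
    have h8 : X * X ≤ (G (N.s e) (N.s e) + G (N.t e) (N.t e) + 2 * G (N.s e) (N.t e)) * X := by
      calc X * X = X ^ 2 := by ring
        _ ≤ _ := h7
        _ ≤ _ := mul_le_mul_of_nonneg_left hE h6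
    exact le_of_mul_le_mul_right h8 hX0

end

theorem thm_TWC (hDIR : St_DIR) (hRNG : St_RNG) (hTWL : St_TWL) : St_TWC := by
  intro V E _ _ N ph R lo h i G C A hok hS hC e
  have hi0 := hC.i0
  have hi1 : 0 < 1 - i := by linarith [hC.i1]
  constructor
  · intro he
    refine TWC_gen hDIR hRNG hTWL V E N ph R lo h i G C A hok hS hC ((1 - i) / i) (-1)
      ((1 - i) / i) e ?_ ?_ (fun _ => rfl) (fun h => absurd he h)
    · field_simp
      ring
    · field_simp
      ring
  · intro he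
    refine TWC_gen hDIR hRNG hTWL V E N ph R lo h i G C A hok hS hC (-1) (i / (1 - i))
      (i / (1 - i)) e ?_ ?_ (fun h => absurd h he) (fun _ => rfl)
    · field_simp
      ring
    · field_simp
      ring

end ALZ
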