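import Pool.Agent.ALZ.StT

/-!
# ALZ [TWF]: the result for the middle half
-/

set_option autoImplicit false

namespace ALZ

theorem thm_TWF (hTWO : St_TWO) : St_TWF := by
  classical
  intro V V' E _ _ _ N N' ph x R G G' C hG hR hsub hup hdn hne hne'
  have h34 : R / 4 + R / 2 = 3 * R / 4 := by ring
  have hS : Spl N ph R (R / 4) (R / 2) C
      (Finset.univ.filter fun e => N.s e ∈ C ∨ N.t e ∈ C) := by
    refine ⟨by linarith, by linarith, by linarith, ?_, ?_, hdn, hne, ?_, ?_⟩
    · intro y hy
      rw [h34]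
      exact hsub y hy
    · intro e he h
      rw [h34] at h
      exact hup e he h
    · rw [h34]
      exact hne'
    · intro e
      simp
  have h := hTWO V V' E N N' ph x R (R / 4) (R / 2) G G' C _ hG hS
  have hR0 : R ≠ 0 := by linarith
  have e1 : ((R / 2) ^ 2 / 2 - 3 / 8 * (R / 2) - 7 / 16) / R = R / 8 - 3 / 16 - 7 / (16 * R) := by
    field_simp
    ring
  rwa [e1] at h

end ALZ
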