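import Pool.Agent.ALZ.StT

/-!
# ALZ, module TWI (helper34): the currents of the two parts
-/

set_option autoImplicit false

namespace ALZ

theorem TWI_mono {lo h y y' : ℝ} (hy : y ≤ y') : cl lo h y ≤ cl lo h y' := by
  unfold cl
  exact max_le_max le_rfl (min_le_min le_rfl (by linarith))

theorem TWI_nonneg (lo h y : ℝ) : 0 ≤ cl lo h y := le_max_left _ _

theorem TWI_le {lo h : ℝ} (h0 : 0 ≤ h) (y : ℝ) : cl lo h y ≤ h := by
  unfold cl
  exact max_le h0 (min_le_left _ _)

theorem TWI_low {lo h y : ℝ} (hy : y ≤ lo) : cl lo h y = 0 := by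
  unfold cl
  exact max_eq_left ((min_le_right _ _).trans (by linarith))

theorem TWI_high {lo h y : ℝ} (h0 : 0 ≤ h) (hy : lo + h ≤ y) : cl lo h y = h := by
  unfold cl
  rw [min_eq_left (by linarith), max_eq_right h0]

theorem TWI_mid {lo h y : ℝ} (h1 : lo < y) (h2 : y < lo + h) :
    0 < cl lo h y ∧ cl lo h y < h := by
  have h3 : cl lo h y = y - lo := by
    unfold cl
    rw [min_eq_right (by linarith), max_eq_right (by linarith)]
  rw [h3]
  exact ⟨by linarith, by linarith⟩

/-- points with the same clamped height as a point of the open strip are in the open strip -/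
theorem TWI_same {lo h y y' : ℝ} (h1 : lo < y) (h2 : y < lo + h) (he : cl lo h y' = cl lo h y) :
    lo < y' ∧ y' < lo + h := by
  have h0 : 0 ≤ h := by linarith
  obtain ⟨h3, h4⟩ := TWI_mid h1 h2
  rw [← he] at h3 h4
  constructor
  · by_contra hcon
    rw [TWI_low (not_lt.1 hcon)] at h3
    exact lt_irrefl _ h3
  · by_contra hcon
    rw [TWI_high h0 (not_lt.1 hcon)] at h4
    exact lt_irrefl _ h4

section main

variable {V E : Type} [Fintype E] {N : Nt V E} {ph : V → ℝ} {R : ℝ} {G : V → V → ℝ}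

theorem TWI_no (hOk : N.Ok ph R 1 G) {lo h : ℝ} (lo0 : 0 ≤ lo) (hi : lo + h ≤ R) (D : Set V)
    (hD : ∀ x ∈ D, lo < ph x ∧ ph x < lo + h) (hne : ∃ x, x ∈ D)
    (hiff : ∀ e, N.s e ∈ D ↔ N.t e ∈ D) : False := by
  classical
  obtain ⟨f, hf⟩ : ∃ f : V → ℝ, f = fun x => if x ∈ D then 1 else 0 := ⟨_, rfl⟩
  have hd : ∀ e, N.d f e = 0 := by
    intro e
    unfold Nt.d
    rw [hf]
    by_cases hs : N.s e ∈ D
    · have ht := (hiff e).1 hs
      simp only [if_pos hs, if_pos ht]
      ring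
    · have ht : N.t e ∉ D := fun h => hs ((hiff e).2 h)
      simp only [if_neg hs, if_neg ht]
      ring
  have hvan : Van N.In f := by
    intro x hx
    have hxD : x ∉ D := by
      intro hxD
      obtain ⟨h1, h2⟩ := hD x hxD
      apply hx
      constructor
      · intro hxa
        rw [hxa, hOk.a0] at h1
        linarith
      · intro hxb
        rw [hxb, hOk.bR] at h2
        linarith
    rw [hf]
    exact if_neg hxD
  have h0 : N.fw (fun _ => 1) f f = 0 := by
    unfold Nt.fw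
    refine Finset.sum_eq_zero fun e _ => ?_
    rw [hd e]
    ring
  obtain ⟨x, hx⟩ := hne
  have h1 := hOk.pd f hvan h0 x
  rw [hf] at h1
  simp only [if_pos hx] at h1
  exact one_ne_zero h1

/-- the bound for a single edge -/
theorem TWI_one (hOk : N.Ok ph R 1 G) {lo h c : ℝ} (h0 : 0 ≤ h) (T : Finset E)
    (hfl : ∀ H : ℝ → ℝ, ∑ e ∈ T, N.d ph e *
      (H (cl lo h (ph (N.t e))) - H (cl lo h (ph (N.s e)))) = c * (H h - H 0))
    (e : E) (he : e ∈ T) (hlt : cl lo h (ph (N.s e)) < cl lo h (ph (N.t e))) :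
    N.d ph e ≤ c := by
  classical
  obtain ⟨z, hz⟩ : ∃ z, z = cl lo h (ph (N.s e)) := ⟨_, rfl⟩
  obtain ⟨H, hH⟩ : ∃ H : ℝ → ℝ, H = fun y => if z < y then 1 else 0 := ⟨_, rfl⟩
  have hHp : ∀ y, z < y → H y = 1 := fun y hy => by
    rw [hH]
    exact if_pos hy
  have hHn : ∀ y, ¬ z < y → H y = 0 := fun y hy => by
    rw [hH]
    exact if_neg hy
  have hmono : ∀ y y', y ≤ y' → H y ≤ H y' := by
    intro y y' hy
    by_cases h1 : z < y
    · rw [hHp y h1, hHp y' (lt_of_lt_of_le h1 hy)]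
    · rw [hHn y h1]
      by_cases h2 : z < y'
      · rw [hHp y' h2]
        exact zero_le_one
      · rw [hHn y' h2]
  have h1 := hfl H
  have h2 : H h = 1 := hHp h (by
    rw [hz]
    exact lt_of_lt_of_le hlt (TWI_le h0 _))
  have h3 : H 0 = 0 := hHn 0 (by
    rw [hz]
    exact not_lt.2 (TWI_nonneg lo h _))
  rw [h2, h3, sub_zero, mul_one] at h1
  rw [← h1]
  have h4 := Finset.single_le_sum (f := fun e => N.d ph e *
    (H (cl lo h (ph (N.t e))) - H (cl lo h (ph (N.s e))))) (s := T) (fun e' _ => by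
      refine mul_nonneg (hOk.up e') (sub_nonneg.2 (hmono _ _ (TWI_mono ?_)))
      have h5 := hOk.up e'
      unfold Nt.d at h5
      linarith) he
  refine le_trans (le_of_eq ?_) h4
  rw [hHp _ (by rw [hz]; exact hlt), hHn (cl lo h (ph (N.s e))) (by rw [hz]; exact lt_irrefl _)]
  ring

omit [Fintype E] in
theorem TWI_lt {lo h : ℝ} (e : E)
    (hlt : cl lo h (ph (N.s e)) < cl lo h (ph (N.t e))) : 0 < N.d ph e := by
  unfold Nt.d
  by_contra hcon
  have h1 : ph (N.t e) ≤ ph (N.s e) := by linarith [not_lt.1 hcon]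
  exact absurd hlt (not_lt.2 (TWI_mono h1))

theorem TWI_eq (hOk : N.Ok ph R 1 G) {lo h : ℝ} (e : E)
    (hn : ¬ cl lo h (ph (N.s e)) < cl lo h (ph (N.t e))) :
    cl lo h (ph (N.t e)) = cl lo h (ph (N.s e)) := by
  refine le_antisymm (not_lt.1 hn) (TWI_mono ?_)
  have h5 := hOk.up e
  unfold Nt.d at h5
  linarith

end main

theorem thm_TWI : St_TWI := by
  intro V E _ _ N ph R lo h G C A hOk hS
  classical
  have h1 := hS.h1
  have hpos : 0 < h := by linarith
  obtain ⟨cy, hcy⟩ : ∃ cy : V → ℝ, ∀ x, cl lo h (ph x) = cy x := ⟨fun x => cl lo h (ph x),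
    fun _ => rfl⟩
  have hcya : cy N.a = 0 := by
    rw [← hcy, hOk.a0]
    exact TWI_low hS.lo0
  have hcyb : cy N.b = h := by
    rw [← hcy, hOk.bR]
    exact TWI_high hpos.le hS.hi
  -- the key identity
  have key : ∀ H L : ℝ → ℝ, H 0 = L 0 → H h = L h →
      ∑ e ∈ A, N.d ph e * (H (cy (N.t e)) - H (cy (N.s e))) +
        ∑ e ∈ Aᶜ, N.d ph e * (L (cy (N.t e)) - L (cy (N.s e))) = H h - H 0 := by
    intro H L h00 hhh
    obtain ⟨F, hF⟩ : ∃ F : V → ℝ, F = fun x => if x ∈ C then H (cy x) else L (cy x) := ⟨_, rfl⟩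
    have hFp : ∀ x, x ∈ C → F x = H (cy x) := fun x hx => by
      rw [hF]
      exact if_pos hx
    have hFn : ∀ x, x ∉ C → F x = L (cy x) := fun x hx => by
      rw [hF]
      exact if_neg hx
    have hFe : ∀ x, (cy x = 0 ∨ cy x = h) → F x = H (cy x) := by
      intro x hx
      by_cases hxC : x ∈ C
      · exact hFp x hxC
      · rw [hFn x hxC]
        rcases hx with hx | hx
        · rw [hx, h00]
        · rw [hx, hhh]
    have hFa : F N.a = H 0 := by rw [hFe _ (Or.inl hcya), hcya]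
    have hFb : F N.b = H h := by rw [hFe _ (Or.inr hcyb), hcyb]
    have h2 := hOk.fl F
    rw [hFa, hFb, one_mul, ← Finset.sum_add_sum_compl A] at h2
    rw [← h2]
    congr 1
    · refine Finset.sum_congr rfl fun e he => ?_
      have h3 := (hS.mem e).1 he
      have hs : F (N.s e) = H (cy (N.s e)) := by
        by_cases hsC : N.s e ∈ C
        · exact hFp _ hsC
        · have htC : N.t e ∈ C := h3.resolve_left hsC
          refine hFe _ (Or.inl ?_)
          rw [← hcy]
          exact TWI_low (not_lt.1 fun hlt => hsC (hS.dn e htC hlt))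
      have ht : F (N.t e) = H (cy (N.t e)) := by
        by_cases htC : N.t e ∈ C
        · exact hFp _ htC
        · have hsC : N.s e ∈ C := h3.resolve_right htC
          refine hFe _ (Or.inr ?_)
          rw [← hcy]
          exact TWI_high hpos.le (not_lt.1 fun hlt => htC (hS.up e hsC hlt))
      have h4 : N.d F e = F (N.t e) - F (N.s e) := rfl
      rw [h4, hs, ht]
    · refine Finset.sum_congr rfl fun e he => ?_
      rw [Finset.mem_compl, hS.mem, not_or] at he
      have h4 : N.d F e = F (N.t e) - F (N.s e) := rfl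
      rw [h4, hFn _ he.1, hFn _ he.2]
  obtain ⟨σ, hσ⟩ : ∃ σ, σ = ∑ e ∈ A, N.d ph e * (cy (N.t e) - cy (N.s e)) := ⟨_, rfl⟩
  have hid := key (fun y => y) (fun y => y) rfl rfl
  simp only [sub_zero] at hid
  rw [← hσ] at hid
  have hfl : ∀ H : ℝ → ℝ, ∑ e ∈ A, N.d ph e * (H (cy (N.t e)) - H (cy (N.s e))) =
      σ / h * (H h - H 0) := by
    intro H
    have h2 := key H (fun y => H 0 + (H h - H 0) / h * y) (by simp) (by
      field_simp
      ring)
    have h3 : ∑ e ∈ Aᶜ, N.d ph e * ((fun y => H 0 + (H h - H 0) / h * y) (cy (N.t e)) -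
        (fun y => H 0 + (H h - H 0) / h * y) (cy (N.s e))) =
        (H h - H 0) / h * ∑ e ∈ Aᶜ, N.d ph e * (cy (N.t e) - cy (N.s e)) := by
      rw [Finset.mul_sum]
      refine Finset.sum_congr rfl fun e _ => ?_
      ring
    rw [h3] at h2
    have h4 : ∑ e ∈ Aᶜ, N.d ph e * (cy (N.t e) - cy (N.s e)) = h - σ := by linarith
    rw [h4] at h2
    have h5 : (H h - H 0) / h * (h - σ) = (H h - H 0) - σ / h * (H h - H 0) := by
      field_simp
    rw [h5] at h2
    linarith
  have hfl' : ∀ L : ℝ → ℝ, ∑ e ∈ Aᶜ, N.d ph e * (L (cy (N.t e)) - L (cy (N.s e))) =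
      (1 - σ / h) * (L h - L 0) := by
    intro L
    have h2 := key L L rfl rfl
    rw [hfl L] at h2
    linarith
  have hle : ∀ e ∈ A, cl lo h (ph (N.s e)) < cl lo h (ph (N.t e)) → N.d ph e ≤ σ / h :=
    fun e he => TWI_one hOk hpos.le A (fun H => by
      have h2 := hfl H
      simp only [hcy]
      exact h2) e he
  have hle' : ∀ e, e ∉ A → cl lo h (ph (N.s e)) < cl lo h (ph (N.t e)) →
      N.d ph e ≤ 1 - σ / h :=
    fun e he => TWI_one hOk hpos.le Aᶜ (fun H => by
      have h2 := hfl' H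
      simp only [hcy]
      exact h2) e (Finset.mem_compl.2 he)
  have hi0 : 0 < σ / h := by
    by_contra hcon
    have hcon' := not_lt.1 hcon
    refine TWI_no hOk hS.lo0 hS.hi C hS.sub hS.ne fun e => ?_
    constructor
    · intro hs
      have he : e ∈ A := (hS.mem e).2 (Or.inl hs)
      have hn : ¬ cl lo h (ph (N.s e)) < cl lo h (ph (N.t e)) := fun hlt =>
        absurd (TWI_lt e hlt) (not_lt.2 ((hle e he hlt).trans hcon'))
      have h2 := TWI_eq hOk e hn
      obtain ⟨h3, h4⟩ := hS.sub _ hs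
      exact hS.up e hs (TWI_same h3 h4 h2).2
    · intro ht
      have he : e ∈ A := (hS.mem e).2 (Or.inr ht)
      have hn : ¬ cl lo h (ph (N.s e)) < cl lo h (ph (N.t e)) := fun hlt =>
        absurd (TWI_lt e hlt) (not_lt.2 ((hle e he hlt).trans hcon'))
      have h2 := TWI_eq hOk e hn
      obtain ⟨h3, h4⟩ := hS.sub _ ht
      exact hS.dn e ht (TWI_same h3 h4 h2.symm).1
  have hi1 : σ / h < 1 := by
    by_contra hcon
    have hcon' : 1 - σ / h ≤ 0 := by linarith [not_lt.1 hcon]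
    refine TWI_no hOk hS.lo0 hS.hi {x | x ∉ C ∧ lo < ph x ∧ ph x < lo + h}
      (fun x hx => hx.2) hS.ne' fun e => ?_
    constructor
    · rintro ⟨hs, h3, h4⟩
      have ht : N.t e ∉ C := fun ht => hs (hS.dn e ht h3)
      have he : e ∉ A := fun he => ((hS.mem e).1 he).elim hs ht
      have hn : ¬ cl lo h (ph (N.s e)) < cl lo h (ph (N.t e)) := fun hlt =>
        absurd (TWI_lt e hlt) (not_lt.2 ((hle' e he hlt).trans hcon'))
      exact ⟨ht, TWI_same h3 h4 (TWI_eq hOk e hn)⟩
    · rintro ⟨ht, h3, h4⟩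
      have hs : N.s e ∉ C := fun hs => ht (hS.up e hs h4)
      have he : e ∉ A := fun he => ((hS.mem e).1 he).elim hs ht
      have hn : ¬ cl lo h (ph (N.s e)) < cl lo h (ph (N.t e)) := fun hlt =>
        absurd (TWI_lt e hlt) (not_lt.2 ((hle' e he hlt).trans hcon'))
      exact ⟨hs, TWI_same h3 h4 (TWI_eq hOk e hn).symm⟩
  refine ⟨σ / h, hi0, hi1, fun H => ?_, fun H => ?_, hle, hle'⟩
  · simp only [hcy]
    exact hfl H
  · simp only [hcy]
    exact hfl' H

end ALZ
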