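import Pool.Agent.ALZ.StT

/-!
# ALZ [TWL]: the test functions
-/

set_option autoImplicit false

namespace ALZ

theorem TWL_cl_mono (lo h : ℝ) : Monotone (cl lo h) := by
  intro x y hxy
  unfold cl
  exact max_le_max le_rfl (min_le_min le_rfl (by linarith))

theorem TWL_cl_lip {lo h : ℝ} {x y : ℝ} (hxy : x ≤ y) : cl lo h y - cl lo h x ≤ y - x := by
  unfold cl
  rcases le_total h (y - lo) with h1 | h1 <;> rcases le_total h (x - lo) with h2 | h2
  · rw [min_eq_left h1, min_eq_left h2]; linarith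
  · rw [min_eq_left h1, min_eq_right h2]
    have := le_max_right 0 (x - lo)
    rcases le_total 0 h with h3 | h3
    · rw [max_eq_right h3]; linarith
    · rw [max_eq_left h3]
      have := le_max_left 0 (x - lo)
      linarith
  · rw [min_eq_right h1, min_eq_left h2]
    have := le_max_left 0 h
    have h4 := le_max_right 0 h
    rcases le_total 0 (y - lo) with h3 | h3
    · rw [max_eq_right h3]; linarith
    · rw [max_eq_left h3]; linarith
  · rw [min_eq_right h1, min_eq_right h2]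
    have := le_max_left 0 (x - lo)
    have h4 := le_max_right 0 (x - lo)
    rcases le_total 0 (y - lo) with h3 | h3
    · rw [max_eq_right h3]; linarith
    · rw [max_eq_left h3]; linarith

theorem TWL_g2_mono (lo h : ℝ) : Monotone (fun y => y - cl lo h y) := by
  intro x y hxy
  have := TWL_cl_lip (lo := lo) (h := h) hxy
  simp only
  linarith

theorem TWL_cl_min (lo h x y : ℝ) : cl lo h (min x y) = min (cl lo h x) (cl lo h y) :=
  (TWL_cl_mono lo h).map_min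

theorem TWL_cl_nonneg (lo h y : ℝ) : 0 ≤ cl lo h y := le_max_left _ _

theorem TWL_cl_le {lo h : ℝ} (hh : 0 ≤ h) (y : ℝ) : cl lo h y ≤ h :=
  max_le hh (min_le_left _ _)

/-- for a monotone `g` the part between `p` and `q` is monotone -/
theorem TWL_mid {g : ℝ → ℝ} (hg : Monotone g) {p q α β : ℝ} (hpq : p ≤ q) (hαβ : α ≤ β) :
    g (min β p) - g (min α p) ≤ g (min β q) - g (min α q) := by
  rcases le_total β p with h1 | h1
  · rw [min_eq_left h1, min_eq_left (hαβ.trans h1), min_eq_left (h1.trans hpq),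
      min_eq_left ((hαβ.trans h1).trans hpq)]
  · rw [min_eq_right h1]
    rcases le_total α p with h2 | h2
    · rw [min_eq_left h2, min_eq_left (h2.trans hpq)]
      have := hg (le_min h1 hpq)
      linarith
    · rw [min_eq_right h2]
      have := hg (min_le_min hαβ (le_refl q))
      linarith

/-- for a monotone `g` the part above `q` is monotone -/
theorem TWL_top {g : ℝ → ℝ} (hg : Monotone g) {q α β : ℝ} (hαβ : α ≤ β) :
    g (min β q) - g (min α q) ≤ g β - g α := by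
  rcases le_total β q with h1 | h1
  · rw [min_eq_left h1, min_eq_left (hαβ.trans h1)]
  · rw [min_eq_right h1]
    rcases le_total α q with h2 | h2
    · rw [min_eq_left h2]
      have := hg h1
      linarith
    · rw [min_eq_right h2]
      have := hg hαβ
      linarith

theorem TWL_cs {P Q a b S T : ℝ} (ha : 0 ≤ a) (hb : 0 ≤ b) (hS : 0 ≤ S) (hT : 0 ≤ T)
    (h1 : P ^ 2 ≤ a * S) (h2 : Q ^ 2 ≤ b * T) : (P + Q) ^ 2 ≤ (a + b) * (S + T) := by
  have e1 : (P * Q) ^ 2 ≤ ((a * T + b * S) / 2) ^ 2 := by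
    have h3 : P ^ 2 * Q ^ 2 ≤ (a * S) * (b * T) :=
      mul_le_mul h1 h2 (sq_nonneg _) (mul_nonneg ha hS)
    nlinarith [sq_nonneg (a * T - b * S)]
  have e2 : P * Q ≤ (a * T + b * S) / 2 := by
    apply le_of_sq_le_sq' e1
    have := mul_nonneg ha hT
    have := mul_nonneg hb hS
    linarith
  nlinarith
where
  le_of_sq_le_sq' {x y : ℝ} (h : x ^ 2 ≤ y ^ 2) (hy : 0 ≤ y) : x ≤ y :=
    le_trans (le_abs_self x) (abs_le_of_sq_le_sq h hy)

theorem TWL_cs6 {w1 w2 w3 w4 w5 w6 x1 x2 x3 x4 x5 x6 : ℝ} (h1 : 0 ≤ w1) (h2 : 0 ≤ w2)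
    (h3 : 0 ≤ w3) (h4 : 0 ≤ w4) (h5 : 0 ≤ w5) (h6 : 0 ≤ w6) :
    (x1 * w1 + x2 * w2 + x3 * w3 + x4 * w4 + x5 * w5 + x6 * w6) ^ 2 ≤
      (w1 + w2 + w3 + w4 + w5 + w6) * (x1 ^ 2 * w1 + x2 ^ 2 * w2 + x3 ^ 2 * w3 + x4 ^ 2 * w4 +
        x5 ^ 2 * w5 + x6 ^ 2 * w6) := by
  have s : ∀ {x w : ℝ}, (x * w) ^ 2 ≤ w * (x ^ 2 * w) := fun {x w} => le_of_eq (by ring)
  have m : ∀ {x w : ℝ}, 0 ≤ w → 0 ≤ x ^ 2 * w := fun {x w} hw => mul_nonneg (sq_nonneg x) hw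
  have a2 := TWL_cs h1 h2 (m (x := x1) h1) (m (x := x2) h2) s s
  have a3 := TWL_cs (add_nonneg h1 h2) h3 (add_nonneg (m (x := x1) h1) (m (x := x2) h2))
    (m (x := x3) h3) a2 s
  have a4 := TWL_cs (add_nonneg (add_nonneg h1 h2) h3) h4
    (add_nonneg (add_nonneg (m (x := x1) h1) (m (x := x2) h2)) (m (x := x3) h3))
    (m (x := x4) h4) a3 s
  have a5 := TWL_cs (add_nonneg (add_nonneg (add_nonneg h1 h2) h3) h4) h5
    (add_nonneg (add_nonneg (add_nonneg (m (x := x1) h1) (m (x := x2) h2)) (m (x := x3) h3))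
    (m (x := x4) h4)) (m (x := x5) h5) a4 s
  exact TWL_cs (add_nonneg (add_nonneg (add_nonneg (add_nonneg h1 h2) h3) h4) h5) h6
    (add_nonneg (add_nonneg (add_nonneg (add_nonneg (m (x := x1) h1) (m (x := x2) h2))
    (m (x := x3) h3)) (m (x := x4) h4)) (m (x := x5) h5)) (m (x := x6) h6) a5 s

/-- three slopes: `p` up to `y1`, `q` up to `y2`, `s` above -/
def TWL_k (y1 y2 p q s y : ℝ) : ℝ :=
  p * min y y1 + q * (min y y2 - min y y1) + s * (y - min y y2)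

theorem TWL_k0 {y1 y2 p q s : ℝ} (h1 : 0 ≤ y1) (h2 : y1 ≤ y2) : TWL_k y1 y2 p q s 0 = 0 := by
  unfold TWL_k
  rw [min_eq_left h1, min_eq_left (h1.trans h2)]
  ring

theorem TWL_kR {R y1 y2 p q s : ℝ} (h2 : y1 ≤ y2) (h3 : y2 ≤ R) :
    TWL_k y1 y2 p q s R = p * y1 + q * (y2 - y1) + s * (R - y2) := by
  unfold TWL_k
  rw [min_eq_right (h2.trans h3), min_eq_right h3]

theorem TWL_k1 {y1 y2 p q s : ℝ} (h2 : y1 ≤ y2) : TWL_k y1 y2 p q s y1 = p * y1 := by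
  unfold TWL_k
  rw [min_self, min_eq_left h2]
  ring

theorem TWL_k2 {y1 y2 p q s : ℝ} (h2 : y1 ≤ y2) :
    TWL_k y1 y2 p q s y2 = p * y1 + q * (y2 - y1) := by
  unfold TWL_k
  rw [min_self, min_eq_right h2]
  ring

theorem thm_TWL : St_TWL := by
  intro R lo h y1 y2 hR hlo hh hhi hy1 hy12 hy2
  obtain ⟨c1, hc1⟩ : ∃ c, c = cl lo h y1 := ⟨_, rfl⟩
  obtain ⟨c2, hc2⟩ : ∃ c, c = cl lo h y2 := ⟨_, rfl⟩
  have hc1n : 0 ≤ c1 := hc1 ▸ TWL_cl_nonneg lo h y1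
  have hc12 : c1 ≤ c2 := by rw [hc1, hc2]; exact TWL_cl_mono lo h hy12
  have hc2h : c2 ≤ h := hc2 ▸ TWL_cl_le hh.le y2
  obtain ⟨m, hm⟩ : ∃ m, m = (y1 + y2) / R := ⟨_, rfl⟩
  obtain ⟨n, hn⟩ : ∃ n, n = (c1 + c2) / h := ⟨_, rfl⟩
  have hmR : m * R = y1 + y2 := by rw [hm]; field_simp
  have hnh : n * h = c1 + c2 := by rw [hn]; field_simp
  have hPs : Ps R y1 y2 / R = 3 * y1 + y2 - (y1 + y2) * m := by
    rw [hm]; unfold Ps; field_simp; ring
  have hPs' : Ps h c1 c2 / h = 3 * c1 + c2 - (c1 + c2) * n := by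
    rw [hn]; unfold Ps; field_simp; ring
  refine ⟨TWL_k y1 y2 (2 - m) (1 - m) (-m), TWL_k y1 y2 ((2 - m) ^ 2) ((1 - m) ^ 2) ((-m) ^ 2),
    TWL_k c1 c2 (2 - n) (1 - n) (-n), TWL_k c1 c2 ((2 - n) ^ 2) ((1 - n) ^ 2) ((-n) ^ 2),
    TWL_k c1 c2 ((2 - m) * (2 - n)) ((1 - m) * (1 - n)) ((-m) * (-n)),
    TWL_k0 hy1 hy12, ?_, ?_, ?_, TWL_k0 hc1n hc12, ?_, ?_, ?_, ?_⟩
  · rw [TWL_kR hy12 hy2]
    linear_combination -hmR
  · rw [TWL_k1 hy12, TWL_k2 hy12, hPs]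
    ring
  · rw [TWL_kR hy12 hy2, TWL_k0 hy1 hy12, hPs]
    linear_combination m * hmR
  · rw [TWL_kR hc12 hc2h]
    linear_combination -hnh
  · rw [← hc1, ← hc2, TWL_k1 hc12, TWL_k2 hc12, hPs']
    ring
  · rw [← hc1, ← hc2, TWL_kR hc12 hc2h, TWL_k0 hc1n hc12, hPs']
    linear_combination n * hnh
  · intro μ α β hα hαβ hβ
    -- increments
    have g1m := TWL_cl_mono lo h
    have g2m := TWL_g2_mono lo h
    have mc1 : ∀ y, min (cl lo h y) c1 = cl lo h (min y y1) := fun y => by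
      rw [hc1, TWL_cl_min]
    have mc2 : ∀ y, min (cl lo h y) c2 = cl lo h (min y y2) := fun y => by
      rw [hc2, TWL_cl_min]
    obtain ⟨e1, he1⟩ : ∃ e, e = cl lo h (min β y1) - cl lo h (min α y1) := ⟨_, rfl⟩
    obtain ⟨e2, he2⟩ : ∃ e, e = (cl lo h (min β y2) - cl lo h (min β y1)) -
      (cl lo h (min α y2) - cl lo h (min α y1)) := ⟨_, rfl⟩
    obtain ⟨e3, he3⟩ : ∃ e, e = (cl lo h β - cl lo h (min β y2)) -
      (cl lo h α - cl lo h (min α y2)) := ⟨_, rfl⟩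
    obtain ⟨d1, hd1⟩ : ∃ d, d = min β y1 - min α y1 - e1 := ⟨_, rfl⟩
    obtain ⟨d2, hd2⟩ : ∃ d, d = (min β y2 - min β y1) - (min α y2 - min α y1) - e2 := ⟨_, rfl⟩
    obtain ⟨d3, hd3⟩ : ∃ d, d = (β - min β y2) - (α - min α y2) - e3 := ⟨_, rfl⟩
    have p1 : 0 ≤ e1 := by
      have := g1m (min_le_min hαβ (le_refl y1))
      rw [he1]; linarith
    have p2 : 0 ≤ e2 := by
      have := TWL_mid g1m hy12 hαβ
      rw [he2]; linarith
    have p3 : 0 ≤ e3 := by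
      have := TWL_top g1m (q := y2) hαβ
      rw [he3]; linarith
    have p4 : 0 ≤ d1 := by
      have := g2m (min_le_min hαβ (le_refl y1))
      simp only at this
      rw [hd1, he1]; linarith
    have p5 : 0 ≤ d2 := by
      have := TWL_mid g2m hy12 hαβ
      rw [hd2, he2]; linarith
    have p6 : 0 ≤ d3 := by
      have := TWL_top g2m (q := y2) hαβ
      rw [hd3, he3]; linarith
    have k1d : TWL_k y1 y2 (2 - m) (1 - m) (-m) β - TWL_k y1 y2 (2 - m) (1 - m) (-m) α =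
        (2 - m) * (d1 + e1) + (1 - m) * (d2 + e2) + (-m) * (d3 + e3) := by
      rw [hd1, hd2, hd3]; unfold TWL_k; ring
    have q1d : TWL_k y1 y2 ((2 - m) ^ 2) ((1 - m) ^ 2) ((-m) ^ 2) β -
        TWL_k y1 y2 ((2 - m) ^ 2) ((1 - m) ^ 2) ((-m) ^ 2) α =
        (2 - m) ^ 2 * (d1 + e1) + (1 - m) ^ 2 * (d2 + e2) + (-m) ^ 2 * (d3 + e3) := by
      rw [hd1, hd2, hd3]; unfold TWL_k; ring
    have kd : ∀ p q s : ℝ, TWL_k c1 c2 p q s (cl lo h β) - TWL_k c1 c2 p q s (cl lo h α) =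
        p * e1 + q * e2 + s * e3 := by
      intro p q s
      unfold TWL_k
      rw [mc1, mc1, mc2, mc2, he1, he2, he3]
      ring
    have sum : β - α = d1 + d2 + d3 + e1 + e2 + e3 := by
      rw [hd1, hd2, hd3]; ring
    rw [k1d, q1d, kd, kd, kd, sum]
    have key := TWL_cs6 (w1 := d1) (w2 := d2) (w3 := d3) (w4 := e1) (w5 := e2) (w6 := e3)
      (x1 := 2 - m) (x2 := 1 - m) (x3 := -m) (x4 := 2 - m + μ * (2 - n))
      (x5 := 1 - m + μ * (1 - n)) (x6 := -m + μ * (-n)) p4 p5 p6 p1 p2 p3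
    have r1 : (2 - m) * (d1 + e1) + (1 - m) * (d2 + e2) + (-m) * (d3 + e3) +
        μ * ((2 - n) * e1 + (1 - n) * e2 + (-n) * e3) =
        (2 - m) * d1 + (1 - m) * d2 + (-m) * d3 + (2 - m + μ * (2 - n)) * e1 +
        (1 - m + μ * (1 - n)) * e2 + (-m + μ * (-n)) * e3 := by ring
    have r2 : (2 - m) ^ 2 * (d1 + e1) + (1 - m) ^ 2 * (d2 + e2) + (-m) ^ 2 * (d3 + e3) +
        2 * μ * ((2 - m) * (2 - n) * e1 + (1 - m) * (1 - n) * e2 + (-m) * (-n) * e3) +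
        μ ^ 2 * ((2 - n) ^ 2 * e1 + (1 - n) ^ 2 * e2 + (-n) ^ 2 * e3) =
        (2 - m) ^ 2 * d1 + (1 - m) ^ 2 * d2 + (-m) ^ 2 * d3 + (2 - m + μ * (2 - n)) ^ 2 * e1 +
        (1 - m + μ * (1 - n)) ^ 2 * e2 + (-m + μ * (-n)) ^ 2 * e3 := by ring
    rw [r1, r2]
    exact key

end ALZ
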