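import Pool.Agent.ALZ.StT

/-!
# ALZ, module TWO (helper72): the result for two parallel parts
-/

set_option autoImplicit false

namespace ALZ

theorem TWO_part {E : Type} (B : Finset E) (s c c' : E → ℝ) (h k : ℝ) (h1 : 1 ≤ h) (k0 : 0 < k)
    (k1 : k < 1) (s0 : ∀ e, 0 ≤ s e) (hc : ∀ e, c e ≤ c' e)
    (fl : ∀ H : ℝ → ℝ, ∑ e ∈ B, s e * (H (c' e) - H (c e)) = k * (H h - H 0))
    (le : ∀ e ∈ B, c e < c' e → s e ≤ k) (X : E → ℝ)
    (hX : ∀ e ∈ B, (2 * h * c' e ^ 2 - 4 / 3 * c' e ^ 3) - (2 * h * c e ^ 2 - 4 / 3 * c e ^ 3) +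
      (s e ^ 2 / 3 - s e * h) * (c' e - c e) ≤ s e * X e) :
    k * (2 / 3 * h ^ 3 - k * h ^ 2 + k ^ 2 * h / 3) ≤ ∑ e ∈ B, s e ^ 2 * X e := by
  have f1 := fl (fun y => 2 * h * y ^ 2 - 4 / 3 * y ^ 3)
  have f2 := fl (fun y => y)
  have key : ∀ e ∈ B, s e * ((2 * h * c' e ^ 2 - 4 / 3 * c' e ^ 3) -
      (2 * h * c e ^ 2 - 4 / 3 * c e ^ 3)) - (k * h - k ^ 2 / 3) * (s e * (c' e - c e)) ≤
      s e ^ 2 * X e := by
    intro e he
    have g1 := mul_le_mul_of_nonneg_left (hX e he) (s0 e)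
    have g2 : (s e * h - s e ^ 2 / 3) * (s e * (c' e - c e)) ≤
        (k * h - k ^ 2 / 3) * (s e * (c' e - c e)) := by
      rcases (hc e).eq_or_lt with g | g
      · rw [g]
        simp
      · have g3 := le e he g
        apply mul_le_mul_of_nonneg_right
        · nlinarith [mul_nonneg (sub_nonneg.2 g3) (by linarith : 0 ≤ h - (k + s e) / 3)]
        · exact mul_nonneg (s0 e) (by linarith)
    have g4 : s e * (s e * X e) = s e ^ 2 * X e := by ring
    rw [g4] at g1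
    linarith
  have h2 := Finset.sum_le_sum key
  rw [Finset.sum_sub_distrib, ← Finset.mul_sum, f1, f2] at h2
  refine le_trans (le_of_eq ?_) h2
  ring

theorem thm_TWO (hRNG : St_RNG) (hTWI : St_TWI) (hTWC : St_TWC) (hTWP : St_TWP)
    (hTWB : St_TWB) : St_TWO := by
  classical
  intro V V' E _ _ _ N N' ph x R lo h G G' C A hgood hS
  have hok := hgood.dual.ok
  obtain ⟨i, hi⟩ := hTWI V E N ph R lo h G C A hok hS
  obtain ⟨-, hsq, -⟩ := hRNG V E N ph R 1 G hok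
  have i0 := hi.i0
  have i1 := hi.i1
  have h1 := hS.h1
  have hR : 0 < R := hok.R0
  have hR1 : 1 ≤ R := hgood.r1
  have hh : 0 < h := by linarith
  have hTC := hTWC V E N ph R lo h i G C A hok hS hi
  obtain ⟨s, hs⟩ : ∃ s : E → ℝ, s = fun e => N.d ph e := ⟨_, rfl⟩
  obtain ⟨c, hc⟩ : ∃ c : E → ℝ, c = fun e => cl lo h (ph (N.s e)) := ⟨_, rfl⟩
  obtain ⟨c', hc'⟩ : ∃ c' : E → ℝ, c' = fun e => cl lo h (ph (N.t e)) := ⟨_, rfl⟩
  have s0 : ∀ e, 0 ≤ s e := by
    intro e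
    rw [hs]
    exact hok.up e
  have s1 : ∀ e, s e < 1 := by
    intro e
    rw [hs]
    exact hgood.lt1 e
  have hcc : ∀ e, c e ≤ c' e := by
    intro e
    rw [hc, hc']
    have := hok.up e
    unfold Nt.d at this
    simp only [cl]
    apply max_le_max le_rfl
    apply min_le_min le_rfl
    linarith
  have hX : ∀ e, (2 * h * c' e ^ 2 - 4 / 3 * c' e ^ 3) - (2 * h * c e ^ 2 - 4 / 3 * c e ^ 3) +
      (s e ^ 2 / 3 - s e * h) * (c' e - c e) ≤ s e * Ps h (c e) (c' e) := by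
    intro e
    have e1 : ph (N.s e) + s e = ph (N.t e) := by
      rw [hs]
      unfold Nt.d
      ring
    refine hTWP lo h (ph (N.s e)) (s e) (c e) (c' e) (s0 e) (by linarith [s1 e]) (by rw [hc]) ?_
      (fun y => 2 * h * y ^ 2 - 4 / 3 * y ^ 3) (fun y => rfl)
    rw [e1, hc']
  have p1 := TWO_part A s c c' h i h1 i0 i1 s0 hcc
    (fun H => by rw [hs, hc, hc']; exact hi.fl H)
    (fun e he g => by rw [hs]; rw [hc, hc'] at g; exact hi.le e he g)
    (fun e => Ps h (c e) (c' e)) (fun e _ => hX e)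
  have p2 := TWO_part Aᶜ s c c' h (1 - i) h1 (by linarith) (by linarith) s0 hcc
    (fun H => by rw [hs, hc, hc']; exact hi.fl' H)
    (fun e he g => by
      rw [hs]
      rw [hc, hc'] at g
      exact hi.le' e (Finset.mem_compl.1 he) g)
    (fun e => Ps h (c e) (c' e)) (fun e _ => hX e)
  obtain ⟨ξ, hξ⟩ : ∃ ξ : E → ℝ, ξ = fun e =>
    if e ∈ A then (1 - i) / i * (Ps h (c e) (c' e) / h) else
      i / (1 - i) * (Ps h (c e) (c' e) / h) := ⟨_, rfl⟩
  have hle : ∀ e, Ps R (ph (N.s e)) (ph (N.t e)) / R + ξ e ≤ N.gp G e := by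
    intro e
    rw [hξ]
    by_cases he : e ∈ A
    · simp only [he, if_true]
      rw [hc, hc']
      exact (hTC e).1 he
    · simp only [he, if_false]
      rw [hc, hc']
      exact (hTC e).2 he
  refine le_trans ?_ (hTWB V V' E N N' ph x R G G' ξ hgood hle)
  apply div_le_div_of_nonneg_right _ hR.le
  -- the sum
  have q1 : ∑ e, s e ^ 2 * ξ e = (1 - i) / i / h * (∑ e ∈ A, s e ^ 2 * Ps h (c e) (c' e)) +
      i / (1 - i) / h * (∑ e ∈ Aᶜ, s e ^ 2 * Ps h (c e) (c' e)) := by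
    rw [← Finset.sum_add_sum_compl A, Finset.mul_sum, Finset.mul_sum]
    congr 1
    · refine Finset.sum_congr rfl fun e he => ?_
      rw [hξ]
      simp only [he, if_true]
      ring
    · refine Finset.sum_congr rfl fun e he => ?_
      rw [hξ]
      have : e ∉ A := Finset.mem_compl.1 he
      simp only [this, if_false]
      ring
  have q2 : (1 - i) * (2 / 3 * h ^ 2 - i * h + i ^ 2 / 3) ≤
      (1 - i) / i / h * (∑ e ∈ A, s e ^ 2 * Ps h (c e) (c' e)) := by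
    have g := mul_le_mul_of_nonneg_left p1 (by
      have : 0 < 1 - i := by linarith
      positivity : 0 ≤ (1 - i) / i / h)
    refine le_trans (le_of_eq ?_) g
    field_simp
  have q3 : i * (2 / 3 * h ^ 2 - (1 - i) * h + (1 - i) ^ 2 / 3) ≤
      i / (1 - i) / h * (∑ e ∈ Aᶜ, s e ^ 2 * Ps h (c e) (c' e)) := by
    have hi1 : 0 < 1 - i := by linarith
    have g := mul_le_mul_of_nonneg_left p2 (by positivity : 0 ≤ i / (1 - i) / h)
    refine le_trans (le_of_eq ?_) g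
    field_simp
  have q4 : 2 / 3 * h ^ 2 - h / 2 + 1 / 12 ≤ ∑ e, s e ^ 2 * ξ e := by
    rw [q1]
    have g : i * (1 - i) ≤ 1 / 4 := by nlinarith [sq_nonneg (i - 1 / 2)]
    nlinarith [mul_nonneg (sub_nonneg.2 g) (by linarith : 0 ≤ 2 * h - 1 / 3)]
  have q5 : ∀ e, s e ^ 2 * (3 / 4 * ξ e) - s e ^ 2 * (1 / (2 * R)) ≤
      N.d ph e ^ 2 * (3 / 4 * ((1 - N.d ph e) * (1 - N.d ph e / R)) -
        N.d ph e ^ 2 / (2 * R) + 3 / 4 * ξ e) := by
    intro e
    have e1 : N.d ph e = s e := by rw [hs]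
    rw [e1]
    have g1 : 0 ≤ (1 - s e) * (1 - s e / R) := by
      apply mul_nonneg
      · linarith [s1 e]
      · have : s e / R ≤ 1 := by
          rw [div_le_one hR]
          linarith [s1 e]
        linarith
    have g2 : s e ^ 2 / (2 * R) ≤ 1 / (2 * R) := by
      apply div_le_div_of_nonneg_right _ (by positivity)
      nlinarith [s0 e, s1 e]
    have g3 : 0 ≤ s e ^ 2 := by positivity
    nlinarith [mul_nonneg g3 g1, mul_le_mul_of_nonneg_left g2 g3]
  have q6 := Finset.sum_le_sum (s := Finset.univ) fun e _ => q5 e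
  rw [Finset.sum_sub_distrib, ← Finset.sum_mul] at q6
  have q7 : ∑ e, s e ^ 2 = R := by
    rw [hs]
    simpa using hsq
  have q8 : ∑ e, s e ^ 2 * (3 / 4 * ξ e) = 3 / 4 * ∑ e, s e ^ 2 * ξ e := by
    rw [Finset.mul_sum]
    exact Finset.sum_congr rfl fun e _ => by ring
  rw [q7, q8] at q6
  have q9 : R * (1 / (2 * R)) = 1 / 2 := by field_simp
  rw [q9] at q6
  refine le_trans ?_ q6
  linarith

end ALZ
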