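import Pool.Agent.ALZ.StT

/-!
# ALZ, module TWP: parts of an interval in the strip
-/

set_option autoImplicit false

namespace ALZ

theorem TWP_cl0 {lo γ y : ℝ} (h : y ≤ lo) : cl lo γ y = 0 := by
  unfold cl
  rw [max_eq_left]
  exact (min_le_right _ _).trans (by linarith)

theorem TWP_cl1 {lo γ y : ℝ} (h0 : 0 ≤ γ) (h : lo + γ ≤ y) : cl lo γ y = γ := by
  unfold cl
  rw [min_eq_left (by linarith), max_eq_right h0]

theorem TWP_cl2 {lo γ y : ℝ} (h1 : lo ≤ y) (h2 : y ≤ lo + γ) : cl lo γ y = y - lo := by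
  unfold cl
  rw [min_eq_right (by linarith), max_eq_right (by linarith)]

theorem TWP_nn {h l s : ℝ} (h0 : 0 ≤ l) (h1 : l ≤ s) (h2 : s ≤ h) :
    0 ≤ l * ((s - l) * (6 * h - s - 4 * l)) / 3 := by
  have h3 : 0 ≤ s - l := by linarith
  have h4 : 0 ≤ 6 * h - s - 4 * l := by linarith
  positivity

theorem thm_TWP : St_TWP := by
  intro lo h α s c c' hs hsh hc hc' P hP
  have hh : 0 ≤ h := hs.trans hsh
  rw [hP, hP]
  unfold Ps
  rcases le_or_gt (α + s) lo with h1 | h1
  · rw [TWP_cl0 h1] at hc'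
    rw [TWP_cl0 (by linarith)] at hc
    subst hc hc'
    ring_nf
    exact le_rfl
  rcases le_or_gt (lo + h) α with h2 | h2
  · rw [TWP_cl1 hh (by linarith)] at hc'
    rw [TWP_cl1 hh h2] at hc
    subst hc hc'
    ring_nf
    exact le_rfl
  rcases le_or_gt lo α with h3 | h3
  · rw [TWP_cl2 h3 h2.le] at hc
    rcases le_or_gt (α + s) (lo + h) with h4 | h4
    · rw [TWP_cl2 (by linarith) h4] at hc'
      have h5 : c' = c + s := by linarith
      rw [h5]
      refine le_of_eq ?_
      ring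
    · rw [TWP_cl1 hh h4.le] at hc'
      have h5 := TWP_nn (h := h) (l := h - c) (s := s) (by linarith) (by linarith) hsh
      rw [hc']
      refine sub_nonneg.1 (h5.trans (le_of_eq ?_))
      ring
  · rw [TWP_cl0 h3.le] at hc
    rw [TWP_cl2 h1.le (by linarith)] at hc'
    have h5 := TWP_nn (h := h) (l := c') (s := s) (by linarith) (by linarith) hsh
    rw [hc]
    refine sub_nonneg.1 (h5.trans (le_of_eq ?_))
    ring

end ALZ
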