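import Pool.Agent.ALZ.St

/-!
# ALZ / VSM: sum over the strips
-/

set_option autoImplicit false

namespace ALZ

theorem thm_VSM (h1 : St_GEX) (h2 : St_GMP) (h3 : St_RNG) (h4 : St_FLJ) (h5 : St_OVL)
    (h6 : St_DSJ) (h7 : St_PRT) : St_VSM := by
  intro V E _ _ _ N ph R I G J hok hJ
  have hG : ∀ x y, 0 ≤ G x y := fun x y =>
    (h2 V E N (fun _ => 1) (fun _ => 1) N.In N.In G G (fun _ => zero_le_one) hok.pd hok.gr hok.pd
      hok.gr subset_rfl (fun _ _ _ => rfl) (fun _ _ => le_rfl) x y).1
  have hov := h5 V E N ph R I G hok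
  have hbig : ∀ j ∈ J, I < 2 * N.d ph j := by
    intro j hj
    have h := (hJ j hj).2.2
    have hI := hok.I0
    linarith
  -- the terms
  let P : E → ℝ → ℝ := fun j y => 3 / 2 * N.d ph j * y ^ 2 - y ^ 3
  let X : E → E → ℝ := fun e j => if e = j then 0 else
    N.d ph e * (P j (N.cj ph j (N.t e)) - P j (N.cj ph j (N.s e))) /
      ((I - N.d ph j) * N.d ph j) - N.d ph e * N.lj ph e j *
    (3 / 4 + 3 / 4 * (N.d ph e / (I - N.d ph j)) -
      N.d ph e ^ 2 / ((I - N.d ph j) * N.d ph j))
  have hX : ∀ e, ∀ j ∈ J, e ≠ j → X e j =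
      (N.d ph e * (P j (N.cj ph j (N.t e)) - P j (N.cj ph j (N.s e)) -
      (3 / 4 * ((I - N.d ph j) * N.d ph j) + 3 / 4 * (N.d ph j * N.d ph e) - N.d ph e ^ 2) *
        N.lj ph e j)) / ((I - N.d ph j) * N.d ph j) := by
    intro e j hj hej
    have hg : N.d ph j ≠ 0 := (hJ j hj).1.ne'
    have hw : I - N.d ph j ≠ 0 := by
      have := (hJ j hj).2.1
      intro h
      linarith
    simp only [X, if_neg hej]
    field_simp
  have hclaim : ∀ e, ∑ j ∈ J, X e j ≤ 3 * (N.d ph e ^ 2 * G (N.s e) (N.t e)) := by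
    intro e
    have hpos : 0 ≤ 3 * (N.d ph e ^ 2 * G (N.s e) (N.t e)) :=
      mul_nonneg (by norm_num) (mul_nonneg (sq_nonneg _) (hG _ _))
    by_cases hin : ∃ j ∈ J, e ≠ j ∧ N.Ins ph e j
    · obtain ⟨j, hj, hej, hins⟩ := hin
      have hz : ∀ j' ∈ J, j' ≠ j → X e j' = 0 := by
        intro j' hj' hne
        by_cases hej' : e = j'
        · simp only [X, if_pos hej']
        · have hl : N.lj ph e j' = 0 := hov.2.1 e j j' (Ne.symm hne)
            (by have a := hbig j hj; have b := hbig j' hj'; linarith) hins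
          have hc : N.cj ph j' (N.t e) = N.cj ph j' (N.s e) := by
            have : N.cj ph j' (N.t e) - N.cj ph j' (N.s e) = 0 := hl
            linarith
          rw [hX e j' hj' hej', hl, hc]
          simp
      rw [Finset.sum_eq_single j (fun j' hj' hne => hz j' hj' hne) (fun h => absurd hj h)]
      have hg : 0 < N.d ph j := (hJ j hj).1
      have hw : 0 < I - N.d ph j := by have := (hJ j hj).2.1; linarith
      have hp := (h7 V E N ph R I G e j hok hej hg (hJ j hj).2.1 (hJ j hj).2.2 (P j)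
        (I - N.d ph j) (N.d ph j) rfl rfl (fun _ => rfl)).1 hins
      rw [hX e j hj hej, div_le_iff₀ (mul_pos hw hg)]
      calc _ ≤ _ := hp
        _ = _ := by ring
    · push Not at hin
      refine le_trans (Finset.sum_nonpos fun j hj => ?_) hpos
      by_cases hej : e = j
      · simp only [X, if_pos hej]
        exact le_rfl
      · have hg : 0 < N.d ph j := (hJ j hj).1
        have hw : 0 < I - N.d ph j := by have := (hJ j hj).2.1; linarith
        have hp := (h7 V E N ph R I G e j hok hej hg (hJ j hj).2.1 (hJ j hj).2.2 (P j)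
          (I - N.d ph j) (N.d ph j) rfl rfl (fun _ => rfl)).2 (hin j hj hej)
        rw [hX e j hj hej]
        exact div_nonpos_of_nonpos_of_nonneg hp (mul_pos hw hg).le
  have hsum : ∑ j ∈ J, (N.d ph j ^ 2 / 2 - ∑ e, if e = j then 0 else N.d ph e * N.lj ph e j *
      (3 / 4 + 3 / 4 * (N.d ph e / (I - N.d ph j)) -
        N.d ph e ^ 2 / ((I - N.d ph j) * N.d ph j))) = ∑ e, ∑ j ∈ J, X e j := by
    rw [Finset.sum_comm]
    refine Finset.sum_congr rfl fun j hj => ?_
    have hg : N.d ph j ≠ 0 := (hJ j hj).1.ne'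
    have hw : I - N.d ph j ≠ 0 := by
      have := (hJ j hj).2.1
      intro h
      linarith
    have hf := (h4 V E N ph R I G j hok).1 (P j)
    have h8 : ∑ e, X e j = (∑ e, if e = j then 0 else
        N.d ph e * (P j (N.cj ph j (N.t e)) - P j (N.cj ph j (N.s e)))) /
          ((I - N.d ph j) * N.d ph j) -
        ∑ e, if e = j then 0 else N.d ph e * N.lj ph e j *
      (3 / 4 + 3 / 4 * (N.d ph e / (I - N.d ph j)) -
        N.d ph e ^ 2 / ((I - N.d ph j) * N.d ph j)) := by
      rw [Finset.sum_div, ← Finset.sum_sub_distrib]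
      refine Finset.sum_congr rfl fun e _ => ?_
      simp only [X]
      split_ifs <;> simp
    rw [h8, hf]
    congr 1
    simp only [P]
    field_simp
    ring
  rw [hsum, Finset.mul_sum]
  exact Finset.sum_le_sum fun e _ => hclaim e

end ALZ
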