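import Pool.Agent.ALZ.GEX
import Pool.Agent.ALZ.GMP
import Pool.Agent.ALZ.DIR
import Pool.Agent.ALZ.LEV
import Pool.Agent.ALZ.RNG
import Pool.Agent.ALZ.FLJ
import Pool.Agent.ALZ.OVL
import Pool.Agent.ALZ.DSJ
import Pool.Agent.ALZ.TNT
import Pool.Agent.ALZ.ENC
import Pool.Agent.ALZ.LVI
import Pool.Agent.ALZ.STP
import Pool.Agent.ALZ.PRT
import Pool.Agent.ALZ.VSM
import Pool.Agent.ALZ.HSM
import Pool.Agent.ALZ.SQA
import Pool.Agent.ALZ.SMA
import Pool.Agent.ALZ.NMA
import Pool.Agent.ALZ.NMB
import Pool.Agent.ALZ.FNA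
import Pool.Agent.ALZ.CLS
import Pool.Agent.ALZ.CPR
import Pool.Agent.ALZ.CED
import Pool.Agent.ALZ.CSM
import Pool.Agent.ALZ.FNC
import Pool.Agent.ALZ.TWI
import Pool.Agent.ALZ.TWL
import Pool.Agent.ALZ.TWC
import Pool.Agent.ALZ.TWP
import Pool.Agent.ALZ.TWB
import Pool.Agent.ALZ.TWO
import Pool.Agent.ALZ.TWF

/-!
# ALZ: the lower bound for `z`, assembly
-/

set_option autoImplicit false

namespace ALZ

/-- the range of the potential -/
theorem rng : St_RNG := thm_RNG
/-- flow identity in the range of an edge -/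
theorem flj : St_FLJ := thm_FLJ rng
/-- overlapping ranges -/
theorem ovl : St_OVL := thm_OVL rng flj
/-- disjoint ranges -/
theorem dsj : St_DSJ := thm_DSJ rng flj ovl
/-- comparison with the kernel `Lev` -/
theorem lvi : St_LVI := thm_LVI thm_DIR rng thm_TNT
/-- strip -/
theorem stp : St_STP := thm_STP thm_GEX thm_GMP thm_DIR thm_LEV rng flj ovl thm_TNT
/-- strip, all edges -/
theorem prt : St_PRT := thm_PRT thm_GEX thm_GMP rng flj ovl stp
/-- strips, sum -/
theorem vsm : St_VSM := thm_VSM thm_GEX thm_GMP rng flj ovl dsj prt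
/-- one strip -/
theorem hsm : St_HSM := thm_HSM flj ovl vsm
/-- fourth powers -/
theorem sqa : St_SQA := thm_SQA rng flj ovl dsj vsm
/-- the bound for small height in terms of the big squares -/
theorem sma : St_SMA := thm_SMA thm_GMP sqa hsm dsj
/-- height at most `3/2` -/
theorem fna : St_FNA := thm_FNA sma thm_NMA thm_NMB
/-- comparison with `Lev` plus strip -/
theorem cls : St_CLS := thm_CLS thm_DIR rng flj (thm_ENC thm_TNT)
/-- one edge, all strips -/
theorem ced : St_CED := thm_CED rng flj ovl dsj lvi cls (thm_CPR rng flj ovl)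
/-- sum over all edges -/
theorem csm : St_CSM := thm_CSM rng flj lvi ced dsj
/-- height at least `3/2` -/
theorem fnc : St_FNC := thm_FNC rng flj ovl dsj csm

/-- the lower bound for `z` -/
theorem zfn : St_ZFN := fun V V' E _ _ _ N N' ph x R G G' h =>
  ⟨fun hR => fna V V' E N N' ph x R G G' h hR, fun hR => fnc V V' E N N' ph x R G G' h hR⟩

/-- two parallel parts -/
theorem two : St_TWO :=
  thm_TWO rng thm_TWI (thm_TWC thm_DIR rng thm_TWL) thm_TWP (thm_TWB rng lvi)

/-- two parallel parts in the middle half -/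
theorem twf : St_TWF := thm_TWF two

end ALZ
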