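import Pool.Agent.ALZ.St

/-!
# ALZ: lower bound for `z` in the case of two parallel parts, frozen statements

If the vertices with height in `(lo, lo + h)` split into two non empty classes without an edge between
them, then `zh ≥ h^2/(2R) - 3h/(8R) - 7/(16R)`. The docstrings contain complete proofs.
`s_e = N.d ph e`, `u = N.s e`, `v = N.t e`, `cy x = cl lo h (ph x)`, `l_e = cy v - cy u ≥ 0`.
-/

set_option autoImplicit false

namespace ALZ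

/-- the vertices with height in `(lo, lo + h)` split into `C` and the rest; `A` = the edges with an end
in `C` -/
structure Spl {V E : Type} [Fintype E] (N : Nt V E) (ph : V → ℝ) (R lo h : ℝ) (C : Set V)
    (A : Finset E) : Prop where
  lo0 : 0 ≤ lo
  h1 : 1 ≤ h
  hi : lo + h ≤ R
  sub : ∀ x ∈ C, lo < ph x ∧ ph x < lo + h
  up : ∀ e, N.s e ∈ C → ph (N.t e) < lo + h → N.t e ∈ C
  dn : ∀ e, N.t e ∈ C → lo < ph (N.s e) → N.s e ∈ C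
  ne : ∃ x, x ∈ C
  ne' : ∃ x, x ∉ C ∧ lo < ph x ∧ ph x < lo + h
  mem : ∀ e, e ∈ A ↔ N.s e ∈ C ∨ N.t e ∈ C

/-- `i` is the current through `C` -/
structure Cur {V E : Type} [Fintype E] [DecidableEq E] (N : Nt V E) (ph : V → ℝ) (lo h : ℝ)
    (A : Finset E) (i : ℝ) : Prop where
  i0 : 0 < i
  i1 : i < 1
  fl : ∀ H : ℝ → ℝ, ∑ e ∈ A, N.d ph e * (H (cl lo h (ph (N.t e))) - H (cl lo h (ph (N.s e)))) =
    i * (H h - H 0)
  fl' : ∀ H : ℝ → ℝ, ∑ e ∈ Aᶜ, N.d ph e * (H (cl lo h (ph (N.t e))) - H (cl lo h (ph (N.s e)))) =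
    (1 - i) * (H h - H 0)
  le : ∀ e ∈ A, cl lo h (ph (N.s e)) < cl lo h (ph (N.t e)) → N.d ph e ≤ i
  le' : ∀ e, e ∉ A → cl lo h (ph (N.s e)) < cl lo h (ph (N.t e)) → N.d ph e ≤ 1 - i

/-- [TWI] (1 h) the currents of the two parts. Hypotheses: none.
Proof. `cl lo h` is monotone, `1`-Lipschitz, values in `[0, h]`, `0` for `y ≤ lo`, `h` for `y ≥ lo + h`,
`y - lo` between. (1) `H`, `L : ℝ → ℝ` with `H 0 = L 0`, `H h = L h`; `F x = H (cy x)` for `x ∈ C`, else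
`L (cy x)`. For `e ∈ A` `d F e = H (cy v) - H (cy u)`: clear if both ends are in `C`; otherwise the end
outside of `C` is outside of the open strip (`up`, `dn`), there `cy` is `0` or `h`, `H = L`. For `e ∉ A`
`d F e = L (cy v) - L (cy u)`. `fl` (`cy a = 0`, `cy b = h`): `S H + S' L = H h - H 0`, `S` = the sum over
`A`, `S'` = the sum over `Aᶜ`. (2) `i = S id / h`. For any `H` take `L y = H 0 + (H h - H 0) / h * y`:
`S H = (H h - H 0) (1 - S' id / h)`, and `S id + S' id = h`, so `S H = i (H h - H 0)`; then for any `L` take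
`H` linear: `S' L = (1 - i) (L h - L 0)`. (3) `e ∈ A`, `cy u < cy v`: `H y = if cy u < y then 1 else 0`,
`H 0 = 0`, `H h = 1`, all terms of `S H` are `≥ 0` and that of `e` is `s_e`, so `s_e ≤ i`. The same for `Aᶜ`
and `1 - i`. (4) `i > 0`: if `i ≤ 0`, by (3) no edge of `A` has `cy u < cy v` (it has `s_e > 0`). So for `e ∈ A`
`cy u = cy v`, and as one end is in the open strip, both are, `ph u = ph v`, both are in `C` (`up`, `dn`). So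
`f = 1` on `C`, `0` outside has `d f e = 0` for all `e`, `f a = f b = 0` (`ph a = 0 ≤ lo`, `ph b = R ≥ lo + h`), by
`pd` `f = 0`, contradiction to `ne`. (5) `1 - i > 0`: the same for `C' = {x ∉ C, lo < ph x < lo + h}` and the
edges with an end in `C'` (they are not in `A`: `up`, `dn`). -/
def St_TWI : Prop := ∀ (V E : Type) [Fintype E] [DecidableEq E] (N : Nt V E) (ph : V → ℝ)
  (R lo h : ℝ) (G : V → V → ℝ) (C : Set V) (A : Finset E), N.Ok ph R 1 G →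
  Spl N ph R lo h C A → ∃ i, Cur N ph lo h A i

/-- [TWL] (1 h) the test functions. Hypotheses: none.
Proof, six pieces. `g1 y = cl lo h y`, `g2 y = y - g1 y` (both monotone), `c1 = g1 y1`, `c2 = g1 y2`,
`a = (2, 1, 0)`, `A_i = a_i - (y1 + y2) / R`, `B_i = a_i - (c1 + c2) / h`.
`D1 y = min y y1`, `D2 y = min y y2 - min y y1`, `D3 y = y - min y y2`; `E1 z = min z c1`,
`E2 z = min z c2 - min z c1`, `E3 z = z - min z c2`; `Ei (g1 y)` is the part of `Di y` in the strip: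
`g1 (min y y1) = min (g1 y) c1` etc. `k1 = ∑ A_i D_i`, `q1 = ∑ A_i^2 D_i`, `k2 = ∑ B_i E_i`,
`q2 = ∑ B_i^2 E_i`, `r = ∑ A_i B_i E_i`. From `α` to `β` `E_i ∘ g1` grows by `ε_i ≥ 0` and `D_i - E_i ∘ g1` by
`δ_i ≥ 0` (for ANY monotone `g` the functions `g (min y y1)`, `g (min y y2) - g (min y y1)`,
`g y - g (min y y2)` are monotone; `g = g1`, `g2`), `∑ ε_i + ∑ δ_i = β - α`. The last statement is
`(∑ A_i δ_i + ∑ (A_i + μ B_i) ε_i)^2 ≤ (β - α) (∑ A_i^2 δ_i + ∑ (A_i + μ B_i)^2 ε_i)`, weighted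
Cauchy-Schwarz. The other statements are rational identities (`field_simp; ring`): at `R` the `D_i` are
`y1, y2 - y1, R - y2`; at `h` the `E_i` are `c1, c2 - c1, h - c2`. -/
def St_TWL : Prop := ∀ R lo h y1 y2 : ℝ, 0 < R → 0 ≤ lo → 0 < h → lo + h ≤ R → 0 ≤ y1 →
  y1 ≤ y2 → y2 ≤ R → ∃ k1 q1 k2 q2 r : ℝ → ℝ, k1 0 = 0 ∧ k1 R = 0 ∧
    k1 y1 + k1 y2 = Ps R y1 y2 / R ∧ q1 R - q1 0 = Ps R y1 y2 / R ∧ k2 0 = 0 ∧ k2 h = 0 ∧
    k2 (cl lo h y1) + k2 (cl lo h y2) = Ps h (cl lo h y1) (cl lo h y2) / h ∧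
    q2 h - q2 0 = Ps h (cl lo h y1) (cl lo h y2) / h ∧
    ∀ μ α β, 0 ≤ α → α ≤ β → β ≤ R →
      (k1 β - k1 α + μ * (k2 (cl lo h β) - k2 (cl lo h α))) ^ 2 ≤
      (β - α) * (q1 β - q1 α + 2 * μ * (r (cl lo h β) - r (cl lo h α)) +
        μ ^ 2 * (q2 (cl lo h β) - q2 (cl lo h α)))

/-- [TWC] (1 h) comparison. Hypotheses: `St_DIR`, `St_RNG`, `St_TWL`.
Proof. `y1 = ph u`, `y2 = ph v`, [TWL]. `κ`, `κ'` real numbers with `κ i + κ' (1 - i) = 0`; `f x = k1 (ph x) +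
κ k2 (cy x)` for `x ∈ C`, `k1 (ph x) + κ' k2 (cy x)` otherwise. `f a = f b = 0`. For `e' ∈ A`
`d f e' = k1 (ph v') - k1 (ph u') + κ (k2 (cy v') - k2 (cy u'))`, also if one end is not in `C` (then it is
outside of the open strip, `cy` is `0` or `h` and `k2` is `0`); for `e' ∉ A` the same with `κ'`. So by [TWL]
`N.fw 1 f f ≤ ∑_A s (dq1 + 2 κ dr + κ^2 dq2) + ∑_Aᶜ s (dq1 + 2 κ' dr + κ'^2 dq2) = (q1 R - q1 0) + 2 (κ i +
κ' (1 - i)) (r h - r 0) + (κ^2 i + κ'^2 (1 - i)) (q2 h - q2 0)` (`fl` of `Ok` for `q1 ∘ ph`, `Cur.fl`, `Cur.fl'`). (1)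
`e ∈ A`: `κ = (1 - i)/i`, `κ' = -1`, `κ^2 i + κ'^2 (1 - i) = κ`, so `N.fw 1 f f ≤ X = Ps R y1 y2 / R +
κ Ps h c1 c2 / h`, and `f u + f v = X` (`e ∈ A`, as above). [DIR] (3): `X^2 ≤ gp X`; `X ≥ 0`, `gp ≥ 0` ([DIR] (2)).
(2) `e ∉ A`: `κ = -1`, `κ' = i/(1 - i)`. -/
def St_TWC : Prop := ∀ (V E : Type) [Fintype E] [DecidableEq E] (N : Nt V E) (ph : V → ℝ)
  (R lo h i : ℝ) (G : V → V → ℝ) (C : Set V) (A : Finset E), N.Ok ph R 1 G →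
  Spl N ph R lo h C A → Cur N ph lo h A i → ∀ e,
  (e ∈ A → Ps R (ph (N.s e)) (ph (N.t e)) / R + (1 - i) / i *
    (Ps h (cl lo h (ph (N.s e))) (cl lo h (ph (N.t e))) / h) ≤ N.gp G e) ∧
  (e ∉ A → Ps R (ph (N.s e)) (ph (N.t e)) / R + i / (1 - i) *
    (Ps h (cl lo h (ph (N.s e))) (cl lo h (ph (N.t e))) / h) ≤ N.gp G e)

/-- [TWP] (0.5 h) parts of an interval in the strip. Hypotheses: none.
`c = cl lo h α`, `c' = cl lo h (α + s)`, `l = c' - c`, `P y = 2 h y^2 - (4/3) y^3`.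
Proof. `l = 0`: `0 ≤ s * Ps h c c = 4 s c (h - c)`. `lo ≤ α`, `α + s ≤ lo + h`: `c' = c + s`, equality (ring).
`α < lo < α + s ≤ lo + h`: `c = 0`, `c' = l ≤ s`, `Ps h 0 l = l (h - l)`; `lo ≤ α < lo + h < α + s`: `c' = h`,
`c = h - l`, `P h - P (h - l) = 2 h l^2 - (4/3) l^3`, `Ps h (h - l) h = l (h - l)`. In both cases the difference of
the sides is `l (s - l) (6 h - s - 4 l) / 3 ≥ 0` (`l ≤ s ≤ h`). `α < lo`, `lo + h < α + s` is impossible (`s ≤ h`). -/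
def St_TWP : Prop := ∀ lo h α s c c' : ℝ, 0 ≤ s → s ≤ h → c = cl lo h α →
  c' = cl lo h (α + s) → ∀ P : ℝ → ℝ, (∀ y, P y = 2 * h * y ^ 2 - 4 / 3 * y ^ 3) →
  P c' - P c + (s ^ 2 / 3 - s * h) * (c' - c) ≤ s * Ps h c c'

/-- [TWB] (0.8 h) the Lev part of the sum. Hypotheses: `St_RNG`, `St_LVI`.
Proof (as in [CSM]). `4 (G u v + G' u' v') = gp + gp' - (1 - s^2/R)` (`Dual.tri`), [LVI] for `N'` (height `1`,
current `R`): `Ps 1 (x u') (x v') ≤ R gp'`. With `P_R y = 2 R y^2 - (4/3) y^3`: `s Ps R y (y+s) = P_R (y+s) -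
P_R y + (s^2/3 - s R) s` (ring), `∑ s_e (P_R (ph v) - P_R (ph u)) = (2/3) R^3` (`fl`); for `N'`: `∑ s_e (P_1 (x v') -
P_1 (x u')) = (2/3) R`. `∑ s_e^2 = R` ([RNG]). So `3 ∑ (s^2/R) (G + G') ≥ (3/(4R)) ((2/3) R^2 + (1/R) ∑ s^2 (s^2/3 -
s R) + ∑ s^2 ξ + 2/3 + (1/R) ∑ s^2 (s^2/3 - s) - R + ∑ s^4/R)`; insert into `zh` and replace `R` by `∑ s^2` where
it is needed. -/
def St_TWB : Prop := ∀ (V V' E : Type) [Fintype V] [Fintype V'] [Fintype E] (N : Nt V E)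
  (N' : Nt V' E) (ph : V → ℝ) (x : V' → ℝ) (R : ℝ) (G : V → V → ℝ) (G' : V' → V' → ℝ)
  (ξ : E → ℝ), Good V V' E N N' ph x R G G' →
  (∀ e, Ps R (ph (N.s e)) (ph (N.t e)) / R + ξ e ≤ N.gp G e) →
  (∑ e, N.d ph e ^ 2 * (3 / 4 * ((1 - N.d ph e) * (1 - N.d ph e / R)) - N.d ph e ^ 2 / (2 * R) +
    3 / 4 * ξ e)) / R ≤ zh N N' ph R G G'

/-- [TWO] (1 h) the result. Hypotheses: `St_RNG`, `St_TWI`, `St_TWC`, `St_TWP`, `St_TWB`.
Proof. `i` from [TWI], `ξ e = (1 - i)/i * Ps h / h` for `e ∈ A`, `i/(1 - i) * Ps h / h` for `e ∉ A` ([TWC]), [TWB].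
The first part: `s^2 (3/4 (1-s)(1-s/R) - s^2/(2R)) ≥ -s^2/(2R)` (`0 ≤ s < 1 ≤ R`), sum `≥ -1/2` (`∑ s^2 = R`).
`∑_A s^2 Ps h ≥ ∑_A s (P c' - P c) - ∑_A s l_e (s h - s^2/3)` ([TWP] with `α = ph u`, `s < 1 ≤ h`)
`≥ i (2/3) h^3 - (i h - i^2/3) ∑_A s l_e = i ((2/3) h^3 - i h^2 + i^2 h / 3)`: `Cur.fl` for `H = P` and `H = id`;
if `l_e > 0` then `s ≤ i` (`Cur.le`) and `s h - s^2/3 ≤ i h - i^2/3` (`(i - s)(h - (i + s)/3) ≥ 0`). In the same way for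
`Aᶜ` with `1 - i`. So `∑ s^2 ξ ≥ (1 - i)((2/3) h^2 - i h + i^2/3) + i ((2/3) h^2 - (1 - i) h + (1 - i)^2/3) =
(2/3) h^2 - i (1 - i)(2 h - 1/3) ≥ (2/3) h^2 - h/2 + 1/12` (`i (1 - i) ≤ 1/4`). Total: `R zh ≥ -1/2 + h^2/2 -
3h/8 + 1/16`. -/
def St_TWO : Prop := ∀ (V V' E : Type) [Fintype V] [Fintype V'] [Fintype E] (N : Nt V E)
  (N' : Nt V' E) (ph : V → ℝ) (x : V' → ℝ) (R lo h : ℝ) (G : V → V → ℝ) (G' : V' → V' → ℝ)
  (C : Set V) (A : Finset E), Good V V' E N N' ph x R G G' → Spl N ph R lo h C A →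
  (h ^ 2 / 2 - 3 / 8 * h - 7 / 16) / R ≤ zh N N' ph R G G'

/-- [TWF] (0.2 h) the result for the middle half. Hypotheses: `St_TWO`.
Proof. `lo = R/4`, `h = R/2`, `A` = the edges with an end in `C` (filter, classical). -/
def St_TWF : Prop := ∀ (V V' E : Type) [Fintype V] [Fintype V'] [Fintype E] (N : Nt V E)
  (N' : Nt V' E) (ph : V → ℝ) (x : V' → ℝ) (R : ℝ) (G : V → V → ℝ) (G' : V' → V' → ℝ)
  (C : Set V), Good V V' E N N' ph x R G G' → 2 ≤ R →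
  (∀ y ∈ C, R / 4 < ph y ∧ ph y < 3 * R / 4) →
  (∀ e, N.s e ∈ C → ph (N.t e) < 3 * R / 4 → N.t e ∈ C) →
  (∀ e, N.t e ∈ C → R / 4 < ph (N.s e) → N.s e ∈ C) →
  (∃ y, y ∈ C) → (∃ y, y ∉ C ∧ R / 4 < ph y ∧ ph y < 3 * R / 4) →
  R / 8 - 3 / 16 - 7 / (16 * R) ≤ zh N N' ph R G G'

end ALZ
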