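import Pool.Agent.ALZ.St

/-!
# ALZ FNA: the result for `R ≤ 3/2`
-/

set_option autoImplicit false

namespace ALZ

/-- a finite set of numbers above one half with a small sum has at most two elements -/
theorem FNA_card {E : Type} (J : Finset E) (f : E → ℝ) (R : ℝ) (hJ : ∀ e ∈ J, 1 / 2 < f e)
    (hS : ∑ j ∈ J, f j ≤ R) (hR : R ≤ 3 / 2) : J.card ≤ 2 := by
  classical
  by_contra hc
  have h3 : 3 ≤ J.card := by omega
  have hne : J.Nonempty := by
    rw [← Finset.card_pos]
    omega
  have h1 : ∑ _j ∈ J, (1 / 2 : ℝ) < ∑ j ∈ J, f j := Finset.sum_lt_sum_of_nonempty hne hJ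
  rw [Finset.sum_const, nsmul_eq_mul] at h1
  have h4 : (3 : ℝ) ≤ (J.card : ℝ) := by exact_mod_cast h3
  linarith

theorem thm_FNA (h1 : St_SMA) (h2 : St_NMA) (h3 : St_NMB) : St_FNA := by
  classical
  intro V V' E _ _ _ N N' ph x R G G' hG hR
  set J : Finset E := Finset.univ.filter (fun e => 1 / 2 < N.d ph e) with hJdef
  have hJ : ∀ e, e ∈ J ↔ 1 / 2 < N.d ph e := by
    intro e
    simp [hJdef]
  rcases le_total R (5 / 4) with hR5 | hR5
  · obtain ⟨a1, a2, a3, a4, a5⟩ := h2 R hG.r1 hR5
    obtain ⟨b1, b2, b3⟩ := h1 V V' E N N' ph x R (69 / 100) G G' J hG hJ (by norm_num) a1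
    have hc : J.card ≤ 2 := FNA_card J _ R (fun e he => (hJ e).1 he) b1 hR
    rcases Nat.lt_or_ge J.card 2 with hc2 | hc2
    · rcases Nat.lt_or_ge J.card 1 with hc1 | hc1
      · have h0 : J = ∅ := Finset.card_eq_zero.1 (by omega)
        rw [h0, Finset.sum_empty] at b2
        linarith
      · obtain ⟨j, hj⟩ := Finset.card_eq_one.1 (show J.card = 1 by omega)
        have hjJ : j ∈ J := by rw [hj]; exact Finset.mem_singleton_self j
        have hj1 : 1 / 2 < N.d ph j := (hJ j).1 hjJ
        have hj2 : N.d ph j < 1 := hG.lt1 j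
        have e1 : ∑ i ∈ J, loss (69 / 100) R (N.d ph i) = loss (69 / 100) R (N.d ph j) := by
          rw [hj, Finset.sum_singleton]
        rw [e1] at b2 b3
        rcases le_total (4 * N.d ph j) (3 * R) with h4 | h4
        · have := a3 _ hj1 hj2 h4
          linarith
        · have h5 := b3 j hjJ h4
          have := a4 _ hj1 hj2 h4
          linarith
    · obtain ⟨j, k, hjk, hj⟩ := Finset.card_eq_two.1 (show J.card = 2 by omega)
      have hjJ : j ∈ J := by rw [hj]; simp
      have hkJ : k ∈ J := by rw [hj]; simp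
      have e1 : ∑ i ∈ J, loss (69 / 100) R (N.d ph i) =
          loss (69 / 100) R (N.d ph j) + loss (69 / 100) R (N.d ph k) := by
        rw [hj, Finset.sum_pair hjk]
      have e2 : ∑ i ∈ J, N.d ph i = N.d ph j + N.d ph k := by
        rw [hj, Finset.sum_pair hjk]
      rw [e1] at b2
      rw [e2] at b1
      have := a5 _ _ ((hJ j).1 hjJ) ((hJ k).1 hkJ) b1
      linarith
  · obtain ⟨a1, a2, a3, a4⟩ := h3 R hR5 hR
    obtain ⟨b1, b2, _⟩ := h1 V V' E N N' ph x R (7 / 10) G G' J hG hJ (by norm_num) a1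
    have hc : J.card ≤ 2 := FNA_card J _ R (fun e he => (hJ e).1 he) b1 hR
    rcases Nat.lt_or_ge J.card 2 with hc2 | hc2
    · rcases Nat.lt_or_ge J.card 1 with hc1 | hc1
      · have h0 : J = ∅ := Finset.card_eq_zero.1 (by omega)
        rw [h0, Finset.sum_empty] at b2
        linarith
      · obtain ⟨j, hj⟩ := Finset.card_eq_one.1 (show J.card = 1 by omega)
        have hjJ : j ∈ J := by rw [hj]; exact Finset.mem_singleton_self j
        have hj1 : 1 / 2 < N.d ph j := (hJ j).1 hjJ
        have hj2 : N.d ph j < 1 := hG.lt1 j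
        have e1 : ∑ i ∈ J, loss (7 / 10) R (N.d ph i) = loss (7 / 10) R (N.d ph j) := by
          rw [hj, Finset.sum_singleton]
        rw [e1] at b2
        have := a3 _ hj1 hj2
        linarith
    · obtain ⟨j, k, hjk, hj⟩ := Finset.card_eq_two.1 (show J.card = 2 by omega)
      have hjJ : j ∈ J := by rw [hj]; simp
      have hkJ : k ∈ J := by rw [hj]; simp
      have e1 : ∑ i ∈ J, loss (7 / 10) R (N.d ph i) =
          loss (7 / 10) R (N.d ph j) + loss (7 / 10) R (N.d ph k) := by
        rw [hj, Finset.sum_pair hjk]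
      have e2 : ∑ i ∈ J, N.d ph i = N.d ph j + N.d ph k := by
        rw [hj, Finset.sum_pair hjk]
      rw [e1] at b2
      rw [e2] at b1
      have := a4 _ _ ((hJ j).1 hjJ) ((hJ k).1 hkJ) b1
      linarith

end ALZ
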