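import Pool.Agent.ALZ.St

/-!
# ALZ, module GEX: existence of Green functions (helper29)
-/

set_option autoImplicit false

namespace ALZ

/-- the functions which vanish outside of `W` -/
def GEX_Z {V : Type} (W : Set V) : Submodule ℝ (V → ℝ) where
  carrier := {f | Van W f}
  add_mem' := by
    intro f g hf hg x hx
    rw [Pi.add_apply, hf x hx, hg x hx, add_zero]
  zero_mem' := fun x _ => rfl
  smul_mem' := by
    intro c f hf x hx
    rw [Pi.smul_apply, hf x hx, smul_zero]

/-- the form as a linear map to the dual space -/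
noncomputable def GEX_T {V E : Type} [Fintype E] (N : Nt V E) (c : E → ℝ) (W : Set V) :
    GEX_Z W →ₗ[ℝ] Module.Dual ℝ (GEX_Z W) :=
  LinearMap.mk₂ ℝ (fun f h : GEX_Z W => N.fw c f h)
    (by
      intro f f' h
      unfold Nt.fw
      rw [← Finset.sum_add_distrib]
      refine Finset.sum_congr rfl (fun e _ => ?_)
      simp only [Nt.d, Submodule.coe_add, Pi.add_apply]
      ring)
    (by
      intro r f h
      unfold Nt.fw
      rw [smul_eq_mul, Finset.mul_sum]
      refine Finset.sum_congr rfl (fun e _ => ?_)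
      simp only [Nt.d, Submodule.coe_smul, Pi.smul_apply, smul_eq_mul]
      ring)
    (by
      intro f h h'
      unfold Nt.fw
      rw [← Finset.sum_add_distrib]
      refine Finset.sum_congr rfl (fun e _ => ?_)
      simp only [Nt.d, Submodule.coe_add, Pi.add_apply]
      ring)
    (by
      intro r f h
      unfold Nt.fw
      rw [smul_eq_mul, Finset.mul_sum]
      refine Finset.sum_congr rfl (fun e _ => ?_)
      simp only [Nt.d, Submodule.coe_smul, Pi.smul_apply, smul_eq_mul]
      ring)

/-- [GEX] -/
theorem thm_GEX : St_GEX := by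
  classical
  intro V E _ _ N c W hPD
  have hinj : Function.Injective (GEX_T N c W) := by
    rw [← LinearMap.ker_eq_bot, LinearMap.ker_eq_bot']
    intro f hf
    have h1 : N.fw c f f = 0 := by
      have := congrArg (fun T => T f) hf
      exact this
    have h2 := hPD f f.2 h1
    exact Subtype.ext (funext h2)
  have hsur : Function.Surjective (GEX_T N c W) :=
    (LinearMap.injective_iff_surjective_of_finrank_eq_finrank
      (Subspace.dual_finrank_eq (K := ℝ) (V := GEX_Z W)).symm).1 hinj
  have hex : ∀ x : V, ∃ g : V → ℝ, Van W g ∧ (x ∉ W → ∀ y, g y = 0) ∧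
      (x ∈ W → ∀ h : V → ℝ, Van W h → N.fw c g h = h x) := by
    intro x
    by_cases hx : x ∈ W
    · obtain ⟨g, hg⟩ := hsur ((LinearMap.proj x).comp (GEX_Z W).subtype)
      refine ⟨g, g.2, fun h => absurd hx h, fun _ h hh => ?_⟩
      exact congrArg (fun T => T (⟨h, hh⟩ : GEX_Z W)) hg
    · exact ⟨fun _ => 0, fun _ _ => rfl, fun _ _ => rfl, fun h => absurd h hx⟩
  choose G hG1 hG2 hG3 using hex
  exact ⟨G, ⟨fun x hx y => hG2 x hx y, hG1, fun x hx h hh => hG3 x hx h hh⟩⟩

end ALZ
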